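import Pool.Agent.J4.H22.GQ.Defs3

/-! Project GQ (helper22), piece ISO (helper60): combinations and expansions -/

set_option autoImplicit false
set_option linter.all false

namespace Pool.Agent.J4.H60.GQ

open Finset Pool.Agent.J4.H22.GQ

noncomputable section

lemma cb_mono {S : Set W} {r r' : ℝ} {w : W} (h : Cb S r w) (hr : r ≤ r') : Cb S r' w := by
  obtain ⟨l, h1, h2, h3⟩ := h
  exact ⟨l, h1, h2.trans hr, h3⟩

lemma cb_mono_set {S S' : Set W} {r : ℝ} {w : W} (h : Cb S r w) (hS : S ⊆ S') : Cb S' r w := by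
  obtain ⟨l, h1, h2, h3⟩ := h
  exact ⟨l, fun x hx => hS (h1 x hx), h2, h3⟩

lemma cb_zero (S : Set W) : Cb S 0 0 := ⟨[], by simp, by simp, by simp⟩

lemma cb_self {S : Set W} {w : W} (h : w ∈ S) : Cb S 1 w := ⟨[(1, w)], by simpa using h, by simp, by simp⟩

lemma cb_add {S : Set W} {r r' : ℝ} {v w : W} (h : Cb S r v) (h' : Cb S r' w) : Cb S (r + r') (v + w) := by
  obtain ⟨l, h1, h2, h3⟩ := h
  obtain ⟨l', h1', h2', h3'⟩ := h'
  refine ⟨l ++ l', ?_, ?_, ?_⟩
  · intro x hx
    rcases List.mem_append.1 hx with h | h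
    · exact h1 x h
    · exact h1' x h
  · rw [List.map_append, List.sum_append]
    linarith
  · rw [List.map_append, List.sum_append, h3, h3']

lemma cb_smul {S : Set W} {r : ℝ} {w : W} (c : ℝ) (h : Cb S r w) : Cb S (|c| * r) (c • w) := by
  obtain ⟨l, h1, h2, h3⟩ := h
  refine ⟨l.map (fun x => (c * x.1, x.2)), ?_, ?_, ?_⟩
  · intro x hx
    obtain ⟨y, hy, rfl⟩ := List.mem_map.1 hx
    exact h1 y hy
  · have h4 : ∀ l : List (ℝ × W), ((l.map (fun x => (c * x.1, x.2))).map (fun x => |x.1|)).sum =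
        |c| * (l.map (fun x => |x.1|)).sum := by
      intro l
      induction l with
      | nil => simp
      | cons a l ih =>
        simp only [List.map_cons, List.sum_cons, mul_add, ← ih, abs_mul]
    rw [h4]
    exact mul_le_mul_of_nonneg_left h2 (abs_nonneg c)
  · have h4 : ∀ l : List (ℝ × W), ((l.map (fun x => (c * x.1, x.2))).map (fun x => x.1 • x.2)).sum =
        c • (l.map (fun x => x.1 • x.2)).sum := by
      intro l
      induction l with
      | nil => simp
      | cons a l ih =>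
        simp only [List.map_cons, List.sum_cons, smul_add, ← ih, mul_smul]
    rw [h4, h3]

lemma cb_sum {ι : Type*} (s : Finset ι) (c : ι → ℝ) (v : ι → W) (S : Set W) (r : ℝ) (hr : 0 ≤ r)
    (hc : ∀ i ∈ s, |c i| ≤ 1) (hv : ∀ i ∈ s, Cb S r (v i)) : Cb S (s.card * r) (∑ i ∈ s, c i • v i) := by
  classical
  induction s using Finset.induction_on with
  | empty => simpa using cb_zero S
  | insert a s ha ih =>
    rw [sum_insert ha, card_insert_of_notMem ha]
    have h1 := ih (fun i hi => hc i (mem_insert_of_mem hi)) (fun i hi => hv i (mem_insert_of_mem hi))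
    have h2 := cb_smul (c a) (hv a (mem_insert_self a s))
    have h3 : |c a| * r ≤ r := mul_le_of_le_one_left hr (hc a (mem_insert_self a s))
    refine cb_mono (cb_add (cb_mono h2 h3) h1) (le_of_eq ?_)
    push_cast
    ring

lemma vc_one : vc 1 = 0 := by
  ext p
  simp [vc]

lemma vc_mul {a b : ℕ} (ha : a ≠ 0) (hb : b ≠ 0) : vc (a * b) = vc a + vc b := by
  ext p
  simp [vc, Nat.factorization_mul ha hb]

lemma cS_one (X : ℝ) : cS X 1 = 0 := by
  simp [cS]

lemma cS_mul (X : ℝ) {a b : ℕ} (ha : a ≠ 0) (hb : b ≠ 0) : cS X (a * b) = cS X a + cS X b := by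
  classical
  unfold cS
  have h := (Nat.perm_primeFactorsList_mul ha hb).filter (fun p : ℕ => decide (X < (p : ℝ)))
  rw [List.filter_append] at h
  have h2 := h.length_eq
  rw [List.length_append] at h2
  convert h2 using 2

lemma dd_one (X : ℝ) (e u : W) : dd X e u 1 = 0 := by
  unfold dd
  rw [vc_one, cS_one]
  simp

lemma dd_mul (X : ℝ) (e u : W) {a b : ℕ} (ha : a ≠ 0) (hb : b ≠ 0) :
    dd X e u (a * b) = dd X e u a + dd X e u b := by
  unfold dd
  rw [vc_mul ha hb, cS_mul X ha hb]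
  push_cast
  rw [Real.log_mul (by exact_mod_cast ha) (by exact_mod_cast hb)]
  module

lemma dd_prod {ι : Type*} (X : ℝ) (e u : W) (s : Finset ι) (f : ι → ℕ) (h : ∀ i ∈ s, f i ≠ 0) :
    dd X e u (∏ i ∈ s, f i) = ∑ i ∈ s, dd X e u (f i) := by
  classical
  induction s using Finset.induction_on with
  | empty => simpa using dd_one X e u
  | insert a s ha ih =>
    rw [prod_insert ha, sum_insert ha, dd_mul X e u (h a (mem_insert_self a s))
      (prod_ne_zero_iff.2 fun i hi => h i (mem_insert_of_mem hi)), ih fun i hi => h i (mem_insert_of_mem hi)]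

lemma dd_list (X : ℝ) (e u : W) (l : List ℕ) (h : ∀ p ∈ l, p ≠ 0) :
    dd X e u l.prod = (l.map (dd X e u)).sum := by
  induction l with
  | nil => simpa using dd_one X e u
  | cons a l ih =>
    rw [List.prod_cons, List.map_cons, List.sum_cons, dd_mul X e u (h a List.mem_cons_self) ?_,
      ih fun p hp => h p (List.mem_cons_of_mem a hp)]
    exact List.prod_ne_zero fun h0 => h 0 (List.mem_cons_of_mem a h0) rfl

lemma cb_dd (X : ℝ) (e u : W) (P : Finset ℕ) (n : ℕ) (hn : n ≠ 0) (h : ∀ p : ℕ, p.Prime → p ∣ n → p ∈ P) :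
    Cb (dd X e u '' (P : Set ℕ)) n.primeFactorsList.length (dd X e u n) := by
  refine ⟨n.primeFactorsList.map (fun p => (1, dd X e u p)), ?_, ?_, ?_⟩
  · intro x hx
    obtain ⟨p, hp, rfl⟩ := List.mem_map.1 hx
    refine ⟨p, ?_, rfl⟩
    exact_mod_cast h p (Nat.prime_of_mem_primeFactorsList hp) (Nat.dvd_of_mem_primeFactorsList hp)
  · rw [List.map_map]
    have h1 : ((fun x : ℝ × W => |x.1|) ∘ fun p : ℕ => ((1 : ℝ), dd X e u p)) = fun _ => (1 : ℝ) := by
      funext p
      simp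
    rw [h1, List.map_const', List.sum_replicate]
    simp
  · have h1 := dd_list X e u n.primeFactorsList fun p hp => (Nat.prime_of_mem_primeFactorsList hp).ne_zero
    rw [Nat.prod_primeFactorsList hn] at h1
    rw [h1, List.map_map]
    congr 1
    apply List.map_congr_left
    intro p _
    simp

/-- the multilinear bound, with `u` at the places in `J` -/
lemma bT (hBND : S_BND) {m : ℕ} (Φ : ML m) {X : ℝ} {e u : W} {P : Finset ℕ} (h2 : 2 ∈ P)
    (J : Finset (Fin (m + 2))) (β : ℝ) (hβ : 0 ≤ β)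
    (h : ∀ p : Fin (m + 2) → ℕ, (∀ i, p i ∈ P) → |Φ (Ta X e u J p)| ≤ β)
    (r : ℝ) (hr : 1 ≤ r) (w : Fin (m + 2) → W) (hw : ∀ i ∈ J, w i = u)
    (hw' : ∀ i, i ∉ J → Cb (dd X e u '' (P : Set ℕ)) r (w i)) : |Φ w| ≤ β * r ^ (m + 2) := by
  classical
  have h1 := hBND m Φ (fun i => if i ∈ J then {u} else dd X e u '' (P : Set ℕ)) β hβ ?_ (fun _ => r) w ?_
  · simpa using h1
  · intro v hv
    have h3 : ∀ i, ∃ q ∈ P, i ∉ J → dd X e u q = v i := by
      intro i
      by_cases hi : i ∈ J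
      · exact ⟨2, h2, fun h => absurd hi h⟩
      · have h4 := hv i
        simp only [if_neg hi] at h4
        obtain ⟨q, hq, hq2⟩ := h4
        exact ⟨q, by exact_mod_cast hq, fun _ => hq2⟩
    choose p hp hp2 using h3
    have h5 : v = Ta X e u J p := by
      funext i
      unfold Ta
      split_ifs with hi
      · have h4 := hv i
        simp only [if_pos hi] at h4
        exact h4
      · exact (hp2 i hi).symm
    rw [h5]
    exact h p hp
  · intro i
    by_cases hi : i ∈ J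
    · simp only [if_pos hi]
      rw [hw i hi]
      exact cb_mono (cb_self rfl) hr
    · simp only [if_neg hi]
      exact hw' i hi

/-- the indices of the expansion: `u`, the two bases; the special numbers; the slots -/
abbrev PP (m : ℕ) (n : Fin 3 → ℕ) : Type := Fin 3 ⊕ (Fin (m + 2) ⊕ ((g : Fin 3) × Fin (n g)))

def cf {m : ℕ} {n : Fin 3 → ℕ} (I Cc : Finset (Fin (m + 2))) (i : Fin (m + 2)) : PP m n → ℝ :=
  Sum.elim ![-Real.log 2, if i = 0 then 0 else 1, -1]
    (Sum.elim (fun j => if j ∈ Cc then -1 else if j ∈ I then (if i = 0 then 0 else 1) else 0)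
      (fun t => (![if i = 0 then 0 else 1, if i = 0 then 1 else 0, -1] : Fin 3 → ℝ) t.1))

def vec {m : ℕ} {n : Fin 3 → ℕ} (X : ℝ) (e u : W) (ωa ωc : ℕ) (I : Finset (Fin (m + 2))) (s s' : Fin (m + 2) → ℕ)
    (E : Finset (Fin (m + 2))) (x : Ct n) : PP m n → W :=
  Sum.elim ![u, dd X e u ωa, dd X e u ωc]
    (Sum.elim (fun j => if j ∈ I then dd X e u (ch E s s' j) else 0) (fun t => dd X e u (x t.1 t.2)))

lemma log2_le : Real.log 2 ≤ 1 := by
  have := Real.log_two_lt_d9
  linarith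

lemma cf_le {m : ℕ} {n : Fin 3 → ℕ} (I Cc : Finset (Fin (m + 2))) (i : Fin (m + 2)) (κ : PP m n) : |cf I Cc i κ| ≤ 1 := by
  have h0 : |(-Real.log 2)| ≤ 1 := by
    rw [abs_neg, abs_of_nonneg (Real.log_nonneg (by norm_num))]
    exact log2_le
  rcases κ with κ | κ | κ
  · fin_cases κ
    · simpa [cf] using h0
    · simp only [cf]
      by_cases hi : i = 0 <;> simp [hi]
    · simp [cf]
  · simp only [cf, Sum.elim_inr, Sum.elim_inl]
    split_ifs <;> simp
  · simp only [cf, Sum.elim_inr]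
    obtain ⟨g, l⟩ := κ
    fin_cases g
    · by_cases hi : i = 0 <;> simp [hi]
    · by_cases hi : i = 0 <;> simp [hi]
    · simp

lemma expand {m : ℕ} {n : Fin 3 → ℕ} (X : ℝ) (e u : W) (ωa ωc : ℕ) (I Cc : Finset (Fin (m + 2))) (hCI : Cc ⊆ I)
    (s s' : Fin (m + 2) → ℕ) (E : Finset (Fin (m + 2))) (x : Ct n) (hωa : ωa ≠ 0) (hωc : ωc ≠ 0)
    (hs : ∀ i ∈ I, ch E s s' i ≠ 0) (hx : ∀ g l, x g l ≠ 0) (i : Fin (m + 2)) :
    ∑ κ, cf I Cc i κ • vec X e u ωa ωc I s s' E x κ =
      (if i = 0 then dd X e u (∏ l, x 1 l) else dd X e u (ωa * (∏ j ∈ I \ Cc, ch E s s' j) * ∏ l, x 0 l)) -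
        dd X e u (ωc * (∏ j ∈ Cc, ch E s s' j) * ∏ l, x 2 l) - Real.log 2 • u := by
  have e0 : ∀ g, ∏ l, x g l ≠ 0 := fun g => prod_ne_zero_iff.2 fun l _ => hx g l
  have e1 : ∏ j ∈ I \ Cc, ch E s s' j ≠ 0 := prod_ne_zero_iff.2 fun j hj => hs j (mem_sdiff.1 hj).1
  have e2 : ∏ j ∈ Cc, ch E s s' j ≠ 0 := prod_ne_zero_iff.2 fun j hj => hs j (hCI hj)
  rw [dd_mul X e u (mul_ne_zero hωa e1) (e0 0), dd_mul X e u hωa e1, dd_mul X e u (mul_ne_zero hωc e2) (e0 2),
    dd_mul X e u hωc e2, dd_prod X e u _ _ fun l _ => hx 0 l, dd_prod X e u _ _ fun l _ => hx 1 l,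
    dd_prod X e u _ _ fun l _ => hx 2 l, dd_prod X e u _ _ fun j hj => hs j (mem_sdiff.1 hj).1,
    dd_prod X e u _ _ fun j hj => hs j (hCI hj)]
  have h1 : ∑ j : Fin (m + 2), (if j ∈ Cc then (-1 : ℝ) else if j ∈ I then (if i = 0 then 0 else 1) else 0) •
      (if j ∈ I then dd X e u (ch E s s' j) else 0) =
      (if i = 0 then 0 else ∑ j ∈ I \ Cc, dd X e u (ch E s s' j)) - ∑ j ∈ Cc, dd X e u (ch E s s' j) := by
    have h2 : ∑ j : Fin (m + 2), (if j ∈ Cc then (-1 : ℝ) else if j ∈ I then (if i = 0 then 0 else 1) else 0) •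
      (if j ∈ I then dd X e u (ch E s s' j) else 0) = ∑ j ∈ I, (if j ∈ Cc then (-1 : ℝ) else (if i = 0 then 0 else 1)) •
      dd X e u (ch E s s' j) := by
      symm
      rw [← sum_subset (subset_univ I)]
      · refine sum_congr rfl fun j hj => ?_
        simp [hj]
      · intro j _ hj
        simp [hj]
    rw [h2, ← sum_sdiff hCI]
    have h3 : ∑ j ∈ Cc, (if j ∈ Cc then (-1 : ℝ) else (if i = 0 then 0 else 1)) • dd X e u (ch E s s' j) =
        - ∑ j ∈ Cc, dd X e u (ch E s s' j) := by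
      rw [← sum_neg_distrib]
      refine sum_congr rfl fun j hj => ?_
      simp [hj]
    have h4 : ∑ j ∈ I \ Cc, (if j ∈ Cc then (-1 : ℝ) else (if i = 0 then 0 else 1)) • dd X e u (ch E s s' j) =
        if i = 0 then 0 else ∑ j ∈ I \ Cc, dd X e u (ch E s s' j) := by
      by_cases hi : i = 0
      · simp only [hi, if_true]
        refine sum_eq_zero fun j hj => ?_
        simp [(mem_sdiff.1 hj).2]
      · simp only [hi, if_false]
        refine sum_congr rfl fun j hj => ?_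
        simp [(mem_sdiff.1 hj).2]
    rw [h3, h4, sub_eq_add_neg]
  rw [Fintype.sum_sum_type, Fintype.sum_sum_type, Fintype.sum_sigma, Fin.sum_univ_three, Fin.sum_univ_three]
  simp only [cf, vec, Sum.elim_inl, Sum.elim_inr, h1]
  by_cases hi : i = 0
  · simp [hi]
    abel
  · simp [hi]
    abel

end

end Pool.Agent.J4.H60.GQ
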