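import Pool.Agent.J4.H60.GQ.A1

/-! Project GQ (helper22), piece ISO (helper60): combinatorics of the expansion -/

set_option autoImplicit false
set_option linter.all false

namespace Pool.Agent.J4.H60.GQ

open Finset Pool.Agent.J4.H22.GQ

noncomputable section

/-- the index for the place of the vector with the number `j` -/
def spx {m : ℕ} {n : Fin 3 → ℕ} (J0 : Finset (Fin (m + 2))) (j : Fin (m + 2)) : PP m n :=
  if j ∈ J0 then Sum.inl 0 else Sum.inr (Sum.inl j)

lemma spx_in {m : ℕ} {n : Fin 3 → ℕ} {J0 : Finset (Fin (m + 2))} {j : Fin (m + 2)} (h : j ∈ J0) :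
    (spx J0 j : PP m n) = Sum.inl 0 := if_pos h

lemma spx_out {m : ℕ} {n : Fin 3 → ℕ} {J0 : Finset (Fin (m + 2))} {j : Fin (m + 2)} (h : j ∉ J0) :
    (spx J0 j : PP m n) = Sum.inr (Sum.inl j) := if_neg h

lemma spx_eq_inl {m : ℕ} {n : Fin 3 → ℕ} {J0 : Finset (Fin (m + 2))} {j : Fin (m + 2)} :
    (spx J0 j : PP m n) = Sum.inl 0 ↔ j ∈ J0 := by
  by_cases h : j ∈ J0
  · simp [spx_in h, h]
  · simp [spx_out h, h]

lemma spx_eq_inr {m : ℕ} {n : Fin 3 → ℕ} {J0 : Finset (Fin (m + 2))} {j k : Fin (m + 2)} :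
    (spx J0 j : PP m n) = Sum.inr (Sum.inl k) ↔ j ∉ J0 ∧ j = k := by
  by_cases h : j ∈ J0
  · simp [spx_in h, h]
  · simp [spx_out h, h]

/-- the good words -/
def Th {m : ℕ} (n : Fin 3 → ℕ) (J0 : Finset (Fin (m + 2))) (τ : Fin (m + 2) → PP m n) : Prop :=
  ∃ π : Equiv.Perm (Fin (m + 2)), τ = spx J0 ∘ π

/-- the classification -/
lemma classify {m : ℕ} {n : Fin 3 → ℕ} (J0 : Finset (Fin (m + 2))) (τ : Fin (m + 2) → PP m n)
    (h1 : J0.card ≤ (univ.filter (fun i => τ i = Sum.inl 0)).card)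
    (h2 : ∀ j, j ∉ J0 → ∃ i, τ i = Sum.inr (Sum.inl j)) : Th n J0 τ := by
  classical
  -- choose places for the special numbers
  have h3 : ∀ j, ∃ i, j ∉ J0 → τ i = Sum.inr (Sum.inl j) := by
    intro j
    by_cases hj : j ∈ J0
    · exact ⟨0, fun h => absurd hj h⟩
    · obtain ⟨i, hi⟩ := h2 j hj
      exact ⟨i, fun _ => hi⟩
  choose g hg using h3
  have hinj : Set.InjOn g ((J0ᶜ : Finset (Fin (m + 2))) : Set (Fin (m + 2))) := by
    intro a ha b hb hab
    have ha' := hg a (by simpa using ha)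
    have hb' := hg b (by simpa using hb)
    rw [hab, hb'] at ha'
    simpa using ha'.symm
  obtain ⟨ψ, hψ⟩ := Finset.exists_equiv_extend_of_card_eq (t := (univ : Finset (Fin (m + 2))))
    (s := (J0ᶜ : Finset (Fin (m + 2)))) (f := g) (by simp) (subset_univ _) hinj
  let φ : Equiv.Perm (Fin (m + 2)) := ψ.trans (Equiv.subtypeUnivEquiv (fun x => mem_univ x))
  have hφ : ∀ j, j ∉ J0 → φ j = g j := by
    intro j hj
    have := hψ j (by simpa using hj)
    simpa [φ] using this
  -- the set of the `u`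
  obtain ⟨U, hU⟩ : ∃ U, U = univ.filter (fun i => τ i = (Sum.inl 0 : PP m n)) := ⟨_, rfl⟩
  rw [← hU] at h1
  have hUc : U ⊆ (J0.image φ) := by
    intro i hi
    rw [hU, mem_filter] at hi
    rw [mem_image]
    refine ⟨φ.symm i, ?_, by simp⟩
    by_contra h
    have h4 := hφ _ h
    rw [Equiv.apply_symm_apply] at h4
    have h5 := hg _ h
    rw [← h4, hi.2] at h5
    simp at h5
  have hUe : U = J0.image φ := by
    apply eq_of_subset_of_card_le hUc
    rw [card_image_of_injective _ φ.injective]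
    exact h1
  refine ⟨φ.symm, ?_⟩
  funext i
  by_cases h : φ.symm i ∈ J0
  · rw [Function.comp_apply, spx_in h]
    have : i ∈ U := by
      rw [hUe, mem_image]
      exact ⟨_, h, by simp⟩
    rw [hU, mem_filter] at this
    exact this.2
  · rw [Function.comp_apply, spx_out h]
    have h4 := hφ _ h
    rw [Equiv.apply_symm_apply] at h4
    have h5 := hg _ h
    rw [← h4] at h5
    exact h5

/-- alternating sums of a multilinear function -/
lemma alt_sum {m : ℕ} (Ψ : ML m) (J0 : Finset (Fin (m + 2))) (v p q : Fin (m + 2) → W) :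
    ∑ E ∈ (J0ᶜ).powerset, (-1 : ℝ) ^ E.card * Ψ (fun j => if j ∈ J0 then v j else if j ∈ E then q j else p j) =
      Ψ (fun j => if j ∈ J0 then v j else p j - q j) := by
  classical
  have h1 : (fun j => if j ∈ J0 then v j else p j - q j) =
      (fun j => if j ∈ J0 then v j else p j) + (fun j => if j ∈ J0 then 0 else - q j) := by
    funext j
    rw [Pi.add_apply]
    split_ifs
    · simp
    · rw [sub_eq_add_neg]
  have hc : ∀ G : Finset (Fin (m + 2)) → ℝ, ∑ s, G s = ∑ E, G Eᶜ := fun G =>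
    (Equiv.sum_comp (Function.Involutive.toPerm (compl : Finset (Fin (m + 2)) → _) compl_involutive) G).symm
  rw [h1, MultilinearMap.map_add_univ]
  rw [hc (fun s => Ψ (s.piecewise (fun j => if j ∈ J0 then v j else p j) (fun j => if j ∈ J0 then 0 else - q j)))]
  symm
  rw [← sum_subset (subset_univ (J0ᶜ).powerset)]
  · refine sum_congr rfl fun E hE => ?_
    rw [mem_powerset] at hE
    have h2 : (Eᶜ.piecewise (fun j => if j ∈ J0 then v j else p j) (fun j => if j ∈ J0 then 0 else - q j)) =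
        fun j => (if j ∈ E then (-1 : ℝ) else 1) • (if j ∈ J0 then v j else if j ∈ E then q j else p j) := by
      funext j
      by_cases hj : j ∈ E
      · have hj' : j ∉ J0 := by simpa using hE hj
        rw [piecewise_eq_of_notMem _ _ _ (by simpa using hj)]
        simp [hj, hj']
      · rw [piecewise_eq_of_mem _ _ _ (by simpa using hj)]
        simp [hj]
    rw [h2, MultilinearMap.map_smul_univ, smul_eq_mul]
    congr 1
    rw [Finset.prod_ite]
    simp
  · intro E _ hE
    rw [mem_powerset] at hE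
    obtain ⟨j, hj, hj'⟩ := Finset.not_subset.1 hE
    apply MultilinearMap.map_coord_zero _ j
    rw [piecewise_eq_of_notMem _ _ _ (by simpa using hj)]
    simp only [mem_compl, not_not] at hj'
    simp [hj']

/-- a function of `E` whose values at `E` and `E ∪ {j}` are close -/
lemma alt_small {m : ℕ} (I : Finset (Fin (m + 2))) (j : Fin (m + 2)) (hj : j ∈ I) (F : Finset (Fin (m + 2)) → ℝ) (δ : ℝ)
    (h : ∀ E, E ⊆ I → j ∉ E → |F E - F (insert j E)| ≤ δ) (hδ : 0 ≤ δ) :
    |∑ E ∈ I.powerset, (-1 : ℝ) ^ E.card * F E| ≤ 2 ^ (m + 2) * δ := by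
  classical
  have h1 : I = insert j (I.erase j) := (insert_erase hj).symm
  have h2 : ∑ E ∈ I.powerset, (-1 : ℝ) ^ E.card * F E =
      ∑ E ∈ (I.erase j).powerset, (-1 : ℝ) ^ E.card * (F E - F (insert j E)) := by
    conv_lhs => rw [h1]
    rw [sum_powerset_insert (notMem_erase j I), ← sum_add_distrib]
    refine sum_congr rfl fun E hE => ?_
    have hjE : j ∉ E := fun h => notMem_erase j I (mem_powerset.1 hE h)
    rw [card_insert_of_notMem hjE]
    ring
  rw [h2]
  refine (abs_sum_le_sum_abs _ _).trans ?_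
  have h3 : ∀ E ∈ (I.erase j).powerset, |(-1 : ℝ) ^ E.card * (F E - F (insert j E))| ≤ δ := by
    intro E hE
    rw [mem_powerset] at hE
    rw [abs_mul, abs_pow, abs_neg, abs_one, one_pow, one_mul]
    exact h E (hE.trans (erase_subset _ _)) fun h => notMem_erase j I (hE h)
  refine (sum_le_card_nsmul _ _ _ h3).trans ?_
  rw [nsmul_eq_mul, card_powerset]
  apply mul_le_mul_of_nonneg_right _ hδ
  push_cast
  apply pow_le_pow_right₀ (by norm_num)
  refine (card_le_univ _).trans ?_
  simp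

end

end Pool.Agent.J4.H60.GQ
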