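import Pool.Agent.J4.H60.GQ.A2

/-! Project GQ (helper22), piece ISO (helper60): estimates for the words -/

set_option autoImplicit false
set_option linter.all false

namespace Pool.Agent.J4.H60.GQ

open Finset Pool.Agent.J4.H22.GQ

noncomputable section

/-- the conditions on the fixed factors -/
structure Da {m : ℕ} (Ω P : Finset ℕ) (I : Finset (Fin (m + 2))) (s s' : Fin (m + 2) → ℕ) (ωa ωc : ℕ) : Prop where
  two : 2 ∈ P
  a0 : ωa ≠ 0
  c0 : ωc ≠ 0
  aP : ∀ p : ℕ, p.Prime → p ∣ ωa → p ∈ P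
  cP : ∀ p : ℕ, p.Prime → p ∣ ωc → p ∈ P
  al : ωa.primeFactorsList.length ≤ Ω.card
  cl : ωc.primeFactorsList.length ≤ Ω.card
  sP : ∀ i ∈ I, ∀ p : ℕ, p.Prime → p ∣ s i * s' i → p ∈ P
  s0 : ∀ i ∈ I, s i ≠ 0 ∧ s' i ≠ 0
  sl : ∀ i ∈ I, (s i).primeFactorsList.length ≤ 3 ∧ (s' i).primeFactorsList.length ≤ 3

/-- the places of `u` -/
def Jt {m : ℕ} {n : Fin 3 → ℕ} (τ : Fin (m + 2) → PP m n) : Finset (Fin (m + 2)) := univ.filter (fun i => τ i = Sum.inl 0)

lemma cb_s {m : ℕ} {Ω P : Finset ℕ} {I : Finset (Fin (m + 2))} {s s' : Fin (m + 2) → ℕ} {ωa ωc : ℕ}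
    (h : Da Ω P I s s' ωa ωc) (X : ℝ) (e u : W) (i : Fin (m + 2)) (hi : i ∈ I) :
    Cb (dd X e u '' (P : Set ℕ)) 3 (dd X e u (s i)) ∧ Cb (dd X e u '' (P : Set ℕ)) 3 (dd X e u (s' i)) := by
  constructor
  · refine cb_mono (cb_dd X e u P (s i) (h.s0 i hi).1 fun p hp hpd => h.sP i hi p hp (hpd.mul_right _)) ?_
    exact_mod_cast (h.sl i hi).1
  · refine cb_mono (cb_dd X e u P (s' i) (h.s0 i hi).2 fun p hp hpd => h.sP i hi p hp (hpd.mul_left _)) ?_
    exact_mod_cast (h.sl i hi).2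

lemma vec_cb {m : ℕ} {n : Fin 3 → ℕ} {Ω P : Finset ℕ} {I : Finset (Fin (m + 2))} {s s' : Fin (m + 2) → ℕ} {ωa ωc : ℕ}
    (h : Da Ω P I s s' ωa ωc) (X : ℝ) (e u : W) (E : Finset (Fin (m + 2))) (x : Ct n) (hx : ∀ g l, x g l ∈ P)
    (κ : PP m n) (hκ : κ ≠ Sum.inl 0) :
    Cb (dd X e u '' (P : Set ℕ)) ((Ω.card : ℝ) + 3) (vec X e u ωa ωc I s s' E x κ) := by
  have hΩ : (0 : ℝ) ≤ Ω.card := Nat.cast_nonneg _
  rcases κ with κ | κ | κ
  · fin_cases κ
    · exact absurd rfl hκ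
    · show Cb _ _ (dd X e u ωa)
      refine cb_mono (cb_dd X e u P ωa h.a0 h.aP) ?_
      have : (ωa.primeFactorsList.length : ℝ) ≤ Ω.card := by exact_mod_cast h.al
      linarith
    · show Cb _ _ (dd X e u ωc)
      refine cb_mono (cb_dd X e u P ωc h.c0 h.cP) ?_
      have : (ωc.primeFactorsList.length : ℝ) ≤ Ω.card := by exact_mod_cast h.cl
      linarith
  · show Cb _ _ (if κ ∈ I then dd X e u (ch E s s' κ) else 0)
    split_ifs with hκI
    · unfold ch
      split_ifs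
      · exact cb_mono (cb_s h X e u κ hκI).2 (by linarith)
      · exact cb_mono (cb_s h X e u κ hκI).1 (by linarith)
    · exact cb_mono (cb_zero _) (by linarith)
  · show Cb _ _ (dd X e u (x κ.1 κ.2))
    exact cb_mono (cb_self ⟨_, by exact_mod_cast hx κ.1 κ.2, rfl⟩) (by linarith)

lemma word_bd (hBND : S_BND) {m : ℕ} {n : Fin 3 → ℕ} {Ω P : Finset ℕ} {I : Finset (Fin (m + 2))} {s s' : Fin (m + 2) → ℕ}
    {ωa ωc : ℕ} (h : Da Ω P I s s' ωa ωc) {Φ : ML m} {X : ℝ} {e u : W} (E : Finset (Fin (m + 2))) (x : Ct n)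
    (hx : ∀ g l, x g l ∈ P) (τ : Fin (m + 2) → PP m n) (β : ℝ) (hβ : 0 ≤ β)
    (hN : ∀ p : Fin (m + 2) → ℕ, (∀ i, p i ∈ P) → |Φ (Ta X e u (Jt τ) p)| ≤ β) :
    |Φ (fun i => vec X e u ωa ωc I s s' E x (τ i))| ≤ β * ((Ω.card : ℝ) + 3) ^ (m + 2) := by
  have hΩ : (0 : ℝ) ≤ Ω.card := Nat.cast_nonneg _
  refine bT hBND Φ h.two (Jt τ) β hβ hN _ (by linarith) _ ?_ ?_
  · intro i hi
    have : τ i = Sum.inl 0 := (mem_filter.1 hi).2
    rw [this]
    rfl
  · intro i hi
    refine vec_cb h X e u E x hx (τ i) fun h0 => hi ?_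
    exact mem_filter.2 ⟨mem_univ _, h0⟩

/-- the relation with `log 2` in place of the logarithms -/
lemma rel_bd (hBND : S_BND) {m : ℕ} {n : Fin 3 → ℕ} {Ω P : Finset ℕ} {I Cc : Finset (Fin (m + 2))} {s s' : Fin (m + 2) → ℕ}
    {ωa ωc : ℕ} (h : Da Ω P I s s' ωa ωc) (hCI : Cc ⊆ I) {Φ : ML m} (hRl : Rl Φ) {X : ℝ} {e u : W} (N : ℝ) (hN0 : 0 ≤ N)
    (hN : ∀ (J : Finset (Fin (m + 2))) (p : Fin (m + 2) → ℕ), (∀ i, p i ∈ P) → |Φ (Ta X e u J p)| ≤ N)
    (E : Finset (Fin (m + 2))) (x : Ct n) (hx : ∀ g l, x g l ∈ P) (hx0 : ∀ g l, x g l ≠ 0) (ε : ℝ) (hε0 : 0 ≤ ε) (hε1 : ε ≤ 1)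
    (a b c : ℕ) (ha : a = ωa * (∏ i ∈ I \ Cc, ch E s s' i) * ∏ l, x 0 l) (hb : b = ∏ l, x 1 l)
    (hc : c = ωc * (∏ i ∈ Cc, ch E s s' i) * ∏ l, x 2 l) (habc : a + b = c) (h1 : cS X a = cS X c) (h2 : cS X b = cS X c)
    (h3 : |Real.log a - Real.log c + Real.log 2| ≤ ε) (h4 : |Real.log b - Real.log c + Real.log 2| ≤ ε) :
    |Φ (fun i => ∑ κ : PP m n, cf I Cc i κ • vec X e u ωa ωc I s s' E x κ)| ≤
      ε * (2 ^ (m + 2) * ((Fintype.card (PP m n) : ℝ) * ((Ω.card : ℝ) + 3) + 1) ^ (m + 2)) * N := by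
  classical
  have hΩ : (0 : ℝ) ≤ Ω.card := Nat.cast_nonneg _
  have hch : ∀ i ∈ I, ch E s s' i ≠ 0 := by
    intro i hi
    unfold ch
    split_ifs
    · exact (h.s0 i hi).2
    · exact (h.s0 i hi).1
  have hex := expand X e u ωa ωc I Cc hCI s s' E x h.a0 h.c0 hch hx0
  rw [← ha, ← hb, ← hc] at hex
  obtain ⟨LL, hLL⟩ : ∃ LL : ℝ, LL = (Fintype.card (PP m n) : ℝ) * ((Ω.card : ℝ) + 3) := ⟨_, rfl⟩
  rw [← hLL]
  have hLL0 : 0 ≤ LL := by rw [hLL]; positivity
  obtain ⟨V, hV⟩ : ∃ V : Set W, V = insert u (dd X e u '' (P : Set ℕ)) := ⟨_, rfl⟩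
  obtain ⟨ρ, hρ⟩ : ∃ ρ : Fin (m + 2) → ℝ, ρ = fun i => if i = 0 then Real.log b - Real.log c + Real.log 2 else
    Real.log a - Real.log c + Real.log 2 := ⟨_, rfl⟩
  have hρb : ∀ i, |ρ i| ≤ ε := by
    intro i
    rw [hρ]
    by_cases hi : i = 0 <;> simp only [hi, if_true, if_false] <;> assumption
  obtain ⟨y, hy⟩ : ∃ y : Fin (m + 2) → W, y = (Fin.cons (vc b - vc c) (fun _ => vc a - vc c) : Fin (m + 2) → W) := ⟨_, rfl⟩
  have hy0 : Φ y = 0 := by
    rw [hy]
    have ha0 : 0 < a := by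
      rw [ha]
      exact Nat.pos_of_ne_zero (mul_ne_zero (mul_ne_zero h.a0 (prod_ne_zero_iff.2 fun j hj => hch j (mem_sdiff.1 hj).1))
        (prod_ne_zero_iff.2 fun l _ => hx0 0 l))
    have hb0 : 0 < b := by
      rw [hb]
      exact Nat.pos_of_ne_zero (prod_ne_zero_iff.2 fun l _ => hx0 1 l)
    exact hRl a b c ha0 hb0 habc
  have hyi : ∀ i, ∑ κ : PP m n, cf I Cc i κ • vec X e u ωa ωc I s s' E x κ = y i + (-ρ i) • u := by
    intro i
    rw [hex i, hy, hρ]
    refine Fin.cases ?_ (fun j => ?_) i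
    · simp only [if_true, Fin.cons_zero]
      unfold dd
      rw [h2]
      module
    · simp only [Fin.succ_ne_zero, if_false, Fin.cons_succ]
      unfold dd
      rw [h1]
      module
  have hfun : (fun i => ∑ κ : PP m n, cf I Cc i κ • vec X e u ωa ωc I s s' E x κ) = y + fun i => (-ρ i) • u := by
    funext i
    rw [hyi i]
    rfl
  have hcbu : Cb V 1 u := cb_self (by rw [hV]; exact Set.mem_insert _ _)
  have hcy : ∀ i, Cb V (LL + 1) (y i) := by
    intro i
    have e1 : y i = ∑ κ : PP m n, cf I Cc i κ • vec X e u ωa ωc I s s' E x κ + ρ i • u := by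
      rw [hyi i]
      module
    rw [e1]
    refine cb_add ?_ ?_
    · rw [hLL]
      have h5 := cb_sum (univ : Finset (PP m n)) (fun κ => cf I Cc i κ) (fun κ => vec X e u ωa ωc I s s' E x κ) V
        ((Ω.card : ℝ) + 3) (by linarith) (fun κ _ => cf_le I Cc i κ) (fun κ _ => by
          by_cases hκ : κ = Sum.inl 0
          · rw [hκ]
            exact cb_mono hcbu (by linarith)
          · exact cb_mono_set (vec_cb h X e u E x hx κ hκ) (by rw [hV]; exact Set.subset_insert _ _))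
      exact h5
    · have h6 := cb_smul (ρ i) hcbu
      refine cb_mono h6 ?_
      rw [mul_one]
      exact (hρb i).trans hε1
  have hcz : ∀ i, Cb V ε ((-ρ i) • u) := by
    intro i
    refine cb_mono (cb_smul (-ρ i) hcbu) ?_
    rw [mul_one, abs_neg]
    exact hρb i
  have hVN : ∀ v : Fin (m + 2) → W, (∀ i, v i ∈ V) → |Φ v| ≤ N := by
    intro v hv
    have h5 : ∀ i, ∃ q ∈ P, v i ≠ u → dd X e u q = v i := by
      intro i
      by_cases hi : v i = u
      · exact ⟨2, h.two, fun h => absurd hi h⟩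
      · have h6 := hv i
        rw [hV] at h6
        rcases h6 with h6 | ⟨q, hq, hq2⟩
        · exact absurd h6 hi
        · exact ⟨q, by exact_mod_cast hq, fun _ => hq2⟩
    choose p hp hp2 using h5
    have h7 : v = Ta X e u (univ.filter (fun i => v i = u)) p := by
      funext i
      unfold Ta
      split_ifs with hi
      · exact (mem_filter.1 hi).2
      · exact (hp2 i fun h => hi (mem_filter.2 ⟨mem_univ _, h⟩)).symm
    rw [h7]
    exact hN _ p hp
  rw [hfun, MultilinearMap.map_add_univ]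
  refine (abs_sum_le_sum_abs _ _).trans ?_
  have hterm : ∀ t ∈ (univ : Finset (Finset (Fin (m + 2)))), |Φ (t.piecewise y (fun i => (-ρ i) • u))| ≤ ε * (LL + 1) ^ (m + 2) * N := by
    intro t _
    by_cases ht : t = univ
    · rw [ht, piecewise_univ, hy0, abs_zero]
      positivity
    · obtain ⟨i0, hi0⟩ : ∃ i0, i0 ∉ t := by
        by_contra hne
        push Not at hne
        exact ht (eq_univ_iff_forall.2 hne)
      have h8 := hBND m Φ (fun _ => V) N hN0 hVN (fun i => if i ∈ t then LL + 1 else ε)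
        (t.piecewise y (fun i => (-ρ i) • u)) ?_
      · refine h8.trans ?_
        have h9 : ∏ i, (if i ∈ t then LL + 1 else ε) ≤ ε * (LL + 1) ^ (m + 2) := by
          rw [← mul_prod_erase univ _ (mem_univ i0), if_neg hi0]
          apply mul_le_mul_of_nonneg_left _ hε0
          calc ∏ i ∈ univ.erase i0, (if i ∈ t then LL + 1 else ε) ≤ ∏ i ∈ univ.erase i0, (LL + 1) := by
                apply prod_le_prod
                · intro i _
                  split_ifs <;> linarith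
                · intro i _
                  split_ifs <;> linarith
            _ ≤ (LL + 1) ^ (m + 2) := by
                rw [prod_const]
                apply pow_le_pow_right₀ (by linarith)
                refine (card_le_univ _).trans ?_
                simp
        calc N * ∏ i, (if i ∈ t then LL + 1 else ε) ≤ N * (ε * (LL + 1) ^ (m + 2)) := mul_le_mul_of_nonneg_left h9 hN0
          _ = _ := by ring
      · intro i
        by_cases hi : i ∈ t
        · rw [piecewise_eq_of_mem _ _ _ hi]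
          simp only [hi, if_true]
          exact hcy i
        · rw [piecewise_eq_of_notMem _ _ _ hi]
          simp only [hi, if_false]
          exact hcz i
  refine (sum_le_card_nsmul _ _ _ hterm).trans (le_of_eq ?_)
  rw [nsmul_eq_mul]
  simp
  ring

end

end Pool.Agent.J4.H60.GQ
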