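import Pool.Agent.J4.H60.GQ.A3

/-! Project GQ (helper22), piece ISO (helper60): the sums over the solutions -/

set_option autoImplicit false
set_option linter.all false

namespace Pool.Agent.J4.H60.GQ

open Finset Pool.Agent.J4.H22.GQ

noncomputable section

/-- the sum for one word -/
def Aw {m : ℕ} {n : Fin 3 → ℕ} (Φ : ML m) (X : ℝ) (e u : W) (ωa ωc : ℕ) (I : Finset (Fin (m + 2))) (s s' : Fin (m + 2) → ℕ)
    (S : Finset (Fin (m + 2)) → Finset (Ct n)) (τ : Fin (m + 2) → PP m n) : ℝ :=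
  ∑ E ∈ I.powerset, (-1 : ℝ) ^ E.card * ∑ x ∈ S E, Φ (fun i => vec X e u ωa ωc I s s' E x (τ i))

/-- the properties of the sets of solutions -/
structure Ds {m : ℕ} {n : Fin 3 → ℕ} (I : Finset (Fin (m + 2))) (Q : Finset ℕ) (S : Finset (Fin (m + 2)) → Finset (Ct n))
    (ε : ℝ) : Prop where
  ne : (S ∅).Nonempty
  mem : ∀ E, E ⊆ I → ∀ x ∈ S E, ∀ g i, x g i ∈ Q
  tr : ∀ E, E ⊆ I → ∀ T : Finset ((g : Fin 3) × Fin (n g)), T.card ≤ m + 2 → ∀ f : Ct n → ℝ,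
      (∀ x : Ct n, (∀ g i, x g i ∈ Q) → |f x| ≤ 1) →
      (∀ x y : Ct n, (∀ s ∈ T, x s.1 s.2 = y s.1 s.2) → f x = f y) →
      |∑ x ∈ S E, f x - ∑ x ∈ S ∅, f x| ≤ ε * (S ∅).card

lemma tr_scaled {m : ℕ} {n : Fin 3 → ℕ} {I : Finset (Fin (m + 2))} {Q : Finset ℕ}
    {S : Finset (Fin (m + 2)) → Finset (Ct n)} {ε : ℝ} (h : Ds I Q S ε) (E : Finset (Fin (m + 2))) (hE : E ⊆ I)
    (T : Finset ((g : Fin 3) × Fin (n g))) (hT : T.card ≤ m + 2) (f : Ct n → ℝ) (β : ℝ) (hβ : 0 ≤ β)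
    (hf : ∀ x : Ct n, (∀ g i, x g i ∈ Q) → |f x| ≤ β)
    (hf2 : ∀ x y : Ct n, (∀ s ∈ T, x s.1 s.2 = y s.1 s.2) → f x = f y) :
    |∑ x ∈ S E, f x - ∑ x ∈ S ∅, f x| ≤ ε * β * (S ∅).card := by
  rcases hβ.eq_or_lt with h0 | h0
  · have h1 : ∀ E', E' ⊆ I → ∑ x ∈ S E', f x = 0 := by
      intro E' hE'
      refine sum_eq_zero fun x hx => ?_
      have := hf x (h.mem E' hE' x hx)
      rw [← h0] at this
      exact abs_nonpos_iff.1 this
    rw [h1 E hE, h1 ∅ (empty_subset _), ← h0]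
    simp
  · have h1 := h.tr E hE T hT (fun x => β⁻¹ * f x) ?_ ?_
    · rw [← mul_sum, ← mul_sum, ← mul_sub, abs_mul, abs_of_pos (inv_pos.2 h0), inv_mul_le_iff₀ h0] at h1
      refine h1.trans (le_of_eq ?_)
      ring
    · intro x hx
      rw [abs_mul, abs_of_pos (inv_pos.2 h0), inv_mul_le_iff₀ h0, mul_one]
      exact hf x hx
    · intro x y hxy
      rw [hf2 x y hxy]

lemma card_tr {m : ℕ} {n : Fin 3 → ℕ} {I : Finset (Fin (m + 2))} {Q : Finset ℕ}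
    {S : Finset (Fin (m + 2)) → Finset (Ct n)} {ε : ℝ} (h : Ds I Q S ε) (E : Finset (Fin (m + 2))) (hE : E ⊆ I) :
    |((S E).card : ℝ) - (S ∅).card| ≤ ε * (S ∅).card := by
  have h1 := h.tr E hE ∅ (by simp) (fun _ => 1) (by intros; simp) (by intros; rfl)
  simpa using h1

lemma card_le2 {m : ℕ} {n : Fin 3 → ℕ} {I : Finset (Fin (m + 2))} {Q : Finset ℕ}
    {S : Finset (Fin (m + 2)) → Finset (Ct n)} {ε : ℝ} (h : Ds I Q S ε) (hε : ε ≤ 1) (E : Finset (Fin (m + 2))) (hE : E ⊆ I) :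
    ((S E).card : ℝ) ≤ 2 * (S ∅).card := by
  have h1 := (abs_le.1 (card_tr h E hE)).2
  have h2 : ε * ((S ∅).card : ℝ) ≤ 1 * (S ∅).card := mul_le_mul_of_nonneg_right hε (Nat.cast_nonneg _)
  linarith

/-- the visited slots -/
def Ts {m : ℕ} {n : Fin 3 → ℕ} (τ : Fin (m + 2) → PP m n) : Finset ((g : Fin 3) × Fin (n g)) :=
  univ.filter (fun t => ∃ i, τ i = Sum.inr (Sum.inr t))

lemma Ts_card {m : ℕ} {n : Fin 3 → ℕ} (τ : Fin (m + 2) → PP m n) : (Ts τ).card ≤ m + 2 := by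
  classical
  have h1 : ∀ t : (g : Fin 3) × Fin (n g), ∃ i, t ∈ Ts τ → τ i = Sum.inr (Sum.inr t) := by
    intro t
    by_cases ht : t ∈ Ts τ
    · obtain ⟨i, hi⟩ := (mem_filter.1 ht).2
      exact ⟨i, fun _ => hi⟩
    · exact ⟨0, fun h => absurd h ht⟩
  choose f hf using h1
  have h2 := card_le_card_of_injOn (s := Ts τ) (t := (univ : Finset (Fin (m + 2)))) f (fun t _ => mem_univ _) ?_
  · simpa using h2
  · intro a ha b hb hab
    have ha' := hf a ha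
    have hb' := hf b hb
    rw [hab, hb'] at ha'
    simpa using ha'.symm

lemma vec_congr {m : ℕ} {n : Fin 3 → ℕ} (X : ℝ) (e u : W) (ωa ωc : ℕ) (I : Finset (Fin (m + 2))) (s s' : Fin (m + 2) → ℕ)
    (E : Finset (Fin (m + 2))) (τ : Fin (m + 2) → PP m n) (x y : Ct n) (h : ∀ t ∈ Ts τ, x t.1 t.2 = y t.1 t.2)
    (i : Fin (m + 2)) : vec X e u ωa ωc I s s' E x (τ i) = vec X e u ωa ωc I s s' E y (τ i) := by
  rcases hi : τ i with κ | κ | κ
  · rfl
  · rfl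
  · show dd X e u (x κ.1 κ.2) = dd X e u (y κ.1 κ.2)
    rw [h κ (mem_filter.2 ⟨mem_univ _, i, hi⟩)]

lemma powcard {m : ℕ} (I : Finset (Fin (m + 2))) : ((I.powerset).card : ℝ) ≤ 2 ^ (m + 2) := by
  rw [card_powerset]
  push_cast
  apply pow_le_pow_right₀ (by norm_num)
  refine (card_le_univ _).trans ?_
  simp

lemma Aw_crude {m : ℕ} {n : Fin 3 → ℕ} {Φ : ML m} {X : ℝ} {e u : W} {ωa ωc : ℕ} {I : Finset (Fin (m + 2))}
    {s s' : Fin (m + 2) → ℕ} {Q : Finset ℕ} {S : Finset (Fin (m + 2)) → Finset (Ct n)} {ε : ℝ} (h : Ds I Q S ε) (hε : ε ≤ 1)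
    (τ : Fin (m + 2) → PP m n) (B : ℝ) (hB : 0 ≤ B)
    (hb : ∀ (E : Finset (Fin (m + 2))) (x : Ct n), (∀ g i, x g i ∈ Q) → |Φ (fun i => vec X e u ωa ωc I s s' E x (τ i))| ≤ B) :
    |Aw Φ X e u ωa ωc I s s' S τ| ≤ 2 ^ (m + 2) * (2 * (S ∅).card * B) := by
  unfold Aw
  refine (abs_sum_le_sum_abs _ _).trans ?_
  have h1 : ∀ E ∈ I.powerset, |(-1 : ℝ) ^ E.card * ∑ x ∈ S E, Φ (fun i => vec X e u ωa ωc I s s' E x (τ i))| ≤
      2 * (S ∅).card * B := by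
    intro E hE
    rw [abs_mul, abs_pow, abs_neg, abs_one, one_pow, one_mul]
    refine (abs_sum_le_sum_abs _ _).trans ?_
    refine (sum_le_card_nsmul _ _ B fun x hx => hb E x (h.mem E (mem_powerset.1 hE) x hx)).trans ?_
    rw [nsmul_eq_mul]
    exact mul_le_mul_of_nonneg_right (card_le2 h hε E (mem_powerset.1 hE)) hB
  refine (sum_le_card_nsmul _ _ _ h1).trans ?_
  rw [nsmul_eq_mul]
  exact mul_le_mul_of_nonneg_right (powcard I) (by positivity)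

lemma Aw_miss {m : ℕ} {n : Fin 3 → ℕ} {Φ : ML m} {X : ℝ} {e u : W} {ωa ωc : ℕ} {I : Finset (Fin (m + 2))}
    {s s' : Fin (m + 2) → ℕ} {Q : Finset ℕ} {S : Finset (Fin (m + 2)) → Finset (Ct n)} {ε : ℝ} (h : Ds I Q S ε) (hε0 : 0 ≤ ε)
    (τ : Fin (m + 2) → PP m n) (B : ℝ) (hB : 0 ≤ B)
    (hb : ∀ (E : Finset (Fin (m + 2))) (x : Ct n), (∀ g i, x g i ∈ Q) → |Φ (fun i => vec X e u ωa ωc I s s' E x (τ i))| ≤ B)
    (j : Fin (m + 2)) (hj : j ∈ I) (hτ : ∀ i, τ i ≠ Sum.inr (Sum.inl j)) :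
    |Aw Φ X e u ωa ωc I s s' S τ| ≤ 2 ^ (m + 2) * (2 * ε * B * (S ∅).card) := by
  classical
  unfold Aw
  apply alt_small I j hj _ _ _ (by positivity)
  intro E hE hjE
  have hE2 : insert j E ⊆ I := insert_subset hj hE
  have h1 : ∀ x : Ct n, Φ (fun i => vec X e u ωa ωc I s s' (insert j E) x (τ i)) =
      Φ (fun i => vec X e u ωa ωc I s s' E x (τ i)) := by
    intro x
    congr 1
    funext i
    rcases hi : τ i with κ | κ | κ
    · rfl
    · have hκ : κ ≠ j := fun h0 => hτ i (by rw [hi, h0])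
      show (if κ ∈ I then dd X e u (ch (insert j E) s s' κ) else 0) = (if κ ∈ I then dd X e u (ch E s s' κ) else 0)
      have h2 : ch (insert j E) s s' κ = ch E s s' κ := by
        unfold ch
        simp [hκ]
      rw [h2]
    · rfl
  simp only [h1]
  have h2 := tr_scaled h E hE (Ts τ) (Ts_card τ) (fun x => Φ (fun i => vec X e u ωa ωc I s s' E x (τ i))) B hB
    (fun x hx => hb E x hx) (fun x y hxy => by
      congr 1
      funext i
      exact vec_congr X e u ωa ωc I s s' E τ x y hxy i)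
  have h3 := tr_scaled h (insert j E) hE2 (Ts τ) (Ts_card τ) (fun x => Φ (fun i => vec X e u ωa ωc I s s' E x (τ i))) B hB
    (fun x hx => hb E x hx) (fun x y hxy => by
      congr 1
      funext i
      exact vec_congr X e u ωa ωc I s s' E τ x y hxy i)
  rw [abs_le] at h2 h3 ⊢
  constructor <;> linarith [h2.1, h2.2, h3.1, h3.2]

lemma Aw_th {m : ℕ} {n : Fin 3 → ℕ} {Φ : ML m} {X : ℝ} {e u : W} {ωa ωc : ℕ} {J0 : Finset (Fin (m + 2))}
    {s s' : Fin (m + 2) → ℕ} {Q : Finset ℕ} {S : Finset (Fin (m + 2)) → Finset (Ct n)} {ε : ℝ} (h : Ds J0ᶜ Q S ε) (hε0 : 0 ≤ ε)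
    (π : Equiv.Perm (Fin (m + 2))) (B : ℝ) (hB : 0 ≤ B)
    (hb : ∀ (E : Finset (Fin (m + 2))) (x : Ct n), (∀ g i, x g i ∈ Q) →
      |Φ (fun i => vec X e u ωa ωc J0ᶜ s s' E x ((spx J0 ∘ π : Fin (m + 2) → PP m n) i))| ≤ B) :
    |Aw Φ X e u ωa ωc J0ᶜ s s' S (spx J0 ∘ π) - (S ∅).card * Φ (Tp X e u J0 s s' ∘ π)| ≤
      2 ^ (m + 2) * (ε * B * (S ∅).card) := by
  classical
  obtain ⟨Ψ, hΨ⟩ : ∃ Ψ : ML m, Ψ = MultilinearMap.domDomCongr π Φ := ⟨_, rfl⟩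
  have hΨa : ∀ v : Fin (m + 2) → W, Ψ v = Φ (fun i => v (π i)) := by
    intro v
    rw [hΨ]
    rfl
  have h1 : ∀ (E : Finset (Fin (m + 2))) (x : Ct n),
      Φ (fun i => vec X e u ωa ωc J0ᶜ s s' E x ((spx J0 ∘ π : Fin (m + 2) → PP m n) i)) =
      Ψ (fun j => if j ∈ J0 then u else if j ∈ E then dd X e u (s' j) else dd X e u (s j)) := by
    intro E x
    rw [hΨa]
    congr 1
    funext i
    rw [Function.comp_apply]
    by_cases hi : π i ∈ J0
    · rw [spx_in hi, if_pos hi]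
      rfl
    · rw [spx_out hi, if_neg hi]
      show (if π i ∈ J0ᶜ then dd X e u (ch E s s' (π i)) else 0) = _
      rw [if_pos (by simpa using hi)]
      unfold ch
      split_ifs <;> rfl
  obtain ⟨x0, hx0⟩ := h.ne
  have hx0' := h.mem ∅ (empty_subset _) x0 hx0
  have h2 := alt_sum Ψ J0 (fun _ => u) (fun j => dd X e u (s j)) (fun j => dd X e u (s' j))
  have h3 : Φ (Tp X e u J0 s s' ∘ π) = Ψ (fun j => if j ∈ J0 then u else dd X e u (s j) - dd X e u (s' j)) := by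
    rw [hΨa]
    rfl
  rw [h3, ← h2, mul_sum]
  unfold Aw
  simp only [h1, sum_const, nsmul_eq_mul]
  rw [← sum_sub_distrib]
  refine (abs_sum_le_sum_abs _ _).trans ?_
  have h4 : ∀ E ∈ (J0ᶜ).powerset, |(-1 : ℝ) ^ E.card * (((S E).card : ℝ) *
      Ψ (fun j => if j ∈ J0 then u else if j ∈ E then dd X e u (s' j) else dd X e u (s j))) -
      (S ∅).card * ((-1 : ℝ) ^ E.card * Ψ (fun j => if j ∈ J0 then u else if j ∈ E then dd X e u (s' j) else dd X e u (s j)))| ≤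
      ε * B * (S ∅).card := by
    intro E hE
    have h5 := card_tr h E (mem_powerset.1 hE)
    have h6 := hb E x0 hx0'
    rw [h1] at h6
    have h7 : (-1 : ℝ) ^ E.card * (((S E).card : ℝ) *
      Ψ (fun j => if j ∈ J0 then u else if j ∈ E then dd X e u (s' j) else dd X e u (s j))) -
      (S ∅).card * ((-1 : ℝ) ^ E.card * Ψ (fun j => if j ∈ J0 then u else if j ∈ E then dd X e u (s' j) else dd X e u (s j))) =
      (-1 : ℝ) ^ E.card * ((((S E).card : ℝ) - (S ∅).card) *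
        Ψ (fun j => if j ∈ J0 then u else if j ∈ E then dd X e u (s' j) else dd X e u (s j))) := by ring
    rw [h7, abs_mul, abs_pow, abs_neg, abs_one, one_pow, one_mul, abs_mul]
    calc |((S E).card : ℝ) - (S ∅).card| * |Ψ (fun j => if j ∈ J0 then u else if j ∈ E then dd X e u (s' j) else dd X e u (s j))|
        ≤ (ε * (S ∅).card) * B := mul_le_mul h5 h6 (abs_nonneg _) (by positivity)
      _ = _ := by ring
  refine (sum_le_card_nsmul _ _ _ h4).trans ?_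
  rw [nsmul_eq_mul]
  exact mul_le_mul_of_nonneg_right (powcard _) (by positivity)

lemma total {m : ℕ} {n : Fin 3 → ℕ} (Φ : ML m) (X : ℝ) (e u : W) (ωa ωc : ℕ) (I Cc : Finset (Fin (m + 2)))
    (s s' : Fin (m + 2) → ℕ) (S : Finset (Fin (m + 2)) → Finset (Ct n)) :
    ∑ τ : Fin (m + 2) → PP m n, (∏ i, cf I Cc i (τ i)) * Aw Φ X e u ωa ωc I s s' S τ =
      ∑ E ∈ I.powerset, (-1 : ℝ) ^ E.card * ∑ x ∈ S E,
        Φ (fun i => ∑ κ : PP m n, cf I Cc i κ • vec X e u ωa ωc I s s' E x κ) := by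
  classical
  have h1 : ∀ (E : Finset (Fin (m + 2))) (x : Ct n),
      Φ (fun i => ∑ κ : PP m n, cf I Cc i κ • vec X e u ωa ωc I s s' E x κ) =
      ∑ τ : Fin (m + 2) → PP m n, (∏ i, cf I Cc i (τ i)) * Φ (fun i => vec X e u ωa ωc I s s' E x (τ i)) := by
    intro E x
    rw [MultilinearMap.map_sum]
    refine sum_congr rfl fun τ _ => ?_
    rw [MultilinearMap.map_smul_univ, smul_eq_mul]
  unfold Aw
  simp only [h1]
  simp_rw [mul_sum]
  rw [sum_comm]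
  refine sum_congr rfl fun E _ => ?_
  rw [sum_comm]
  refine sum_congr rfl fun x _ => ?_
  refine sum_congr rfl fun τ _ => ?_
  ring

end

end Pool.Agent.J4.H60.GQ
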