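import Pool.Agent.J4.H60.GQ.A4

/-! Project GQ (helper22), piece ISO (helper60): the main inequality -/

set_option autoImplicit false
set_option linter.all false

namespace Pool.Agent.J4.H60.GQ

open Finset Pool.Agent.J4.H22.GQ

noncomputable section

/-- the differences -/
def vD {m : ℕ} {n : Fin 3 → ℕ} (X : ℝ) (e u : W) (s s' : Fin (m + 2) → ℕ) : PP m n → W :=
  Sum.elim ![u, 0, 0] (Sum.elim (fun j => dd X e u (s j) - dd X e u (s' j)) (fun _ => 0))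

lemma vD_spx {m : ℕ} {n : Fin 3 → ℕ} (X : ℝ) (e u : W) (s s' : Fin (m + 2) → ℕ) (J0 : Finset (Fin (m + 2)))
    (π : Equiv.Perm (Fin (m + 2))) :
    (fun i => vD X e u s s' ((spx J0 ∘ π : Fin (m + 2) → PP m n) i)) = Tp X e u J0 s s' ∘ π := by
  funext i
  rw [Function.comp_apply, Function.comp_apply]
  unfold Tp
  by_cases hi : π i ∈ J0
  · rw [spx_in hi, if_pos hi]
    rfl
  · rw [spx_out hi, if_neg hi]
    rfl

open Classical in
/-- **the main inequality** -/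
lemma core (hBND : S_BND) {m : ℕ} {n : Fin 3 → ℕ} {Ω P Q : Finset ℕ} {J0 Cc : Finset (Fin (m + 2))} {s s' : Fin (m + 2) → ℕ}
    {ωa ωc : ℕ} (hD : Da Ω P J0ᶜ s s' ωa ωc) (hCI : Cc ⊆ J0ᶜ) (hQP : Q ⊆ P) (hQ0 : 0 ∉ Q) {Φ : ML m} (hRl : Rl Φ) {X : ℝ} {e u : W}
    (N b : ℝ) (hN0 : 0 ≤ N) (hb0 : 0 ≤ b)
    (hN : ∀ (J : Finset (Fin (m + 2))) (p : Fin (m + 2) → ℕ), (∀ i, p i ∈ P) → |Φ (Ta X e u J p)| ≤ N)
    (hb : ∀ (J : Finset (Fin (m + 2))) (p : Fin (m + 2) → ℕ), J.card < J0.card → (∀ i, p i ∈ P) → |Φ (Ta X e u J p)| ≤ b)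
    {S : Finset (Fin (m + 2)) → Finset (Ct n)} {ε : ℝ} (hε0 : 0 ≤ ε) (hε1 : ε ≤ 1) (hS : Ds J0ᶜ Q S ε)
    (hrel : ∀ E, E ⊆ J0ᶜ → ∀ x ∈ S E, ∃ a b c : ℕ,
      a = ωa * (∏ i ∈ J0ᶜ \ Cc, ch E s s' i) * ∏ l, x 0 l ∧ b = ∏ l, x 1 l ∧
      c = ωc * (∏ i ∈ Cc, ch E s s' i) * ∏ l, x 2 l ∧ a + b = c ∧ cS X a = cS X c ∧ cS X b = cS X c ∧
      |Real.log a - Real.log c + Real.log 2| ≤ ε ∧ |Real.log b - Real.log c + Real.log 2| ≤ ε) (q : ℝ)
    (hq : (Fintype.card (PP m n) : ℝ) ≤ q) :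
    |∑ τ ∈ univ.filter (fun τ : Fin (m + 2) → PP m n => Th n J0 τ),
      (∏ i, cf J0ᶜ Cc i (τ i)) * Φ (fun i => vD X e u s s' (τ i))| ≤
      ε * N * (2 ^ (m + 2) * (3 * q ^ (m + 2) * ((Ω.card : ℝ) + 3) ^ (m + 2) +
        2 * (2 ^ (m + 2) * (q * ((Ω.card : ℝ) + 3) + 1) ^ (m + 2)))) +
      b * (2 ^ (m + 2) * (2 * q ^ (m + 2) * ((Ω.card : ℝ) + 3) ^ (m + 2))) := by
  have hΩ : (0 : ℝ) ≤ Ω.card := Nat.cast_nonneg _
  obtain ⟨K1, hK1⟩ : ∃ K1 : ℝ, K1 = ((Ω.card : ℝ) + 3) ^ (m + 2) := ⟨_, rfl⟩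
  have hK10 : 0 ≤ K1 := by rw [hK1]; positivity
  obtain ⟨k, hk⟩ : ∃ k : ℝ, k = (Fintype.card (PP m n) : ℝ) := ⟨_, rfl⟩
  have hk0 : 0 ≤ k := by rw [hk]; positivity
  have hq0 : 0 ≤ q := by rw [← hk] at hq; linarith
  obtain ⟨z, hz⟩ : ∃ z : ℝ, z = ((S ∅).card : ℝ) := ⟨_, rfl⟩
  have hz0 : 0 < z := by
    rw [hz]
    exact_mod_cast hS.ne.card_pos
  obtain ⟨A, hA⟩ : ∃ A : (Fin (m + 2) → PP m n) → ℝ, A = fun τ => Aw Φ X e u ωa ωc J0ᶜ s s' S τ := ⟨_, rfl⟩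
  obtain ⟨c, hc⟩ : ∃ c : (Fin (m + 2) → PP m n) → ℝ, c = fun τ => ∏ i, cf J0ᶜ Cc i (τ i) := ⟨_, rfl⟩
  obtain ⟨V, hV⟩ : ∃ V : (Fin (m + 2) → PP m n) → ℝ, V = fun τ => Φ (fun i => vD X e u s s' (τ i)) := ⟨_, rfl⟩
  have hc1 : ∀ τ, |c τ| ≤ 1 := by
    intro τ
    rw [hc]
    simp only []
    rw [abs_prod]
    exact prod_le_one (fun _ _ => abs_nonneg _) fun i _ => cf_le _ _ i _
  have hwords : ((univ : Finset (Fin (m + 2) → PP m n)).card : ℝ) = k ^ (m + 2) := by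
    rw [card_univ, Fintype.card_fun, Fintype.card_fin, hk]
    push_cast
    rfl
  have hkq : k ^ (m + 2) ≤ q ^ (m + 2) := pow_le_pow_left₀ hk0 (by rw [hk]; exact hq) _
  -- bounds for the words
  have hwN : ∀ (τ : Fin (m + 2) → PP m n) (E : Finset (Fin (m + 2))) (x : Ct n), (∀ g i, x g i ∈ Q) →
      |Φ (fun i => vec X e u ωa ωc J0ᶜ s s' E x (τ i))| ≤ N * K1 := fun τ E x hx => by
    rw [hK1]
    exact word_bd hBND hD E x (fun g l => hQP (hx g l)) τ N hN0 (hN _)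
  have hout : ∀ τ, ¬ Th n J0 τ → |A τ| ≤ 2 ^ (m + 2) * (2 * z * (b * K1)) + 2 ^ (m + 2) * (2 * ε * (N * K1) * z) := by
    intro τ hτ
    have e1 : 0 ≤ 2 ^ (m + 2) * (2 * z * (b * K1)) := by positivity
    have e2 : 0 ≤ 2 ^ (m + 2) * (2 * ε * (N * K1) * z) := by positivity
    by_cases h1 : J0.card ≤ (Jt τ).card
    · have h2 : ∃ j, j ∉ J0 ∧ ∀ i, τ i ≠ Sum.inr (Sum.inl j) := by
        by_contra hne
        push Not at hne
        exact hτ (classify J0 τ h1 hne)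
      obtain ⟨j, hj, hj2⟩ := h2
      have h3 := Aw_miss hS hε0 τ (N * K1) (by positivity) (hwN τ) j (by simpa using hj) hj2
      rw [hA]
      rw [← hz] at h3
      linarith
    · have h2 := Aw_crude hS hε1 τ (b * K1) (by positivity) (fun E x hx => by
        rw [hK1]
        exact word_bd hBND hD E x (fun g l => hQP (hx g l)) τ b hb0 fun p hp => hb _ p (not_le.1 h1) hp)
      rw [hA]
      rw [← hz] at h2
      linarith
  have hin : ∀ τ, Th n J0 τ → |A τ - z * V τ| ≤ 2 ^ (m + 2) * (ε * (N * K1) * z) := by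
    rintro τ ⟨π, rfl⟩
    have h1 := Aw_th hS hε0 π (N * K1) (by positivity) (fun E x hx => hwN _ E x hx)
    rw [hA, hV, hz]
    simp only []
    rw [vD_spx]
    exact h1
  -- the relations
  have htot : |∑ τ, c τ * A τ| ≤ 2 ^ (m + 2) * (2 * z * (ε * (2 ^ (m + 2) * (q * ((Ω.card : ℝ) + 3) + 1) ^ (m + 2)) * N)) := by
    have h1 := total Φ X e u ωa ωc J0ᶜ Cc s s' S
    rw [hc, hA]
    simp only []
    rw [h1]
    refine (abs_sum_le_sum_abs _ _).trans ?_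
    have h2 : ∀ E ∈ (J0ᶜ).powerset, |(-1 : ℝ) ^ E.card * ∑ x ∈ S E,
        Φ (fun i => ∑ κ : PP m n, cf J0ᶜ Cc i κ • vec X e u ωa ωc J0ᶜ s s' E x κ)| ≤
        2 * z * (ε * (2 ^ (m + 2) * (q * ((Ω.card : ℝ) + 3) + 1) ^ (m + 2)) * N) := by
      intro E hE
      rw [mem_powerset] at hE
      rw [abs_mul, abs_pow, abs_neg, abs_one, one_pow, one_mul]
      refine (abs_sum_le_sum_abs _ _).trans ?_
      refine (sum_le_card_nsmul _ _ (ε * (2 ^ (m + 2) * (q * ((Ω.card : ℝ) + 3) + 1) ^ (m + 2)) * N) fun x hx => ?_).trans ?_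
      · obtain ⟨a, b', c', ha, hb', hc', habc, h3, h4, h5, h6⟩ := hrel E hE x hx
        have hxQ := hS.mem E hE x hx
        have h7 := rel_bd hBND hD hCI hRl N hN0 hN E x (fun g l => hQP (hxQ g l))
          (fun g l h0 => hQ0 (h0 ▸ hxQ g l)) ε hε0 hε1 a b' c' ha hb' hc' habc h3 h4 h5 h6
        refine h7.trans ?_
        apply mul_le_mul_of_nonneg_right _ hN0
        apply mul_le_mul_of_nonneg_left _ hε0
        apply mul_le_mul_of_nonneg_left _ (by positivity)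
        apply pow_le_pow_left₀ (by positivity)
        have : (Fintype.card (PP m n) : ℝ) * ((Ω.card : ℝ) + 3) ≤ q * ((Ω.card : ℝ) + 3) :=
          mul_le_mul_of_nonneg_right hq (by positivity)
        linarith
      · rw [nsmul_eq_mul, hz]
        exact mul_le_mul_of_nonneg_right (card_le2 hS hε1 E hE) (by positivity)
    refine (sum_le_card_nsmul _ _ _ h2).trans ?_
    rw [nsmul_eq_mul]
    exact mul_le_mul_of_nonneg_right (powcard _) (by positivity)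
  -- the combination
  have hsplit : z * ∑ τ ∈ univ.filter (fun τ : Fin (m + 2) → PP m n => Th n J0 τ), c τ * V τ =
      ∑ τ, c τ * A τ - ∑ τ ∈ univ.filter (fun τ : Fin (m + 2) → PP m n => ¬ Th n J0 τ), c τ * A τ -
        ∑ τ ∈ univ.filter (fun τ : Fin (m + 2) → PP m n => Th n J0 τ), c τ * (A τ - z * V τ) := by
    have h1 := sum_filter_add_sum_filter_not (univ : Finset (Fin (m + 2) → PP m n)) (fun τ => Th n J0 τ) (fun τ => c τ * A τ)
    rw [← h1, mul_sum]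
    have h2 : ∑ τ ∈ univ.filter (fun τ : Fin (m + 2) → PP m n => Th n J0 τ), c τ * (A τ - z * V τ) =
        ∑ τ ∈ univ.filter (fun τ : Fin (m + 2) → PP m n => Th n J0 τ), c τ * A τ -
        ∑ τ ∈ univ.filter (fun τ : Fin (m + 2) → PP m n => Th n J0 τ), z * (c τ * V τ) := by
      rw [← sum_sub_distrib]
      refine sum_congr rfl fun τ _ => ?_
      ring
    rw [h2]
    ring
  have hsub : ∀ F : Finset (Fin (m + 2) → PP m n), (F.card : ℝ) ≤ q ^ (m + 2) := by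
    intro F
    refine le_trans ?_ hkq
    rw [← hwords]
    exact_mod_cast card_le_univ F
  have hs1 : |∑ τ ∈ univ.filter (fun τ : Fin (m + 2) → PP m n => ¬ Th n J0 τ), c τ * A τ| ≤
      q ^ (m + 2) * (2 ^ (m + 2) * (2 * z * (b * K1)) + 2 ^ (m + 2) * (2 * ε * (N * K1) * z)) := by
    refine (abs_sum_le_sum_abs _ _).trans ?_
    refine (sum_le_card_nsmul _ _ (2 ^ (m + 2) * (2 * z * (b * K1)) + 2 ^ (m + 2) * (2 * ε * (N * K1) * z)) fun τ hτ => ?_).trans ?_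
    · rw [abs_mul]
      calc |c τ| * |A τ| ≤ 1 * |A τ| := mul_le_mul_of_nonneg_right (hc1 τ) (abs_nonneg _)
        _ = |A τ| := one_mul _
        _ ≤ _ := hout τ (mem_filter.1 hτ).2
    · rw [nsmul_eq_mul]
      exact mul_le_mul_of_nonneg_right (hsub _) (by positivity)
  have hs2 : |∑ τ ∈ univ.filter (fun τ : Fin (m + 2) → PP m n => Th n J0 τ), c τ * (A τ - z * V τ)| ≤
      q ^ (m + 2) * (2 ^ (m + 2) * (ε * (N * K1) * z)) := by
    refine (abs_sum_le_sum_abs _ _).trans ?_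
    refine (sum_le_card_nsmul _ _ (2 ^ (m + 2) * (ε * (N * K1) * z)) fun τ hτ => ?_).trans ?_
    · rw [abs_mul]
      calc |c τ| * |A τ - z * V τ| ≤ 1 * |A τ - z * V τ| := mul_le_mul_of_nonneg_right (hc1 τ) (abs_nonneg _)
        _ = |A τ - z * V τ| := one_mul _
        _ ≤ _ := hin τ (mem_filter.1 hτ).2
    · rw [nsmul_eq_mul]
      exact mul_le_mul_of_nonneg_right (hsub _) (by positivity)
  have hgoal : ∑ τ ∈ univ.filter (fun τ : Fin (m + 2) → PP m n => Th n J0 τ),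
      (∏ i, cf J0ᶜ Cc i (τ i)) * Φ (fun i => vD X e u s s' (τ i)) =
      ∑ τ ∈ univ.filter (fun τ : Fin (m + 2) → PP m n => Th n J0 τ), c τ * V τ := by
    rw [hc, hV]
  rw [hgoal, ← hK1]
  obtain ⟨Y, hY⟩ : ∃ Y : ℝ, Y = ∑ τ ∈ univ.filter (fun τ : Fin (m + 2) → PP m n => Th n J0 τ), c τ * V τ := ⟨_, rfl⟩
  rw [← hY] at hsplit ⊢
  have hfin : z * |Y| ≤ z * (ε * N * (2 ^ (m + 2) * (3 * q ^ (m + 2) * K1 +
        2 * (2 ^ (m + 2) * (q * ((Ω.card : ℝ) + 3) + 1) ^ (m + 2)))) + b * (2 ^ (m + 2) * (2 * q ^ (m + 2) * K1))) := by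
    have h1 : z * |Y| = |z * Y| := by rw [abs_mul, abs_of_pos hz0]
    rw [h1, hsplit]
    have h2 := abs_sub (∑ τ, c τ * A τ - ∑ τ ∈ univ.filter (fun τ : Fin (m + 2) → PP m n => ¬ Th n J0 τ), c τ * A τ)
      (∑ τ ∈ univ.filter (fun τ : Fin (m + 2) → PP m n => Th n J0 τ), c τ * (A τ - z * V τ))
    have h3 := abs_sub (∑ τ, c τ * A τ) (∑ τ ∈ univ.filter (fun τ : Fin (m + 2) → PP m n => ¬ Th n J0 τ), c τ * A τ)
    refine (h2.trans (add_le_add (h3.trans (add_le_add htot hs1)) hs2)).trans (le_of_eq ?_)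
    ring
  exact le_of_mul_le_mul_left hfin hz0

end

end Pool.Agent.J4.H60.GQ
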