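import Pool.Agent.J4.H60.GQ.A5
import Pool.Agent.J4.H22.GQ.BND
import Pool.Agent.J4.H22.GQ.Defs6

/-! Project GQ (helper22), piece ISO2 (helper60): combinations, expansions, the relations -/

set_option autoImplicit false
set_option linter.all false

namespace Pool.Agent.J4.H60.GQ

open Finset Pool.Agent.J4.H22.GQ

noncomputable section

/-- multilinear functionals of `K` variables -/
abbrev MK (K : ℕ) : Type := MultilinearMap ℝ (fun _ : Fin K => W) ℝ

lemma bK {K : ℕ} (Θ : MK K) (S : Fin K → Set W) (N : ℝ) (hN : 0 ≤ N) (h : ∀ v : Fin K → W, (∀ i, v i ∈ S i) → |Θ v| ≤ N)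
    (r : Fin K → ℝ) (w : Fin K → W) (hw : ∀ i, Cb (S i) (r i) (w i)) : |Θ w| ≤ N * ∏ i, r i :=
  Bnd.step Θ S N hN h r Finset.univ w (fun i _ => hw i) (fun i hi => absurd (Finset.mem_univ i) hi)

lemma cb_sum2 {ι : Type*} (s : Finset ι) (c : ι → ℝ) (v : ι → W) (S : Set W) (r Λ : ℝ) (hr : 0 ≤ r)
    (hc : ∀ i ∈ s, |c i| ≤ Λ) (hv : ∀ i ∈ s, Cb S r (v i)) : Cb S (s.card * (Λ * r)) (∑ i ∈ s, c i • v i) := by
  classical
  induction s using Finset.induction_on with
  | empty => simpa using cb_zero S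
  | insert a s ha ih =>
    rw [sum_insert ha, card_insert_of_notMem ha]
    have h1 := ih (fun i hi => hc i (mem_insert_of_mem hi)) (fun i hi => hv i (mem_insert_of_mem hi))
    have h2 := cb_smul (c a) (hv a (mem_insert_self a s))
    have h3 : |c a| * r ≤ Λ * r := mul_le_mul_of_nonneg_right (hc a (mem_insert_self a s)) hr
    refine cb_mono (cb_add (cb_mono h2 h3) h1) (le_of_eq ?_)
    push_cast
    ring

/-- the multilinear bound, with `u` at the places in `J` -/
lemma bT2 {K : ℕ} (Θ : MK K) {X : ℝ} {e u : W} {P : Finset ℕ} (h2 : 2 ∈ P)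
    (J : Finset (Fin K)) (β : ℝ) (hβ : 0 ≤ β)
    (h : ∀ p : Fin K → ℕ, (∀ i, p i ∈ P) → |Θ (ta X e u J p)| ≤ β)
    (r : ℝ) (hr : 1 ≤ r) (w : Fin K → W) (hw : ∀ i ∈ J, w i = u)
    (hw' : ∀ i, i ∉ J → Cb (dd X e u '' (P : Set ℕ)) r (w i)) : |Θ w| ≤ β * r ^ K := by
  classical
  have h1 := bK Θ (fun i => if i ∈ J then {u} else dd X e u '' (P : Set ℕ)) β hβ ?_ (fun _ => r) w ?_
  · simpa using h1
  · intro v hv
    have h3 : ∀ i, ∃ q ∈ P, i ∉ J → dd X e u q = v i := by
      intro i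
      by_cases hi : i ∈ J
      · exact ⟨2, h2, fun h => absurd hi h⟩
      · have h4 := hv i
        simp only [if_neg hi] at h4
        obtain ⟨q, hq, hq2⟩ := h4
        exact ⟨q, by exact_mod_cast hq, fun _ => hq2⟩
    choose p hp hp2 using h3
    have h5 : v = ta X e u J p := by
      funext i
      unfold ta
      split_ifs with hi
      · have h4 := hv i
        simp only [if_pos hi] at h4
        exact h4
      · exact (hp2 i hi).symm
    rw [h5]
    exact h p hp
  · intro i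
    by_cases hi : i ∈ J
    · simp only [if_pos hi]
      rw [hw i hi]
      exact cb_mono (cb_self rfl) hr
    · simp only [if_neg hi]
      exact hw' i hi

/-- the coefficients; `β`: is the place of the type `b`? -/
def cg {m : ℕ} {n : Fin 3 → ℕ} (la lb : ℝ) (I Cc : Finset (Fin (m + 2))) (β : Bool) : PP m n → ℝ :=
  Sum.elim ![if β then lb else la, if β then 0 else 1, -1]
    (Sum.elim (fun j => if j ∈ Cc then -1 else if j ∈ I then (if β then 0 else 1) else 0)
      (fun t => (![if β then 0 else 1, if β then 1 else 0, -1] : Fin 3 → ℝ) t.1))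

lemma cg_le {m : ℕ} {n : Fin 3 → ℕ} (la lb Λ : ℝ) (h1 : 1 ≤ Λ) (ha : |la| ≤ Λ) (hb : |lb| ≤ Λ) (I Cc : Finset (Fin (m + 2)))
    (β : Bool) (κ : PP m n) : |cg la lb I Cc β κ| ≤ Λ := by
  have h0 : (0 : ℝ) ≤ Λ := by linarith
  rcases κ with κ | κ | κ
  · fin_cases κ
    · cases β <;> simpa [cg]
    · cases β <;> simpa [cg]
    · simpa [cg] using h1
  · simp only [cg, Sum.elim_inr, Sum.elim_inl]
    cases β <;> split_ifs <;> simp <;> linarith
  · simp only [cg, Sum.elim_inr]
    obtain ⟨g, l⟩ := κ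
    fin_cases g <;> cases β <;> simp <;> linarith

lemma cg_eq {m : ℕ} {n : Fin 3 → ℕ} (la lb : ℝ) (I Cc : Finset (Fin (m + 2))) (β : Bool) (κ : PP m n) :
    cg la lb I Cc β κ = cf I Cc (if β then 0 else 1) κ +
      (if κ = Sum.inl 0 then (if β then lb else la) + Real.log 2 else 0) := by
  rcases κ with κ | κ | κ
  · fin_cases κ
    · cases β <;> simp [cg, cf]
    · cases β <;> simp [cg, cf]
    · simp [cg, cf]
  · cases β <;> simp [cg, cf]
  · cases β <;> simp [cg, cf]

lemma expand2 {m : ℕ} {n : Fin 3 → ℕ} (X : ℝ) (e u : W) (ωa ωc : ℕ) (I Cc : Finset (Fin (m + 2))) (hCI : Cc ⊆ I)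
    (s s' : Fin (m + 2) → ℕ) (E : Finset (Fin (m + 2))) (x : Ct n) (hωa : ωa ≠ 0) (hωc : ωc ≠ 0)
    (hs : ∀ i ∈ I, ch E s s' i ≠ 0) (hx : ∀ g l, x g l ≠ 0) (la lb : ℝ) (β : Bool) :
    ∑ κ, cg la lb I Cc β κ • vec X e u ωa ωc I s s' E x κ =
      (if β then dd X e u (∏ l, x 1 l) else dd X e u (ωa * (∏ j ∈ I \ Cc, ch E s s' j) * ∏ l, x 0 l)) -
        dd X e u (ωc * (∏ j ∈ Cc, ch E s s' j) * ∏ l, x 2 l) + (if β then lb else la) • u := by
  have h1 : ∀ κ : PP m n, cg la lb I Cc β κ • vec X e u ωa ωc I s s' E x κ =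
      cf I Cc (if β then 0 else 1) κ • vec X e u ωa ωc I s s' E x κ +
      (if κ = Sum.inl 0 then ((if β then lb else la) + Real.log 2) • u else 0) := by
    intro κ
    rw [cg_eq, add_smul]
    congr 1
    by_cases hκ : κ = Sum.inl 0
    · subst hκ
      simp [vec]
    · simp [hκ]
  simp only [h1]
  rw [sum_add_distrib, expand X e u ωa ωc I Cc hCI s s' E x hωa hωc hs hx, sum_ite_eq' univ (Sum.inl 0)]
  simp only [mem_univ, if_true]
  have h2 : ((if β then (0 : Fin (m + 2)) else 1) = 0) ↔ β = true := by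
    cases β
    · simp
    · simp
  by_cases hβ : β = true
  · subst hβ
    simp
    module
  · have h3 : β = false := by simpa using hβ
    subst h3
    simp
    module

/-- approximation of the relations -/
lemma rel2 {K m : ℕ} {n : Fin 3 → ℕ} {Ω P : Finset ℕ} {I Cc : Finset (Fin (m + 2))} {s s' : Fin (m + 2) → ℕ}
    {ωa ωc : ℕ} (h : Da Ω P I s s' ωa ωc) (hCI : Cc ⊆ I) (Θ : MK K) (ty : Fin K → Bool) {X : ℝ} {e u : W} (N : ℝ) (hN0 : 0 ≤ N)
    (hN : ∀ (J : Finset (Fin K)) (p : Fin K → ℕ), (∀ i, p i ∈ P) → |Θ (ta X e u J p)| ≤ N)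
    (E : Finset (Fin (m + 2))) (x : Ct n) (hx : ∀ g l, x g l ∈ P) (hx0 : ∀ g l, x g l ≠ 0) (ε : ℝ) (hε0 : 0 ≤ ε) (hε1 : ε ≤ 1)
    (la lb Λ : ℝ) (hΛ : 1 ≤ Λ) (hla : |la| ≤ Λ) (hlb : |lb| ≤ Λ)
    (a b c : ℕ) (ha : a = ωa * (∏ i ∈ I \ Cc, ch E s s' i) * ∏ l, x 0 l) (hb : b = ∏ l, x 1 l)
    (hc : c = ωc * (∏ i ∈ Cc, ch E s s' i) * ∏ l, x 2 l) (h1 : cS X a = cS X c) (h2 : cS X b = cS X c)
    (h3 : |Real.log a - Real.log c - la| ≤ ε) (h4 : |Real.log b - Real.log c - lb| ≤ ε) :
    |Θ (fun i => ∑ κ : PP m n, cg la lb I Cc (ty i) κ • vec X e u ωa ωc I s s' E x κ) -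
      Θ (fun i => if ty i then vc b - vc c else vc a - vc c)| ≤
      ε * (2 ^ K * ((Fintype.card (PP m n) : ℝ) * (Λ * ((Ω.card : ℝ) + 3)) + 1) ^ K) * N ∧
    |Θ (fun i => if ty i then vc b - vc c else vc a - vc c)| ≤
      ((Fintype.card (PP m n) : ℝ) * (Λ * ((Ω.card : ℝ) + 3)) + 1) ^ K * N := by
  classical
  have hΩ : (0 : ℝ) ≤ Ω.card := Nat.cast_nonneg _
  have hch : ∀ i ∈ I, ch E s s' i ≠ 0 := by
    intro i hi
    unfold ch
    split_ifs
    · exact (h.s0 i hi).2
    · exact (h.s0 i hi).1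
  have hex : ∀ β, _ := fun β => expand2 X e u ωa ωc I Cc hCI s s' E x h.a0 h.c0 hch hx0 la lb β
  rw [← ha, ← hb, ← hc] at hex
  obtain ⟨LL, hLL⟩ : ∃ LL : ℝ, LL = (Fintype.card (PP m n) : ℝ) * (Λ * ((Ω.card : ℝ) + 3)) := ⟨_, rfl⟩
  rw [← hLL]
  have hLL0 : 0 ≤ LL := by rw [hLL]; positivity
  obtain ⟨V, hV⟩ : ∃ V : Set W, V = insert u (dd X e u '' (P : Set ℕ)) := ⟨_, rfl⟩
  obtain ⟨ρ, hρ⟩ : ∃ ρ : Fin K → ℝ, ρ = fun i => if ty i then lb - (Real.log b - Real.log c) else
    la - (Real.log a - Real.log c) := ⟨_, rfl⟩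
  have hρb : ∀ i, |ρ i| ≤ ε := by
    intro i
    rw [hρ]
    by_cases hi : ty i = true
    · simp only [hi, if_true]
      rw [abs_sub_comm]
      exact h4
    · simp only [hi, if_false, Bool.false_eq_true]
      rw [abs_sub_comm]
      exact h3
  obtain ⟨y, hy⟩ : ∃ y : Fin K → W, y = (fun i => if ty i then vc b - vc c else vc a - vc c) := ⟨_, rfl⟩
  rw [← hy]
  have hyi : ∀ i, ∑ κ : PP m n, cg la lb I Cc (ty i) κ • vec X e u ωa ωc I s s' E x κ = y i + (ρ i) • u := by
    intro i
    rw [hex (ty i), hy, hρ]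
    by_cases hi : ty i = true
    · simp only [hi, if_true]
      unfold dd
      rw [h2]
      module
    · simp only [hi, if_false]
      unfold dd
      rw [h1]
      simp
      module
  have hfun : (fun i => ∑ κ : PP m n, cg la lb I Cc (ty i) κ • vec X e u ωa ωc I s s' E x κ) = y + fun i => (ρ i) • u := by
    funext i
    rw [hyi i]
    rfl
  have hcbu : Cb V 1 u := cb_self (by rw [hV]; exact Set.mem_insert _ _)
  have hcy : ∀ i, Cb V (LL + 1) (y i) := by
    intro i
    have e1 : y i = ∑ κ : PP m n, cg la lb I Cc (ty i) κ • vec X e u ωa ωc I s s' E x κ + (-ρ i) • u := by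
      rw [hyi i]
      module
    rw [e1]
    refine cb_add ?_ ?_
    · rw [hLL]
      have h5 := cb_sum2 (univ : Finset (PP m n)) (fun κ => cg la lb I Cc (ty i) κ) (fun κ => vec X e u ωa ωc I s s' E x κ) V
        ((Ω.card : ℝ) + 3) Λ (by linarith) (fun κ _ => cg_le la lb Λ hΛ hla hlb I Cc (ty i) κ) (fun κ _ => by
          by_cases hκ : κ = Sum.inl 0
          · rw [hκ]
            exact cb_mono hcbu (by linarith)
          · exact cb_mono_set (vec_cb h X e u E x hx κ hκ) (by rw [hV]; exact Set.subset_insert _ _))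
      exact h5
    · have h6 := cb_smul (-ρ i) hcbu
      refine cb_mono h6 ?_
      rw [mul_one, abs_neg]
      exact (hρb i).trans hε1
  have hcz : ∀ i, Cb V ε ((ρ i) • u) := by
    intro i
    refine cb_mono (cb_smul (ρ i) hcbu) ?_
    rw [mul_one]
    exact hρb i
  have hVN : ∀ v : Fin K → W, (∀ i, v i ∈ V) → |Θ v| ≤ N := by
    intro v hv
    have h5 : ∀ i, ∃ q ∈ P, v i ≠ u → dd X e u q = v i := by
      intro i
      by_cases hi : v i = u
      · exact ⟨2, h.two, fun h => absurd hi h⟩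
      · have h6 := hv i
        rw [hV] at h6
        rcases h6 with h6 | ⟨q, hq, hq2⟩
        · exact absurd h6 hi
        · exact ⟨q, by exact_mod_cast hq, fun _ => hq2⟩
    choose p hp hp2 using h5
    have h7 : v = ta X e u (univ.filter (fun i => v i = u)) p := by
      funext i
      unfold ta
      split_ifs with hi
      · exact (mem_filter.1 hi).2
      · exact (hp2 i fun h => hi (mem_filter.2 ⟨mem_univ _, h⟩)).symm
    rw [h7]
    exact hN _ p hp
  constructor
  · rw [hfun, MultilinearMap.map_add_univ, ← add_sum_erase univ _ (mem_univ (univ : Finset (Fin K)))]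
    rw [piecewise_univ, add_sub_cancel_left]
    refine (abs_sum_le_sum_abs _ _).trans ?_
    have hterm : ∀ t ∈ (univ : Finset (Finset (Fin K))).erase univ, |Θ (t.piecewise y (fun i => (ρ i) • u))| ≤
        ε * (LL + 1) ^ K * N := by
      intro t ht
      have ht : t ≠ univ := (mem_erase.1 ht).1
      obtain ⟨i0, hi0⟩ : ∃ i0, i0 ∉ t := by
        by_contra hne
        push Not at hne
        exact ht (eq_univ_iff_forall.2 hne)
      have h8 := bK Θ (fun _ => V) N hN0 hVN (fun i => if i ∈ t then LL + 1 else ε)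
        (t.piecewise y (fun i => (ρ i) • u)) ?_
      · refine h8.trans ?_
        have h9 : ∏ i, (if i ∈ t then LL + 1 else ε) ≤ ε * (LL + 1) ^ K := by
          rw [← mul_prod_erase univ _ (mem_univ i0), if_neg hi0]
          apply mul_le_mul_of_nonneg_left _ hε0
          calc ∏ i ∈ univ.erase i0, (if i ∈ t then LL + 1 else ε) ≤ ∏ i ∈ univ.erase i0, (LL + 1) := by
                apply prod_le_prod
                · intro i _
                  split_ifs <;> linarith
                · intro i _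
                  split_ifs <;> linarith
            _ ≤ (LL + 1) ^ K := by
                rw [prod_const]
                apply pow_le_pow_right₀ (by linarith)
                refine (card_le_univ _).trans ?_
                simp
        calc N * ∏ i, (if i ∈ t then LL + 1 else ε) ≤ N * (ε * (LL + 1) ^ K) := mul_le_mul_of_nonneg_left h9 hN0
          _ = _ := by ring
      · intro i
        by_cases hi : i ∈ t
        · rw [piecewise_eq_of_mem _ _ _ hi]
          simp only [hi, if_true]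
          exact hcy i
        · rw [piecewise_eq_of_notMem _ _ _ hi]
          simp only [hi, if_false]
          exact hcz i
    refine (sum_le_card_nsmul _ _ _ hterm).trans ?_
    rw [nsmul_eq_mul]
    have h10 : (((univ : Finset (Finset (Fin K))).erase univ).card : ℝ) ≤ 2 ^ K := by
      have : ((univ : Finset (Finset (Fin K))).erase univ).card ≤ (univ : Finset (Finset (Fin K))).card := card_erase_le
      rw [card_univ, Fintype.card_finset, Fintype.card_fin] at this
      exact_mod_cast this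
    calc _ ≤ (2 : ℝ) ^ K * (ε * (LL + 1) ^ K * N) := mul_le_mul_of_nonneg_right h10 (by positivity)
      _ = _ := by ring
  · have h8 := bK Θ (fun _ => V) N hN0 hVN (fun _ => LL + 1) y hcy
    rw [prod_const, card_univ, Fintype.card_fin] at h8
    rw [mul_comm]
    exact h8

end

end Pool.Agent.J4.H60.GQ
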