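import Pool.Agent.J4.H60.GQ.C1

/-! Project GQ (helper22), piece ISO2 (helper60): words -/

set_option autoImplicit false
set_option linter.all false

namespace Pool.Agent.J4.H60.GQ

open Finset Pool.Agent.J4.H22.GQ

noncomputable section

/-- the places of `u` -/
def Ju {K m : ℕ} {n : Fin 3 → ℕ} (τ : Fin K → PP m n) : Finset (Fin K) := univ.filter (fun i => τ i = Sum.inl 0)

lemma mem_Ju {K m : ℕ} {n : Fin 3 → ℕ} {τ : Fin K → PP m n} {i : Fin K} : i ∈ Ju τ ↔ τ i = Sum.inl 0 := by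
  simp [Ju]

/-- the good words -/
def Gd {K m : ℕ} {n : Fin 3 → ℕ} (I : Finset (Fin (m + 2))) (τ : Fin K → PP m n) : Prop :=
  (∀ j ∈ I, ∃ i, τ i = Sum.inr (Sum.inl j)) ∧ K ≤ (Ju τ).card + I.card

lemma gd_struct {K m : ℕ} {n : Fin 3 → ℕ} {I : Finset (Fin (m + 2))} {τ : Fin K → PP m n} (h : Gd I τ) :
    ∃ g : Fin K → Fin (m + 2), (∀ i, i ∉ Ju τ → τ i = Sum.inr (Sum.inl (g i)) ∧ g i ∈ I) ∧
      Set.InjOn g (((Ju τ)ᶜ : Finset (Fin K)) : Set (Fin K)) ∧ (Ju τ)ᶜ.image g = I ∧ (Ju τ).card + I.card = K := by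
  classical
  obtain ⟨h1, h2⟩ := h
  choose f hf using h1
  obtain ⟨F, hF⟩ : ∃ F : Finset (Fin K), F = I.attach.image (fun j => f j.1 j.2) := ⟨_, rfl⟩
  have hinj : Function.Injective (fun j : {j // j ∈ I} => f j.1 j.2) := by
    intro a b hab
    have ha := hf a.1 a.2
    have hb := hf b.1 b.2
    simp only [] at hab
    rw [hab, hb] at ha
    apply Subtype.ext
    simpa using ha.symm
  have hFc : F.card = I.card := by
    rw [hF, card_image_of_injective _ hinj, card_attach]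
  have hFs : F ⊆ (Ju τ)ᶜ := by
    intro i hi
    rw [hF, mem_image] at hi
    obtain ⟨j, -, rfl⟩ := hi
    rw [mem_compl, mem_Ju, hf j.1 j.2]
    simp
  have hcc : (Ju τ)ᶜ.card = K - (Ju τ).card := by rw [card_compl, Fintype.card_fin]
  have hle : (Ju τ).card ≤ K := by
    have := card_le_univ (Ju τ)
    simpa using this
  have hFe : F = (Ju τ)ᶜ := by
    apply eq_of_subset_of_card_le hFs
    rw [hcc, hFc]
    omega
  have h3 : ∀ i, ∃ j : Fin (m + 2), i ∉ Ju τ → ∃ hj : j ∈ I, f j hj = i ∧ τ i = Sum.inr (Sum.inl j) := by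
    intro i
    by_cases hi : i ∈ Ju τ
    · exact ⟨0, fun h => absurd hi h⟩
    · have h4 : i ∈ F := by
        rw [hFe, mem_compl]
        exact hi
      rw [hF, mem_image] at h4
      obtain ⟨j, -, rfl⟩ := h4
      exact ⟨j.1, fun _ => ⟨j.2, rfl, hf j.1 j.2⟩⟩
  choose g hg using h3
  refine ⟨g, fun i hi => ⟨(hg i hi).2.2, (hg i hi).1⟩, ?_, ?_, ?_⟩
  · intro a ha b hb hab
    have ha' := hg a (by simpa using ha)
    have hb' := hg b (by simpa using hb)
    obtain ⟨p1, p2, -⟩ := ha'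
    obtain ⟨q1, q2, -⟩ := hb'
    rw [← p2, ← q2]
    congr 1
  · ext j
    rw [mem_image]
    constructor
    · rintro ⟨i, hi, rfl⟩
      exact (hg i (by simpa using hi)).1
    · intro hj
      have h4 : f j hj ∉ Ju τ := by
        rw [mem_Ju, hf j hj]
        simp
      refine ⟨f j hj, by simpa using h4, ?_⟩
      have h5 := (hg _ h4).2.2
      rw [hf j hj] at h5
      simpa using h5.symm
  · have h4 : (Ju τ)ᶜ.card = I.card := by rw [← hFe, hFc]
    omega

lemma gd_card {K m : ℕ} {n : Fin 3 → ℕ} {I : Finset (Fin (m + 2))} {τ : Fin K → PP m n} (h : Gd I τ) (κ : PP m n)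
    [Decidable (∃ j ∈ I, κ = Sum.inr (Sum.inl j))] :
    (univ.filter (fun i => τ i = κ)).card = if κ = Sum.inl 0 then K - I.card else
      if (∃ j ∈ I, κ = Sum.inr (Sum.inl j)) then 1 else 0 := by
  obtain ⟨g, h1, h2, h3, h4⟩ := gd_struct h
  by_cases hκ : κ = Sum.inl 0
  · rw [if_pos hκ, hκ]
    have : (univ.filter (fun i => τ i = Sum.inl 0)) = Ju τ := rfl
    rw [this]
    omega
  · rw [if_neg hκ]
    split_ifs with h5
    · obtain ⟨j, hj, rfl⟩ := h5
      have h6 := hj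
      rw [← h3, mem_image] at h6
      obtain ⟨i0, hi0, hi0'⟩ := h6
      rw [card_eq_one]
      refine ⟨i0, ?_⟩
      ext i
      rw [mem_filter, mem_singleton]
      constructor
      · rintro ⟨-, hi⟩
        have h7 : i ∉ Ju τ := by
          rw [mem_Ju, hi]
          simp
        have h8 := (h1 i h7).1
        rw [hi] at h8
        have h9 : g i = j := by simpa using h8.symm
        exact h2 (by simpa using h7) (by simpa using hi0) (h9.trans hi0'.symm)
      · rintro rfl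
        refine ⟨mem_univ _, ?_⟩
        rw [(h1 i (by simpa using hi0)).1, hi0']
    · rw [card_eq_zero, filter_eq_empty_iff]
      intro i _ hi
      have h7 : i ∉ Ju τ := by
        rw [mem_Ju, hi]
        exact hκ
      exact h5 ⟨g i, (h1 i h7).2, by rw [← hi, (h1 i h7).1]⟩

lemma gd_perm {K m : ℕ} {n : Fin 3 → ℕ} {I : Finset (Fin (m + 2))} {τ τ' : Fin K → PP m n} (h : Gd I τ) (h' : Gd I τ') :
    ∃ σ : Equiv.Perm (Fin K), τ' = τ ∘ σ := by
  classical
  have h1 : ∀ κ : PP m n, Fintype.card {i // τ' i = κ} = Fintype.card {i // τ i = κ} := by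
    intro κ
    rw [Fintype.card_subtype, Fintype.card_subtype, gd_card h κ, gd_card h' κ]
  refine ⟨Equiv.ofFiberEquiv (fun κ => Fintype.equivOfCardEq (h1 κ)), ?_⟩
  funext i
  rw [Function.comp_apply]
  exact (Equiv.ofFiberEquiv_map (fun κ => Fintype.equivOfCardEq (h1 κ)) i).symm

lemma gd_perm0 {m : ℕ} {n : Fin 3 → ℕ} {I : Finset (Fin (m + 2))} {τ τ' : Fin (m + 2) → PP m n} (h : Gd I τ) (h' : Gd I τ')
    (h0 : τ 0 = τ' 0) : ∃ σ : Equiv.Perm (Fin (m + 2)), σ 0 = 0 ∧ τ' = τ ∘ σ := by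
  obtain ⟨σ, hσ⟩ := gd_perm h h'
  have h1 : τ (σ 0) = τ 0 := by
    rw [h0, hσ]
    rfl
  refine ⟨σ.trans (Equiv.swap 0 (σ 0)), by simp, ?_⟩
  funext i
  rw [hσ]
  simp only [Function.comp_apply, Equiv.trans_apply]
  by_cases h2 : σ i = 0
  · rw [h2, Equiv.swap_apply_left, h1]
  · by_cases h3 : σ i = σ 0
    · rw [h3, Equiv.swap_apply_right, h1]
    · rw [Equiv.swap_apply_of_ne_of_ne h2 h3]

/-- alternating sums of a multilinear function -/
lemma alt_sum2 {K : ℕ} (Ψ : MK K) (J0 : Finset (Fin K)) (v p q : Fin K → W) :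
    ∑ E ∈ (J0ᶜ).powerset, (-1 : ℝ) ^ E.card * Ψ (fun j => if j ∈ J0 then v j else if j ∈ E then q j else p j) =
      Ψ (fun j => if j ∈ J0 then v j else p j - q j) := by
  classical
  have h1 : (fun j => if j ∈ J0 then v j else p j - q j) =
      (fun j => if j ∈ J0 then v j else p j) + (fun j => if j ∈ J0 then 0 else - q j) := by
    funext j
    rw [Pi.add_apply]
    split_ifs
    · simp
    · rw [sub_eq_add_neg]
  have hc : ∀ G : Finset (Fin K) → ℝ, ∑ s, G s = ∑ E, G Eᶜ := fun G =>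
    (Equiv.sum_comp (Function.Involutive.toPerm (compl : Finset (Fin K) → _) compl_involutive) G).symm
  rw [h1, MultilinearMap.map_add_univ]
  rw [hc (fun s => Ψ (s.piecewise (fun j => if j ∈ J0 then v j else p j) (fun j => if j ∈ J0 then 0 else - q j)))]
  symm
  rw [← sum_subset (subset_univ (J0ᶜ).powerset)]
  · refine sum_congr rfl fun E hE => ?_
    rw [mem_powerset] at hE
    have h2 : (Eᶜ.piecewise (fun j => if j ∈ J0 then v j else p j) (fun j => if j ∈ J0 then 0 else - q j)) =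
        fun j => (if j ∈ E then (-1 : ℝ) else 1) • (if j ∈ J0 then v j else if j ∈ E then q j else p j) := by
      funext j
      by_cases hj : j ∈ E
      · have hj' : j ∉ J0 := by simpa using hE hj
        rw [piecewise_eq_of_notMem _ _ _ (by simpa using hj)]
        simp [hj, hj']
      · rw [piecewise_eq_of_mem _ _ _ (by simpa using hj)]
        simp [hj]
    rw [h2, MultilinearMap.map_smul_univ, smul_eq_mul]
    congr 1
    rw [Finset.prod_ite]
    simp
  · intro E _ hE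
    rw [mem_powerset] at hE
    obtain ⟨j, hj, hj'⟩ := Finset.not_subset.1 hE
    apply MultilinearMap.map_coord_zero _ j
    rw [piecewise_eq_of_notMem _ _ _ (by simpa using hj)]
    simp only [mem_compl, not_not] at hj'
    simp [hj']

lemma word_bd2 {K m : ℕ} {n : Fin 3 → ℕ} {Ω P : Finset ℕ} {I : Finset (Fin (m + 2))} {s s' : Fin (m + 2) → ℕ}
    {ωa ωc : ℕ} (h : Da Ω P I s s' ωa ωc) {Θ : MK K} {X : ℝ} {e u : W} (E : Finset (Fin (m + 2))) (x : Ct n)
    (hx : ∀ g l, x g l ∈ P) (τ : Fin K → PP m n) (β : ℝ) (hβ : 0 ≤ β)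
    (hN : ∀ p : Fin K → ℕ, (∀ i, p i ∈ P) → |Θ (ta X e u (Ju τ) p)| ≤ β) :
    |Θ (fun i => vec X e u ωa ωc I s s' E x (τ i))| ≤ β * ((Ω.card : ℝ) + 3) ^ K := by
  have hΩ : (0 : ℝ) ≤ Ω.card := Nat.cast_nonneg _
  refine bT2 Θ h.two (Ju τ) β hβ hN _ (by linarith) _ ?_ ?_
  · intro i hi
    have : τ i = Sum.inl 0 := (mem_filter.1 hi).2
    rw [this]
    rfl
  · intro i hi
    refine vec_cb h X e u E x hx (τ i) fun h0 => hi ?_
    exact mem_filter.2 ⟨mem_univ _, h0⟩

/-- the sum for one word -/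
def Aw2 {K m : ℕ} {n : Fin 3 → ℕ} (Θ : MK K) (X : ℝ) (e u : W) (ωa ωc : ℕ) (I : Finset (Fin (m + 2))) (s s' : Fin (m + 2) → ℕ)
    (S : Finset (Fin (m + 2)) → Finset (Ct n)) (τ : Fin K → PP m n) : ℝ :=
  ∑ E ∈ I.powerset, (-1 : ℝ) ^ E.card * ∑ x ∈ S E, Θ (fun i => vec X e u ωa ωc I s s' E x (τ i))

/-- the visited slots -/
def Tu {K m : ℕ} {n : Fin 3 → ℕ} (τ : Fin K → PP m n) : Finset ((g : Fin 3) × Fin (n g)) :=
  univ.filter (fun t => ∃ i, τ i = Sum.inr (Sum.inr t))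

lemma Tu_card {K m : ℕ} {n : Fin 3 → ℕ} (τ : Fin K → PP m n) : (Tu τ).card ≤ K := by
  classical
  have h1 : ∀ t : {t // t ∈ Tu τ}, ∃ i, τ i = Sum.inr (Sum.inr t.1) := fun t => (mem_filter.1 t.2).2
  choose f hf using h1
  have h2 : Function.Injective f := by
    intro a b hab
    have ha' := hf a
    have hb' := hf b
    rw [hab, hb'] at ha'
    apply Subtype.ext
    simpa using ha'.symm
  have h3 := Fintype.card_le_of_injective f h2
  simpa using h3

lemma vec_congr2 {K m : ℕ} {n : Fin 3 → ℕ} (X : ℝ) (e u : W) (ωa ωc : ℕ) (I : Finset (Fin (m + 2))) (s s' : Fin (m + 2) → ℕ)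
    (E : Finset (Fin (m + 2))) (τ : Fin K → PP m n) (x y : Ct n) (h : ∀ t ∈ Tu τ, x t.1 t.2 = y t.1 t.2)
    (i : Fin K) : vec X e u ωa ωc I s s' E x (τ i) = vec X e u ωa ωc I s s' E y (τ i) := by
  rcases hi : τ i with κ | κ | κ
  · rfl
  · rfl
  · show dd X e u (x κ.1 κ.2) = dd X e u (y κ.1 κ.2)
    rw [h κ (mem_filter.2 ⟨mem_univ _, i, hi⟩)]

lemma Aw2_crude {K m : ℕ} {n : Fin 3 → ℕ} {Θ : MK K} {X : ℝ} {e u : W} {ωa ωc : ℕ} {I : Finset (Fin (m + 2))}
    {s s' : Fin (m + 2) → ℕ} {Q : Finset ℕ} {S : Finset (Fin (m + 2)) → Finset (Ct n)} {ε : ℝ} (h : Ds I Q S ε) (hε : ε ≤ 1)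
    (τ : Fin K → PP m n) (B : ℝ) (hB : 0 ≤ B)
    (hb : ∀ (E : Finset (Fin (m + 2))) (x : Ct n), (∀ g i, x g i ∈ Q) → |Θ (fun i => vec X e u ωa ωc I s s' E x (τ i))| ≤ B) :
    |Aw2 Θ X e u ωa ωc I s s' S τ| ≤ 2 ^ (m + 2) * (2 * (S ∅).card * B) := by
  unfold Aw2
  refine (abs_sum_le_sum_abs _ _).trans ?_
  have h1 : ∀ E ∈ I.powerset, |(-1 : ℝ) ^ E.card * ∑ x ∈ S E, Θ (fun i => vec X e u ωa ωc I s s' E x (τ i))| ≤
      2 * (S ∅).card * B := by
    intro E hE
    rw [abs_mul, abs_pow, abs_neg, abs_one, one_pow, one_mul]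
    refine (abs_sum_le_sum_abs _ _).trans ?_
    refine (sum_le_card_nsmul _ _ B fun x hx => hb E x (h.mem E (mem_powerset.1 hE) x hx)).trans ?_
    rw [nsmul_eq_mul]
    exact mul_le_mul_of_nonneg_right (card_le2 h hε E (mem_powerset.1 hE)) hB
  refine (sum_le_card_nsmul _ _ _ h1).trans ?_
  rw [nsmul_eq_mul]
  exact mul_le_mul_of_nonneg_right (powcard I) (by positivity)

lemma Aw2_miss {K m : ℕ} {n : Fin 3 → ℕ} {Θ : MK K} (hK : K ≤ m + 2) {X : ℝ} {e u : W} {ωa ωc : ℕ} {I : Finset (Fin (m + 2))}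
    {s s' : Fin (m + 2) → ℕ} {Q : Finset ℕ} {S : Finset (Fin (m + 2)) → Finset (Ct n)} {ε : ℝ} (h : Ds I Q S ε) (hε0 : 0 ≤ ε)
    (τ : Fin K → PP m n) (B : ℝ) (hB : 0 ≤ B)
    (hb : ∀ (E : Finset (Fin (m + 2))) (x : Ct n), (∀ g i, x g i ∈ Q) → |Θ (fun i => vec X e u ωa ωc I s s' E x (τ i))| ≤ B)
    (j : Fin (m + 2)) (hj : j ∈ I) (hτ : ∀ i, τ i ≠ Sum.inr (Sum.inl j)) :
    |Aw2 Θ X e u ωa ωc I s s' S τ| ≤ 2 ^ (m + 2) * (2 * ε * B * (S ∅).card) := by
  classical
  unfold Aw2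
  apply alt_small I j hj _ _ _ (by positivity)
  intro E hE hjE
  have hE2 : insert j E ⊆ I := insert_subset hj hE
  have h1 : ∀ x : Ct n, Θ (fun i => vec X e u ωa ωc I s s' (insert j E) x (τ i)) =
      Θ (fun i => vec X e u ωa ωc I s s' E x (τ i)) := by
    intro x
    congr 1
    funext i
    rcases hi : τ i with κ | κ | κ
    · rfl
    · have hκ : κ ≠ j := fun h0 => hτ i (by rw [hi, h0])
      show (if κ ∈ I then dd X e u (ch (insert j E) s s' κ) else 0) = (if κ ∈ I then dd X e u (ch E s s' κ) else 0)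
      have h2 : ch (insert j E) s s' κ = ch E s s' κ := by
        unfold ch
        simp [hκ]
      rw [h2]
    · rfl
  simp only [h1]
  have h2 := tr_scaled h E hE (Tu τ) ((Tu_card τ).trans hK) (fun x => Θ (fun i => vec X e u ωa ωc I s s' E x (τ i))) B hB
    (fun x hx => hb E x hx) (fun x y hxy => by
      congr 1
      funext i
      exact vec_congr2 X e u ωa ωc I s s' E τ x y hxy i)
  have h3 := tr_scaled h (insert j E) hE2 (Tu τ) ((Tu_card τ).trans hK) (fun x => Θ (fun i => vec X e u ωa ωc I s s' E x (τ i))) B hB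
    (fun x hx => hb E x hx) (fun x y hxy => by
      congr 1
      funext i
      exact vec_congr2 X e u ωa ωc I s s' E τ x y hxy i)
  rw [abs_le] at h2 h3 ⊢
  constructor <;> linarith [h2.1, h2.2, h3.1, h3.2]

lemma Aw2_good {K m : ℕ} {n : Fin 3 → ℕ} {Θ : MK K} {X : ℝ} {e u : W} {ωa ωc : ℕ} {I : Finset (Fin (m + 2))}
    {s s' : Fin (m + 2) → ℕ} {Q : Finset ℕ} {S : Finset (Fin (m + 2)) → Finset (Ct n)} {ε : ℝ} (h : Ds I Q S ε) (hε0 : 0 ≤ ε)
    (τ : Fin K → PP m n) (hτ : Gd I τ) (B : ℝ) (hB : 0 ≤ B)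
    (hb : ∀ (E : Finset (Fin (m + 2))) (x : Ct n), (∀ g i, x g i ∈ Q) → |Θ (fun i => vec X e u ωa ωc I s s' E x (τ i))| ≤ B) :
    |Aw2 Θ X e u ωa ωc I s s' S τ - (S ∅).card * Θ (fun i => vD X e u s s' (τ i))| ≤
      2 ^ (m + 2) * (ε * B * (S ∅).card) := by
  classical
  obtain ⟨g, g1, g2, g3, g4⟩ := gd_struct hτ
  have h1 : ∀ (E : Finset (Fin (m + 2))) (x : Ct n),
      Θ (fun i => vec X e u ωa ωc I s s' E x (τ i)) =
      Θ (fun i => if i ∈ Ju τ then u else if g i ∈ E then dd X e u (s' (g i)) else dd X e u (s (g i))) := by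
    intro E x
    congr 1
    funext i
    by_cases hi : i ∈ Ju τ
    · rw [if_pos hi, mem_Ju.1 hi]
      rfl
    · rw [if_neg hi, (g1 i hi).1]
      show (if g i ∈ I then dd X e u (ch E s s' (g i)) else 0) = _
      rw [if_pos (g1 i hi).2]
      unfold ch
      split_ifs <;> rfl
  obtain ⟨x0, hx0⟩ := h.ne
  have hx0' := h.mem ∅ (empty_subset _) x0 hx0
  have h2 := alt_sum2 Θ (Ju τ) (fun _ => u) (fun j => dd X e u (s (g j))) (fun j => dd X e u (s' (g j)))
  have h3 : Θ (fun i => vD X e u s s' (τ i)) =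
      Θ (fun j => if j ∈ Ju τ then u else dd X e u (s (g j)) - dd X e u (s' (g j))) := by
    congr 1
    funext i
    by_cases hi : i ∈ Ju τ
    · rw [if_pos hi, mem_Ju.1 hi]
      rfl
    · rw [if_neg hi, (g1 i hi).1]
      rfl
  have h4 : ∑ E ∈ (Ju τ)ᶜ.powerset, (-1 : ℝ) ^ E.card *
      Θ (fun j => if j ∈ Ju τ then u else if j ∈ E then dd X e u (s' (g j)) else dd X e u (s (g j))) =
      ∑ E ∈ I.powerset, (-1 : ℝ) ^ E.card *
      Θ (fun i => if i ∈ Ju τ then u else if g i ∈ E then dd X e u (s' (g i)) else dd X e u (s (g i))) := by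
    symm
    refine sum_nbij' (fun E => (Ju τ)ᶜ.filter (fun i => g i ∈ E)) (fun E' => E'.image g) ?_ ?_ ?_ ?_ ?_
    · intro E _
      exact mem_powerset.2 (filter_subset _ _)
    · intro E' hE'
      rw [mem_powerset] at hE' ⊢
      rw [← g3]
      exact image_subset_image hE'
    · intro E hE
      rw [mem_powerset] at hE
      ext j
      rw [mem_image]
      constructor
      · rintro ⟨i, hi, rfl⟩
        exact (mem_filter.1 hi).2
      · intro hj
        have h5 := hE hj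
        rw [← g3, mem_image] at h5
        obtain ⟨i, hi, rfl⟩ := h5
        exact ⟨i, mem_filter.2 ⟨hi, hj⟩, rfl⟩
    · intro E' hE'
      rw [mem_powerset] at hE'
      ext i
      rw [mem_filter, mem_image]
      constructor
      · rintro ⟨hi, i', hi', h5⟩
        have h6 := g2 (by exact_mod_cast (hE' hi')) (by exact_mod_cast hi) h5
        rw [← h6]
        exact hi'
      · intro hi
        exact ⟨hE' hi, i, hi, rfl⟩
    · intro E hE
      rw [mem_powerset] at hE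
      have h5 : ((Ju τ)ᶜ.filter (fun i => g i ∈ E)).image g = E := by
        ext j
        rw [mem_image]
        constructor
        · rintro ⟨i, hi, rfl⟩
          exact (mem_filter.1 hi).2
        · intro hj
          have h5 := hE hj
          rw [← g3, mem_image] at h5
          obtain ⟨i, hi, rfl⟩ := h5
          exact ⟨i, mem_filter.2 ⟨hi, hj⟩, rfl⟩
      have h6 : E.card = ((Ju τ)ᶜ.filter (fun i => g i ∈ E)).card := by
        conv_lhs => rw [← h5]
        apply card_image_of_injOn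
        intro a ha b hb hab
        have ha' := (mem_filter.1 (by exact_mod_cast ha : a ∈ (Ju τ)ᶜ.filter (fun i => g i ∈ E))).1
        have hb' := (mem_filter.1 (by exact_mod_cast hb : b ∈ (Ju τ)ᶜ.filter (fun i => g i ∈ E))).1
        exact g2 (by exact_mod_cast ha') (by exact_mod_cast hb') hab
      rw [h6]
      congr 2
      funext i
      by_cases hi : i ∈ Ju τ
      · simp [hi]
      · have h7 : (i ∈ (Ju τ)ᶜ.filter (fun i => g i ∈ E)) ↔ g i ∈ E := by
          rw [mem_filter]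
          exact ⟨fun h => h.2, fun h => ⟨by simpa using hi, h⟩⟩
        simp only [hi, if_false, h7]
  rw [h3, ← h2, h4, mul_sum]
  unfold Aw2
  simp only [h1, sum_const, nsmul_eq_mul]
  rw [← sum_sub_distrib]
  refine (abs_sum_le_sum_abs _ _).trans ?_
  have h4 : ∀ E ∈ I.powerset, |(-1 : ℝ) ^ E.card * (((S E).card : ℝ) *
      Θ (fun i => if i ∈ Ju τ then u else if g i ∈ E then dd X e u (s' (g i)) else dd X e u (s (g i)))) -
      (S ∅).card * ((-1 : ℝ) ^ E.card * Θ (fun i => if i ∈ Ju τ then u else if g i ∈ E then dd X e u (s' (g i)) else dd X e u (s (g i))))| ≤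
      ε * B * (S ∅).card := by
    intro E hE
    have h5 := card_tr h E (mem_powerset.1 hE)
    have h6 := hb E x0 hx0'
    rw [h1] at h6
    have h7 : (-1 : ℝ) ^ E.card * (((S E).card : ℝ) *
      Θ (fun i => if i ∈ Ju τ then u else if g i ∈ E then dd X e u (s' (g i)) else dd X e u (s (g i)))) -
      (S ∅).card * ((-1 : ℝ) ^ E.card * Θ (fun i => if i ∈ Ju τ then u else if g i ∈ E then dd X e u (s' (g i)) else dd X e u (s (g i)))) =
      (-1 : ℝ) ^ E.card * ((((S E).card : ℝ) - (S ∅).card) *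
        Θ (fun i => if i ∈ Ju τ then u else if g i ∈ E then dd X e u (s' (g i)) else dd X e u (s (g i)))) := by ring
    rw [h7, abs_mul, abs_pow, abs_neg, abs_one, one_pow, one_mul, abs_mul]
    calc |((S E).card : ℝ) - (S ∅).card| * |Θ (fun i => if i ∈ Ju τ then u else if g i ∈ E then dd X e u (s' (g i)) else dd X e u (s (g i)))|
        ≤ (ε * (S ∅).card) * B := mul_le_mul h5 h6 (abs_nonneg _) (by positivity)
      _ = _ := by ring
  refine (sum_le_card_nsmul _ _ _ h4).trans ?_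
  rw [nsmul_eq_mul]
  exact mul_le_mul_of_nonneg_right (powcard _) (by positivity)

lemma total2 {K m : ℕ} {n : Fin 3 → ℕ} (Θ : MK K) (ty : Fin K → Bool) (la lb : ℝ) (X : ℝ) (e u : W) (ωa ωc : ℕ)
    (I Cc : Finset (Fin (m + 2))) (s s' : Fin (m + 2) → ℕ) (S : Finset (Fin (m + 2)) → Finset (Ct n)) :
    ∑ τ : Fin K → PP m n, (∏ i, cg la lb I Cc (ty i) (τ i)) * Aw2 Θ X e u ωa ωc I s s' S τ =
      ∑ E ∈ I.powerset, (-1 : ℝ) ^ E.card * ∑ x ∈ S E,
        Θ (fun i => ∑ κ : PP m n, cg la lb I Cc (ty i) κ • vec X e u ωa ωc I s s' E x κ) := by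
  classical
  have h1 : ∀ (E : Finset (Fin (m + 2))) (x : Ct n),
      Θ (fun i => ∑ κ : PP m n, cg la lb I Cc (ty i) κ • vec X e u ωa ωc I s s' E x κ) =
      ∑ τ : Fin K → PP m n, (∏ i, cg la lb I Cc (ty i) (τ i)) * Θ (fun i => vec X e u ωa ωc I s s' E x (τ i)) := by
    intro E x
    rw [MultilinearMap.map_sum]
    refine sum_congr rfl fun τ _ => ?_
    rw [MultilinearMap.map_smul_univ, smul_eq_mul]
  unfold Aw2
  simp only [h1]
  simp_rw [mul_sum]
  rw [sum_comm]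
  refine sum_congr rfl fun E _ => ?_
  rw [sum_comm]
  refine sum_congr rfl fun x _ => ?_
  refine sum_congr rfl fun τ _ => ?_
  ring

end

end Pool.Agent.J4.H60.GQ
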