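import Pool.Agent.J4.H60.GQ.C2

/-! Project GQ (helper22), piece ISO2 (helper60): the main inequality -/

set_option autoImplicit false
set_option linter.all false

namespace Pool.Agent.J4.H60.GQ

open Finset Pool.Agent.J4.H22.GQ

noncomputable section

open Classical in
/-- the sum over the good words -/
def Gs {K m : ℕ} (n : Fin 3 → ℕ) (Θ : MK K) (ty : Fin K → Bool) (la lb : ℝ) (X : ℝ) (e u : W) (I Cc : Finset (Fin (m + 2)))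
    (s s' : Fin (m + 2) → ℕ) : ℝ :=
  ∑ τ ∈ univ.filter (fun τ : Fin K → PP m n => Gd I τ), (∏ i, cg la lb I Cc (ty i) (τ i)) * Θ (fun i => vD X e u s s' (τ i))

lemma core2 {K m : ℕ} {n : Fin 3 → ℕ} {Ω P Q : Finset ℕ} {I Cc : Finset (Fin (m + 2))} {s s' : Fin (m + 2) → ℕ}
    {ωa ωc : ℕ} (hK : K ≤ m + 2) (hD : Da Ω P I s s' ωa ωc) (hQP : Q ⊆ P) (Θ : MK K) (ty : Fin K → Bool) {X : ℝ} {e u : W}
    (la lb Λ : ℝ) (hΛ : 1 ≤ Λ) (hla : |la| ≤ Λ) (hlb : |lb| ≤ Λ)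
    (N b : ℝ) (hN0 : 0 ≤ N) (hb0 : 0 ≤ b)
    (hN : ∀ (J : Finset (Fin K)) (p : Fin K → ℕ), (∀ i, p i ∈ P) → |Θ (ta X e u J p)| ≤ N)
    (hb : ∀ (J : Finset (Fin K)) (p : Fin K → ℕ), I.card + J.card < K → (∀ i, p i ∈ P) → |Θ (ta X e u J p)| ≤ b)
    {S : Finset (Fin (m + 2)) → Finset (Ct n)} {ε : ℝ} (hε0 : 0 ≤ ε) (hε1 : ε ≤ 1) (hS : Ds I Q S ε) (q : ℝ)
    (hq : (Fintype.card (PP m n) : ℝ) ≤ q) :
    |∑ E ∈ I.powerset, (-1 : ℝ) ^ E.card * ∑ x ∈ S E,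
        Θ (fun i => ∑ κ : PP m n, cg la lb I Cc (ty i) κ • vec X e u ωa ωc I s s' E x κ) -
      (S ∅).card * Gs n Θ ty la lb X e u I Cc s s'| ≤
      (S ∅).card * (ε * N * (3 * (2 ^ (m + 2) * (q * (Λ * ((Ω.card : ℝ) + 3)) + 1) ^ (m + 2))) +
        b * (2 * (2 ^ (m + 2) * (q * (Λ * ((Ω.card : ℝ) + 3)) + 1) ^ (m + 2)))) := by
  classical
  have hΩ : (0 : ℝ) ≤ Ω.card := Nat.cast_nonneg _
  have hΛ0 : (0 : ℝ) ≤ Λ := by linarith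
  obtain ⟨K1, hK1⟩ : ∃ K1 : ℝ, K1 = ((Ω.card : ℝ) + 3) ^ K := ⟨_, rfl⟩
  have hK10 : 0 ≤ K1 := by rw [hK1]; positivity
  obtain ⟨k, hk⟩ : ∃ k : ℝ, k = (Fintype.card (PP m n) : ℝ) := ⟨_, rfl⟩
  have hk0 : 0 ≤ k := by rw [hk]; positivity
  have hq0 : 0 ≤ q := by rw [← hk] at hq; linarith
  obtain ⟨z, hz⟩ : ∃ z : ℝ, z = ((S ∅).card : ℝ) := ⟨_, rfl⟩
  have hz0 : 0 < z := by
    rw [hz]
    exact_mod_cast hS.ne.card_pos
  obtain ⟨A, hA⟩ : ∃ A : (Fin K → PP m n) → ℝ, A = fun τ => Aw2 Θ X e u ωa ωc I s s' S τ := ⟨_, rfl⟩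
  obtain ⟨c, hc⟩ : ∃ c : (Fin K → PP m n) → ℝ, c = fun τ => ∏ i, cg la lb I Cc (ty i) (τ i) := ⟨_, rfl⟩
  obtain ⟨V, hV⟩ : ∃ V : (Fin K → PP m n) → ℝ, V = fun τ => Θ (fun i => vD X e u s s' (τ i)) := ⟨_, rfl⟩
  obtain ⟨Y, hY⟩ : ∃ Y : ℝ, Y = q ^ K * (Λ ^ K * K1) := ⟨_, rfl⟩
  obtain ⟨C1, hC1⟩ : ∃ C1 : ℝ, C1 = (q * (Λ * ((Ω.card : ℝ) + 3)) + 1) ^ (m + 2) := ⟨_, rfl⟩
  have hYC : Y ≤ C1 := by
    rw [hY, hK1, hC1, ← mul_pow, ← mul_pow]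
    have h0 : 0 ≤ q * (Λ * ((Ω.card : ℝ) + 3)) := by positivity
    calc (q * (Λ * ((Ω.card : ℝ) + 3))) ^ K ≤ (q * (Λ * ((Ω.card : ℝ) + 3)) + 1) ^ K :=
          pow_le_pow_left₀ h0 (by linarith) _
      _ ≤ _ := pow_le_pow_right₀ (by linarith) hK
  have hY0 : 0 ≤ Y := by rw [hY]; positivity
  have hc1 : ∀ τ, |c τ| ≤ Λ ^ K := by
    intro τ
    rw [hc]
    simp only []
    rw [abs_prod]
    calc ∏ i, |cg la lb I Cc (ty i) (τ i)| ≤ ∏ _i : Fin K, Λ :=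
          prod_le_prod (fun _ _ => abs_nonneg _) fun i _ => cg_le la lb Λ hΛ hla hlb _ _ _ _
      _ = Λ ^ K := by simp
  have hwords : ((univ : Finset (Fin K → PP m n)).card : ℝ) = k ^ K := by
    rw [card_univ, Fintype.card_fun, Fintype.card_fin, hk]
    push_cast
    rfl
  have hkq : k ^ K ≤ q ^ K := pow_le_pow_left₀ hk0 (by rw [hk]; exact hq) _
  have hwN : ∀ (τ : Fin K → PP m n) (E : Finset (Fin (m + 2))) (x : Ct n), (∀ g i, x g i ∈ Q) →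
      |Θ (fun i => vec X e u ωa ωc I s s' E x (τ i))| ≤ N * K1 := fun τ E x hx => by
    rw [hK1]
    exact word_bd2 hD E x (fun g l => hQP (hx g l)) τ N hN0 (hN _)
  have hout : ∀ τ, ¬ Gd I τ → |A τ| ≤ 2 ^ (m + 2) * (2 * z * (b * K1)) + 2 ^ (m + 2) * (2 * ε * (N * K1) * z) := by
    intro τ hτ
    have e1 : 0 ≤ 2 ^ (m + 2) * (2 * z * (b * K1)) := by positivity
    have e2 : 0 ≤ 2 ^ (m + 2) * (2 * ε * (N * K1) * z) := by positivity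
    by_cases h1 : K ≤ (Ju τ).card + I.card
    · have h2 : ∃ j, j ∈ I ∧ ∀ i, τ i ≠ Sum.inr (Sum.inl j) := by
        by_contra hne
        push Not at hne
        exact hτ ⟨hne, h1⟩
      obtain ⟨j, hj, hj2⟩ := h2
      have h3 := Aw2_miss hK hS hε0 τ (N * K1) (by positivity) (hwN τ) j hj hj2
      rw [hA]
      rw [← hz] at h3
      linarith
    · have h2 := Aw2_crude hS hε1 τ (b * K1) (by positivity) (fun E x hx => by
        rw [hK1]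
        exact word_bd2 hD E x (fun g l => hQP (hx g l)) τ b hb0 fun p hp => hb _ p (by omega) hp)
      rw [hA]
      rw [← hz] at h2
      linarith
  have hin : ∀ τ, Gd I τ → |A τ - z * V τ| ≤ 2 ^ (m + 2) * (ε * (N * K1) * z) := by
    intro τ hτ
    have h1 := Aw2_good hS hε0 τ hτ (N * K1) (by positivity) (fun E x hx => hwN _ E x hx)
    rw [hA, hV, hz]
    exact h1
  have hsplit : ∑ τ, c τ * A τ - z * ∑ τ ∈ univ.filter (fun τ : Fin K → PP m n => Gd I τ), c τ * V τ =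
      ∑ τ ∈ univ.filter (fun τ : Fin K → PP m n => ¬ Gd I τ), c τ * A τ +
        ∑ τ ∈ univ.filter (fun τ : Fin K → PP m n => Gd I τ), c τ * (A τ - z * V τ) := by
    have h1 := sum_filter_add_sum_filter_not (univ : Finset (Fin K → PP m n)) (fun τ => Gd I τ) (fun τ => c τ * A τ)
    rw [← h1, mul_sum]
    have h2 : ∑ τ ∈ univ.filter (fun τ : Fin K → PP m n => Gd I τ), c τ * (A τ - z * V τ) =
        ∑ τ ∈ univ.filter (fun τ : Fin K → PP m n => Gd I τ), c τ * A τ -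
        ∑ τ ∈ univ.filter (fun τ : Fin K → PP m n => Gd I τ), z * (c τ * V τ) := by
      rw [← sum_sub_distrib]
      refine sum_congr rfl fun τ _ => ?_
      ring
    rw [h2]
    ring
  have hsub : ∀ F : Finset (Fin K → PP m n), (F.card : ℝ) ≤ q ^ K := by
    intro F
    refine le_trans ?_ hkq
    rw [← hwords]
    exact_mod_cast card_le_univ F
  have hs1 : |∑ τ ∈ univ.filter (fun τ : Fin K → PP m n => ¬ Gd I τ), c τ * A τ| ≤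
      q ^ K * (Λ ^ K * (2 ^ (m + 2) * (2 * z * (b * K1)) + 2 ^ (m + 2) * (2 * ε * (N * K1) * z))) := by
    refine (abs_sum_le_sum_abs _ _).trans ?_
    refine (sum_le_card_nsmul _ _ (Λ ^ K * (2 ^ (m + 2) * (2 * z * (b * K1)) + 2 ^ (m + 2) * (2 * ε * (N * K1) * z))) fun τ hτ => ?_).trans ?_
    · rw [abs_mul]
      exact mul_le_mul (hc1 τ) (hout τ (mem_filter.1 hτ).2) (abs_nonneg _) (by positivity)
    · rw [nsmul_eq_mul]
      exact mul_le_mul_of_nonneg_right (hsub _) (by positivity)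
  have hs2 : |∑ τ ∈ univ.filter (fun τ : Fin K → PP m n => Gd I τ), c τ * (A τ - z * V τ)| ≤
      q ^ K * (Λ ^ K * (2 ^ (m + 2) * (ε * (N * K1) * z))) := by
    refine (abs_sum_le_sum_abs _ _).trans ?_
    refine (sum_le_card_nsmul _ _ (Λ ^ K * (2 ^ (m + 2) * (ε * (N * K1) * z))) fun τ hτ => ?_).trans ?_
    · rw [abs_mul]
      exact mul_le_mul (hc1 τ) (hin τ (mem_filter.1 hτ).2) (abs_nonneg _) (by positivity)
    · rw [nsmul_eq_mul]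
      exact mul_le_mul_of_nonneg_right (hsub _) (by positivity)
  have h0 := total2 Θ ty la lb X e u ωa ωc I Cc s s' S
  rw [← h0]
  have hgoal : ∑ τ : Fin K → PP m n, (∏ i, cg la lb I Cc (ty i) (τ i)) * Aw2 Θ X e u ωa ωc I s s' S τ -
      (S ∅).card * Gs n Θ ty la lb X e u I Cc s s' =
      ∑ τ, c τ * A τ - z * ∑ τ ∈ univ.filter (fun τ : Fin K → PP m n => Gd I τ), c τ * V τ := by
    rw [hc, hV, hA, hz]
    unfold Gs
    rfl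
  rw [hgoal, hsplit, ← hC1, ← hz]
  refine (abs_add_le _ _).trans ((add_le_add hs1 hs2).trans ?_)
  have h5 : q ^ K * (Λ ^ K * (2 ^ (m + 2) * (2 * z * (b * K1)) + 2 ^ (m + 2) * (2 * ε * (N * K1) * z))) +
      q ^ K * (Λ ^ K * (2 ^ (m + 2) * (ε * (N * K1) * z))) = Y * (2 ^ (m + 2) * (z * (3 * ε * N + 2 * b))) := by
    rw [hY]
    ring
  rw [h5]
  calc Y * (2 ^ (m + 2) * (z * (3 * ε * N + 2 * b))) ≤ C1 * (2 ^ (m + 2) * (z * (3 * ε * N + 2 * b))) :=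
        mul_le_mul_of_nonneg_right hYC (by positivity)
    _ = _ := by ring

/-- the type `b` only at `0` -/
def ty0 {m : ℕ} : Fin (m + 2) → Bool := fun i => decide (i = 0)

/-- **the main inequality** -/
lemma main2 {m : ℕ} {n : Fin 3 → ℕ} {Ω P Q : Finset ℕ} {I Cc : Finset (Fin (m + 2))} {s s' : Fin (m + 2) → ℕ}
    {ωa ωc : ℕ} (hD : Da Ω P I s s' ωa ωc) (hCI : Cc ⊆ I) (hQP : Q ⊆ P) (hQ0 : 0 ∉ Q) {Φ : ML m} {L : ℕ → ℝ → ℝ}
    {Ψ : ∀ r : ℕ, MP m r} (hRl : Rl2 Φ L Ψ) {X : ℝ} {e u : W}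
    (la lb Λ : ℝ) (hΛ : 1 ≤ Λ) (hla : |la| ≤ Λ) (hlb : |lb| ≤ Λ) (lr : ℕ → ℝ) (hlr : ∀ r ∈ Od (m + 2), |lr r| ≤ Λ)
    (N b : ℝ) (hN0 : 0 ≤ N) (hb0 : 0 ≤ b)
    (hN : ∀ (J : Finset (Fin (m + 2))) (p : Fin (m + 2) → ℕ), (∀ i, p i ∈ P) → |Φ (ta X e u J p)| ≤ N)
    (hN' : ∀ r ∈ Od (m + 2), ∀ (J : Finset (Fin (m + 2 - r))) (p : Fin (m + 2 - r) → ℕ), (∀ i, p i ∈ P) →
      |Ψ r (ta X e u J p)| ≤ N)
    (hb : ∀ (J : Finset (Fin (m + 2))) (p : Fin (m + 2) → ℕ), I.card + J.card < m + 2 → (∀ i, p i ∈ P) →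
      |Φ (ta X e u J p)| ≤ b)
    (hb' : ∀ r ∈ Od (m + 2), ∀ (J : Finset (Fin (m + 2 - r))) (p : Fin (m + 2 - r) → ℕ), I.card + J.card < m + 2 - r →
      (∀ i, p i ∈ P) → |Ψ r (ta X e u J p)| ≤ b)
    {S : Finset (Fin (m + 2)) → Finset (Ct n)} {ε : ℝ} (hε0 : 0 ≤ ε) (hε1 : ε ≤ 1) (hS : Ds I Q S ε)
    (hrel : ∀ E, E ⊆ I → ∀ x ∈ S E, ∃ a b c : ℕ,
      a = ωa * (∏ i ∈ I \ Cc, ch E s s' i) * ∏ l, x 0 l ∧ b = ∏ l, x 1 l ∧
      c = ωc * (∏ i ∈ Cc, ch E s s' i) * ∏ l, x 2 l ∧ a + b = c ∧ cS X a = cS X c ∧ cS X b = cS X c ∧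
      |Real.log a - Real.log c - la| ≤ ε ∧ |Real.log b - Real.log c - lb| ≤ ε ∧
      ∀ r ∈ Od (m + 2), |L r ((a : ℝ) / c) - lr r| ≤ ε) (q : ℝ)
    (hq : (Fintype.card (PP m n) : ℝ) ≤ q) (M C0 : ℝ) (hM : M = ((Od (m + 2)).card : ℝ))
    (hC0 : C0 = 2 ^ (m + 2) * (q * (Λ * ((Ω.card : ℝ) + 3)) + 1) ^ (m + 2)) :
    |Gs n Φ ty0 la lb X e u I Cc s s' +
      ∑ r ∈ Od (m + 2), lr r * Gs n (Ψ r) (fun _ => false) la lb X e u I Cc s s'| ≤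
      ε * N * (2 ^ (m + 2) * (2 * (C0 * (1 + M * Λ + M))) + 3 * C0 * (1 + M * Λ)) + b * (2 * C0 * (1 + M * Λ)) := by
  classical
  have hΩ : (0 : ℝ) ≤ Ω.card := Nat.cast_nonneg _
  have hΛ0 : (0 : ℝ) ≤ Λ := by linarith
  have hM0 : 0 ≤ M := by rw [hM]; positivity
  have hq0 : 0 ≤ q := le_trans (Nat.cast_nonneg _) hq
  obtain ⟨H, hH⟩ : ∃ H : ℝ, H = q * (Λ * ((Ω.card : ℝ) + 3)) + 1 := ⟨_, rfl⟩
  have hH1 : 1 ≤ H := by
    rw [hH]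
    have : 0 ≤ q * (Λ * ((Ω.card : ℝ) + 3)) := by positivity
    linarith
  have hC00 : 0 ≤ C0 := by
    rw [hC0, ← hH]
    positivity
  obtain ⟨z, hz⟩ : ∃ z : ℝ, z = ((S ∅).card : ℝ) := ⟨_, rfl⟩
  have hz0 : 0 < z := by
    rw [hz]
    exact_mod_cast hS.ne.card_pos
  obtain ⟨aΦ, haΦ⟩ : ∃ aΦ : Finset (Fin (m + 2)) → Ct n → ℝ, aΦ = fun E x =>
      Φ (fun i => ∑ κ : PP m n, cg la lb I Cc (ty0 i) κ • vec X e u ωa ωc I s s' E x κ) := ⟨_, rfl⟩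
  obtain ⟨aΨ, haΨ⟩ : ∃ aΨ : ℕ → Finset (Fin (m + 2)) → Ct n → ℝ, aΨ = fun r E x =>
      Ψ r (fun i => ∑ κ : PP m n, cg la lb I Cc false κ • vec X e u ωa ωc I s s' E x κ) := ⟨_, rfl⟩
  have hcΦ := core2 (Cc := Cc) le_rfl hD hQP Φ ty0 (X := X) (e := e) (u := u) la lb Λ hΛ hla hlb N b hN0 hb0 hN hb hε0 hε1 hS q hq
  have hcΨ : ∀ r ∈ Od (m + 2), _ := fun r hr => core2 (Cc := Cc) (Nat.sub_le (m + 2) r) hD hQP (Ψ r) (fun _ => false) (X := X)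
    (e := e) (u := u) la lb Λ hΛ hla hlb N b hN0 hb0 (hN' r hr) (hb' r hr) hε0 hε1 hS q hq
  rw [← hC0, ← hz] at hcΦ
  -- one solution
  have hone : ∀ E, E ⊆ I → ∀ x ∈ S E, |aΦ E x + ∑ r ∈ Od (m + 2), lr r * aΨ r E x| ≤ ε * N * (C0 * (1 + M * Λ + M)) := by
    intro E hE x hx
    obtain ⟨a, b', c, ha, hb', hc, habc, h1, h2, h3, h4, h5⟩ := hrel E hE x hx
    have hxQ := hS.mem E hE x hx
    have hx0 : ∀ g l, x g l ≠ 0 := fun g l h0 => hQ0 (h0 ▸ hxQ g l)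
    have hch : ∀ i ∈ I, ch E s s' i ≠ 0 := by
      intro i hi
      unfold ch
      split_ifs
      · exact (hD.s0 i hi).2
      · exact (hD.s0 i hi).1
    have ha0 : 0 < a := by
      rw [ha]
      exact Nat.pos_of_ne_zero (mul_ne_zero (mul_ne_zero hD.a0 (prod_ne_zero_iff.2 fun j hj => hch j (mem_sdiff.1 hj).1))
        (prod_ne_zero_iff.2 fun l _ => hx0 0 l))
    have hb0' : 0 < b' := by
      rw [hb']
      exact Nat.pos_of_ne_zero (prod_ne_zero_iff.2 fun l _ => hx0 1 l)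
    have hR := hRl a b' c ha0 hb0' habc
    have hHq : (Fintype.card (PP m n) : ℝ) * (Λ * ((Ω.card : ℝ) + 3)) + 1 ≤ H := by
      rw [hH]
      have := mul_le_mul_of_nonneg_right hq (show (0 : ℝ) ≤ Λ * ((Ω.card : ℝ) + 3) by positivity)
      linarith
    have hHq0 : 0 ≤ (Fintype.card (PP m n) : ℝ) * (Λ * ((Ω.card : ℝ) + 3)) + 1 := by positivity
    have hpow : ∀ K, K ≤ m + 2 → ((Fintype.card (PP m n) : ℝ) * (Λ * ((Ω.card : ℝ) + 3)) + 1) ^ K ≤ H ^ (m + 2) := by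
      intro K hK
      exact (pow_le_pow_left₀ hHq0 hHq K).trans (pow_le_pow_right₀ hH1 hK)
    have h2K : ∀ K, K ≤ m + 2 → (2 : ℝ) ^ K * ((Fintype.card (PP m n) : ℝ) * (Λ * ((Ω.card : ℝ) + 3)) + 1) ^ K ≤ C0 := by
      intro K hK
      rw [hC0, ← hH]
      exact mul_le_mul (pow_le_pow_right₀ (by norm_num) hK) (hpow K hK) (by positivity) (by positivity)
    have hHC : H ^ (m + 2) ≤ C0 := by
      rw [hC0, ← hH]
      have h6 : (1 : ℝ) ≤ 2 ^ (m + 2) := one_le_pow₀ (by norm_num)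
      have h7 : 0 ≤ H ^ (m + 2) := by positivity
      nlinarith
    -- Φ
    have hΦ := rel2 hD hCI Φ ty0 (X := X) (e := e) (u := u) N hN0 hN E x (fun g l => hQP (hxQ g l)) hx0 ε hε0 hε1 la lb Λ hΛ hla hlb
      a b' c ha hb' hc h1 h2 h3 h4
    have hΨ : ∀ r ∈ Od (m + 2), _ := fun r hr => rel2 hD hCI (Ψ r) (fun _ => false) (X := X) (e := e) (u := u) N hN0 (hN' r hr)
      E x (fun g l => hQP (hxQ g l)) hx0 ε hε0 hε1 la lb Λ hΛ hla hlb a b' c ha hb' hc h1 h2 h3 h4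
    obtain ⟨eΦ, heΦ⟩ : ∃ eΦ : ℝ, eΦ = Φ (fun i => if ty0 i then vc b' - vc c else vc a - vc c) := ⟨_, rfl⟩
    obtain ⟨eΨ, heΨ⟩ : ∃ eΨ : ℕ → ℝ, eΨ = fun r => Ψ r (fun i => vc a - vc c) := ⟨_, rfl⟩
    have hΦ1 : |aΦ E x - eΦ| ≤ ε * N * C0 := by
      rw [haΦ, heΦ]
      refine hΦ.1.trans ?_
      calc _ ≤ ε * C0 * N := mul_le_mul_of_nonneg_right (mul_le_mul_of_nonneg_left (h2K _ le_rfl) hε0) hN0
        _ = _ := by ring
    have hΨ1 : ∀ r ∈ Od (m + 2), |aΨ r E x - eΨ r| ≤ ε * N * C0 := by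
      intro r hr
      have h6 := (hΨ r hr).1
      simp only [Bool.false_eq_true, if_false] at h6
      rw [haΨ, heΨ]
      refine h6.trans ?_
      calc _ ≤ ε * C0 * N := mul_le_mul_of_nonneg_right (mul_le_mul_of_nonneg_left (h2K _ (Nat.sub_le _ _)) hε0) hN0
        _ = _ := by ring
    have hΨ2 : ∀ r ∈ Od (m + 2), |eΨ r| ≤ N * C0 := by
      intro r hr
      have h6 := (hΨ r hr).2
      simp only [Bool.false_eq_true, if_false] at h6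
      rw [heΨ]
      refine h6.trans ?_
      rw [mul_comm]
      exact mul_le_mul_of_nonneg_left ((hpow _ (Nat.sub_le _ _)).trans hHC) hN0
    have hR2 : eΦ + ∑ r ∈ Od (m + 2), L r ((a : ℝ) / c) * eΨ r = 0 := by
      rw [← hR, heΦ, heΨ]
      congr 2
      funext i
      refine Fin.cases ?_ (fun j => ?_) i
      · simp [ty0]
      · have : (Fin.succ j : Fin (m + 2)) ≠ 0 := Fin.succ_ne_zero j
        simp [ty0, this]
    have h6 : aΦ E x + ∑ r ∈ Od (m + 2), lr r * aΨ r E x = (aΦ E x - eΦ) + ∑ r ∈ Od (m + 2), (lr r * (aΨ r E x - eΨ r) -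
        (L r ((a : ℝ) / c) - lr r) * eΨ r) := by
      have h7 : ∑ r ∈ Od (m + 2), (lr r * (aΨ r E x - eΨ r) - (L r ((a : ℝ) / c) - lr r) * eΨ r) =
          ∑ r ∈ Od (m + 2), lr r * aΨ r E x - ∑ r ∈ Od (m + 2), L r ((a : ℝ) / c) * eΨ r := by
        rw [← sum_sub_distrib]
        refine sum_congr rfl fun r _ => ?_
        ring
      rw [h7]
      linarith
    rw [h6]
    refine (abs_add_le _ _).trans ?_
    have h8 : |∑ r ∈ Od (m + 2), (lr r * (aΨ r E x - eΨ r) - (L r ((a : ℝ) / c) - lr r) * eΨ r)| ≤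
        M * (Λ * (ε * N * C0) + ε * (N * C0)) := by
      refine (abs_sum_le_sum_abs _ _).trans ?_
      refine (sum_le_card_nsmul _ _ (Λ * (ε * N * C0) + ε * (N * C0)) fun r hr => ?_).trans ?_
      · refine (abs_sub _ _).trans ?_
        rw [abs_mul, abs_mul]
        exact add_le_add (mul_le_mul (hlr r hr) (hΨ1 r hr) (abs_nonneg _) hΛ0)
          (mul_le_mul (h5 r hr) (hΨ2 r hr) (abs_nonneg _) hε0)
      · rw [nsmul_eq_mul, hM]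
    refine (add_le_add hΦ1 h8).trans (le_of_eq ?_)
    ring
  -- all solutions
  obtain ⟨TΦ, hTΦ⟩ : ∃ TΦ : ℝ, TΦ = ∑ E ∈ I.powerset, (-1 : ℝ) ^ E.card * ∑ x ∈ S E, aΦ E x := ⟨_, rfl⟩
  obtain ⟨TΨ, hTΨ⟩ : ∃ TΨ : ℕ → ℝ, TΨ = fun r => ∑ E ∈ I.powerset, (-1 : ℝ) ^ E.card * ∑ x ∈ S E, aΨ r E x := ⟨_, rfl⟩
  have hall : |TΦ + ∑ r ∈ Od (m + 2), lr r * TΨ r| ≤ 2 ^ (m + 2) * (2 * z * (ε * N * (C0 * (1 + M * Λ + M)))) := by
    have h1 : TΦ + ∑ r ∈ Od (m + 2), lr r * TΨ r = ∑ E ∈ I.powerset, (-1 : ℝ) ^ E.card * ∑ x ∈ S E,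
        (aΦ E x + ∑ r ∈ Od (m + 2), lr r * aΨ r E x) := by
      rw [hTΦ, hTΨ]
      simp only [mul_sum, sum_add_distrib, mul_add]
      congr 1
      rw [sum_comm]
      refine sum_congr rfl fun E _ => ?_
      rw [sum_comm]
      refine sum_congr rfl fun x _ => ?_
      refine sum_congr rfl fun r _ => ?_
      ring
    rw [h1]
    refine (abs_sum_le_sum_abs _ _).trans ?_
    have h2 : ∀ E ∈ I.powerset, |(-1 : ℝ) ^ E.card * ∑ x ∈ S E, (aΦ E x + ∑ r ∈ Od (m + 2), lr r * aΨ r E x)| ≤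
        2 * z * (ε * N * (C0 * (1 + M * Λ + M))) := by
      intro E hE
      rw [mem_powerset] at hE
      rw [abs_mul, abs_pow, abs_neg, abs_one, one_pow, one_mul]
      refine (abs_sum_le_sum_abs _ _).trans ?_
      refine (sum_le_card_nsmul _ _ _ fun x hx => hone E hE x hx).trans ?_
      rw [nsmul_eq_mul, hz]
      exact mul_le_mul_of_nonneg_right (card_le2 hS hε1 E hE) (by positivity)
    refine (sum_le_card_nsmul _ _ _ h2).trans ?_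
    rw [nsmul_eq_mul]
    exact mul_le_mul_of_nonneg_right (powcard _) (by positivity)
  obtain ⟨GΦ, hGΦ⟩ : ∃ GΦ : ℝ, GΦ = Gs n Φ ty0 la lb X e u I Cc s s' := ⟨_, rfl⟩
  obtain ⟨GΨ, hGΨ⟩ : ∃ GΨ : ℕ → ℝ, GΨ = fun r => Gs n (Ψ r) (fun _ => false) la lb X e u I Cc s s' := ⟨_, rfl⟩
  have hc1 : |TΦ - z * GΦ| ≤ z * (ε * N * (3 * C0) + b * (2 * C0)) := by
    rw [hTΦ, hGΦ, haΦ]
    exact hcΦ
  have hc2 : ∀ r ∈ Od (m + 2), |TΨ r - z * GΨ r| ≤ z * (ε * N * (3 * C0) + b * (2 * C0)) := by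
    intro r hr
    have h1 := hcΨ r hr
    rw [← hC0, ← hz] at h1
    rw [hTΨ, hGΨ, haΨ]
    exact h1
  have hgoal : Gs n Φ ty0 la lb X e u I Cc s s' +
      ∑ r ∈ Od (m + 2), lr r * Gs n (Ψ r) (fun _ => false) la lb X e u I Cc s s' = GΦ + ∑ r ∈ Od (m + 2), lr r * GΨ r := by
    rw [hGΦ, hGΨ]
  rw [hgoal]
  have h1 : z * (GΦ + ∑ r ∈ Od (m + 2), lr r * GΨ r) = (TΦ + ∑ r ∈ Od (m + 2), lr r * TΨ r) - (TΦ - z * GΦ) -
      ∑ r ∈ Od (m + 2), lr r * (TΨ r - z * GΨ r) := by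
    have h2 : ∑ r ∈ Od (m + 2), lr r * (TΨ r - z * GΨ r) = ∑ r ∈ Od (m + 2), lr r * TΨ r -
        z * ∑ r ∈ Od (m + 2), lr r * GΨ r := by
      rw [mul_sum, ← sum_sub_distrib]
      refine sum_congr rfl fun r _ => ?_
      ring
    rw [h2]
    ring
  have h2 : |∑ r ∈ Od (m + 2), lr r * (TΨ r - z * GΨ r)| ≤ M * (Λ * (z * (ε * N * (3 * C0) + b * (2 * C0)))) := by
    refine (abs_sum_le_sum_abs _ _).trans ?_
    refine (sum_le_card_nsmul _ _ (Λ * (z * (ε * N * (3 * C0) + b * (2 * C0)))) fun r hr => ?_).trans ?_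
    · rw [abs_mul]
      exact mul_le_mul (hlr r hr) (hc2 r hr) (abs_nonneg _) hΛ0
    · rw [nsmul_eq_mul, hM]
  have hfin : z * |GΦ + ∑ r ∈ Od (m + 2), lr r * GΨ r| ≤ z * (ε * N * (2 ^ (m + 2) * (2 * (C0 * (1 + M * Λ + M))) +
      3 * C0 * (1 + M * Λ)) + b * (2 * C0 * (1 + M * Λ))) := by
    have h3 : z * |GΦ + ∑ r ∈ Od (m + 2), lr r * GΨ r| = |z * (GΦ + ∑ r ∈ Od (m + 2), lr r * GΨ r)| := by
      rw [abs_mul, abs_of_pos hz0]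
    rw [h3, h1]
    refine (abs_sub _ _).trans ((add_le_add ((abs_sub _ _).trans (add_le_add hall hc1)) h2).trans (le_of_eq ?_))
    ring
  exact le_of_mul_le_mul_left hfin hz0

end

end Pool.Agent.J4.H60.GQ
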