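import Pool.Agent.J4.H60.GQ.A5

/-! Project GQ (helper22), piece ISO (helper60) -/

set_option autoImplicit false
set_option linter.all false

namespace Pool.Agent.J4.H60.GQ

open Finset Pool.Agent.J4.H22.GQ

noncomputable section

/-- the constant of the good words -/
def cst {m : ℕ} (J0 Cc : Finset (Fin (m + 2))) (j : Fin (m + 2)) : ℝ :=
  if j ∈ J0 then -Real.log 2 else if j ∈ Cc then -1 else 1

lemma cst_ge {m : ℕ} (J0 Cc : Finset (Fin (m + 2))) : (1 / 2 : ℝ) ^ (m + 2) ≤ |∏ j, cst J0 Cc j| := by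
  rw [abs_prod]
  have h1 : ∏ _j : Fin (m + 2), (1 / 2 : ℝ) ≤ ∏ j, |cst J0 Cc j| := by
    refine prod_le_prod (fun _ _ => by norm_num) fun j _ => ?_
    have h2 : (1 / 2 : ℝ) ≤ Real.log 2 := by
      have := Real.log_two_gt_d9
      linarith
    unfold cst
    split_ifs
    · rw [abs_neg, abs_of_nonneg (by linarith)]
      exact h2
    · norm_num
    · norm_num
  simpa using h1

lemma cf_spx {m : ℕ} {n : Fin 3 → ℕ} (J0 Cc : Finset (Fin (m + 2))) (hCI : Cc ⊆ J0ᶜ) (i j : Fin (m + 2)) :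
    cf J0ᶜ Cc i (spx J0 j : PP m n) = if j ∈ J0 then -Real.log 2 else if j ∈ Cc then -1 else if i = 0 then 0 else 1 := by
  by_cases hj : j ∈ J0
  · rw [spx_in hj, if_pos hj]
    rfl
  · rw [spx_out hj, if_neg hj]
    show (if j ∈ Cc then (-1 : ℝ) else if j ∈ J0ᶜ then (if i = 0 then 0 else 1) else 0) = _
    have : j ∈ J0ᶜ := by simpa using hj
    simp [this]

lemma coef_good {m : ℕ} {n : Fin 3 → ℕ} (J0 Cc : Finset (Fin (m + 2))) (hCI : Cc ⊆ J0ᶜ) (π : Equiv.Perm (Fin (m + 2)))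
    (h : π 0 ∈ J0 ∨ π 0 ∈ Cc) :
    ∏ i, cf J0ᶜ Cc i ((spx J0 ∘ π : Fin (m + 2) → PP m n) i) = ∏ j, cst J0 Cc j := by
  rw [← Equiv.prod_comp π (cst J0 Cc)]
  refine prod_congr rfl fun i _ => ?_
  rw [Function.comp_apply, cf_spx J0 Cc hCI]
  unfold cst
  by_cases hi : i = 0
  · subst hi
    rcases h with h | h
    · simp [h]
    · simp [h]
  · simp [hi]

lemma coef_bad {m : ℕ} {n : Fin 3 → ℕ} (J0 Cc : Finset (Fin (m + 2))) (hCI : Cc ⊆ J0ᶜ) (π : Equiv.Perm (Fin (m + 2)))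
    (h : π 0 ∉ J0) (h' : π 0 ∉ Cc) :
    ∏ i, cf J0ᶜ Cc i ((spx J0 ∘ π : Fin (m + 2) → PP m n) i) = 0 := by
  apply prod_eq_zero (mem_univ 0)
  rw [Function.comp_apply, cf_spx J0 Cc hCI]
  simp [h, h']

lemma sy_perm {m : ℕ} {Φ : ML m} (hSy : Sy Φ) (v : Fin (m + 2) → W) (π : Equiv.Perm (Fin (m + 2))) :
    Φ (v ∘ π) = Φ (v ∘ Equiv.swap 0 (π 0)) := by
  have h1 := hSy ((π : Equiv.Perm (Fin (m + 2))).trans (Equiv.swap 0 (π 0))) (v ∘ Equiv.swap 0 (π 0)) (by simp)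
  rw [← h1]
  congr 1
  funext i
  simp

lemma tp_swap {m : ℕ} (X : ℝ) (e u : W) (J0 : Finset (Fin (m + 2))) (s s' : Fin (m + 2) → ℕ) (j : Fin (m + 2))
    (h0 : 0 ∈ J0) (hj : j ∈ J0) : Tp X e u J0 s s' ∘ Equiv.swap 0 j = Tp X e u J0 s s' := by
  funext i
  rw [Function.comp_apply]
  by_cases hi0 : i = 0
  · subst hi0
    rw [Equiv.swap_apply_left]
    simp [Tp, h0, hj]
  · by_cases hij : i = j
    · subst hij
      rw [Equiv.swap_apply_right]
      simp [Tp, h0, hj]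
    · rw [Equiv.swap_apply_of_ne_of_ne hi0 hij]

lemma spx_swap {m : ℕ} {n : Fin 3 → ℕ} (J0 : Finset (Fin (m + 2))) (j k : Fin (m + 2)) (h0 : (0 : Fin (m + 2)) ∉ J0) (hj : j ∉ J0) :
    Equiv.swap (Sum.inr (Sum.inl 0) : PP m n) (Sum.inr (Sum.inl j)) (spx J0 k) = spx J0 (Equiv.swap 0 j k) := by
  by_cases hk0 : k = 0
  · subst hk0
    rw [spx_out h0, Equiv.swap_apply_left, Equiv.swap_apply_left, spx_out hj]
  · by_cases hkj : k = j
    · subst hkj
      rw [spx_out hj, Equiv.swap_apply_right, Equiv.swap_apply_right, spx_out h0]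
    · rw [Equiv.swap_apply_of_ne_of_ne hk0 hkj]
      apply Equiv.swap_apply_of_ne_of_ne
      · intro h
        exact hk0 (spx_eq_inr.1 h).2
      · intro h
        exact hkj (spx_eq_inr.1 h).2

open Classical in
/-- the number of the good words with the special number `j` at the place `0` -/
def M1 {m : ℕ} (n : Fin 3 → ℕ) (J0 : Finset (Fin (m + 2))) (j : Fin (m + 2)) : ℕ :=
  (univ.filter (fun τ : Fin (m + 2) → PP m n => Th n J0 τ ∧ τ 0 = Sum.inr (Sum.inl j))).card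

lemma M1_eq {m : ℕ} (n : Fin 3 → ℕ) (J0 : Finset (Fin (m + 2))) (j : Fin (m + 2)) (h0 : 0 ∉ J0) (hj : j ∉ J0) :
    M1 n J0 j = M1 n J0 0 := by
  classical
  unfold M1
  obtain ⟨ψ, hψ⟩ : ∃ ψ : Equiv.Perm (PP m n), ψ = Equiv.swap (Sum.inr (Sum.inl 0) : PP m n) (Sum.inr (Sum.inl j)) := ⟨_, rfl⟩
  have hinv : ∀ κ, ψ (ψ κ) = κ := by
    intro κ
    rw [hψ]
    exact Equiv.swap_apply_self _ _ _
  have hTh : ∀ τ, Th n J0 τ → Th n J0 (fun i => ψ (τ i)) := by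
    rintro τ ⟨π, rfl⟩
    refine ⟨π.trans (Equiv.swap 0 j), ?_⟩
    funext i
    rw [hψ]
    simp only [Function.comp_apply, Equiv.trans_apply]
    exact spx_swap J0 j (π i) h0 hj
  refine card_nbij' (fun τ i => ψ (τ i)) (fun τ i => ψ (τ i)) ?_ ?_ ?_ ?_
  · intro τ hτ
    simp only [coe_filter, mem_univ, true_and, Set.mem_setOf_eq] at hτ ⊢
    refine ⟨hTh τ hτ.1, ?_⟩
    rw [hτ.2, hψ, Equiv.swap_apply_right]
  · intro τ hτ
    simp only [coe_filter, mem_univ, true_and, Set.mem_setOf_eq] at hτ ⊢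
    refine ⟨hTh τ hτ.1, ?_⟩
    rw [hτ.2, hψ, Equiv.swap_apply_left]
  · intro τ _
    funext i
    exact hinv _
  · intro τ _
    funext i
    exact hinv _

lemma M1_pos {m : ℕ} (n : Fin 3 → ℕ) (J0 : Finset (Fin (m + 2))) (h0 : 0 ∉ J0) : 1 ≤ M1 n J0 0 := by
  classical
  unfold M1
  apply Finset.card_pos.2
  refine ⟨spx J0, ?_⟩
  rw [mem_filter]
  exact ⟨mem_univ _, ⟨Equiv.refl _, by funext i; rfl⟩, spx_out h0⟩

open Classical in
/-- the sum over the good words, `0 ∈ J0` -/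
lemma sum_one {m : ℕ} {n : Fin 3 → ℕ} {Φ : ML m} (hSy : Sy Φ) (X : ℝ) (e u : W) (J0 : Finset (Fin (m + 2)))
    (s s' : Fin (m + 2) → ℕ) (h0 : 0 ∈ J0) :
    |Φ (Tp X e u J0 s s')| ≤ 2 ^ (m + 2) * |∑ τ ∈ univ.filter (fun τ : Fin (m + 2) → PP m n => Th n J0 τ),
      (∏ i, cf J0ᶜ ∅ i (τ i)) * Φ (fun i => vD X e u s s' (τ i))| := by
  obtain ⟨F, hF⟩ : ∃ F : Finset (Fin (m + 2) → PP m n), F = univ.filter (fun τ => Th n J0 τ ∧ τ 0 = Sum.inl 0) := ⟨_, rfl⟩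
  have h1 : ∑ τ ∈ univ.filter (fun τ : Fin (m + 2) → PP m n => Th n J0 τ),
      (∏ i, cf J0ᶜ ∅ i (τ i)) * Φ (fun i => vD X e u s s' (τ i)) =
      ∑ τ ∈ F, (∏ j, cst J0 ∅ j) * Φ (Tp X e u J0 s s') := by
    have hsub : F ⊆ univ.filter (fun τ : Fin (m + 2) → PP m n => Th n J0 τ) := by
      intro τ hτ
      rw [hF, mem_filter] at hτ
      exact mem_filter.2 ⟨mem_univ _, hτ.2.1⟩
    rw [← sum_subset hsub]
    · refine sum_congr rfl fun τ hτ => ?_
      rw [hF, mem_filter] at hτ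
      obtain ⟨-, ⟨π, rfl⟩, h2⟩ := hτ
      have h3 : π 0 ∈ J0 := spx_eq_inl.1 h2
      rw [coef_good J0 ∅ (empty_subset _) π (Or.inl h3), vD_spx, sy_perm hSy, tp_swap X e u J0 s s' _ h0 h3]
    · intro τ hτ hτF
      obtain ⟨π, rfl⟩ := (mem_filter.1 hτ).2
      have h3 : π 0 ∉ J0 := by
        intro h
        apply hτF
        rw [hF, mem_filter]
        exact ⟨mem_univ _, ⟨π, rfl⟩, spx_in h⟩
      rw [coef_bad J0 ∅ (empty_subset _) π h3 (notMem_empty _), zero_mul]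
  have hF1 : 1 ≤ F.card := by
    apply Finset.card_pos.2
    refine ⟨spx J0, ?_⟩
    rw [hF, mem_filter]
    exact ⟨mem_univ _, ⟨Equiv.refl _, by funext i; rfl⟩, spx_in h0⟩
  rw [h1, sum_const, nsmul_eq_mul, abs_mul, abs_mul, Nat.abs_cast]
  have h2 := cst_ge J0 (∅ : Finset (Fin (m + 2)))
  have h3 : (1 : ℝ) ≤ F.card := by exact_mod_cast hF1
  have h4 : (1 : ℝ) = 2 ^ (m + 2) * (1 / 2) ^ (m + 2) := by
    rw [← mul_pow]
    norm_num
  calc |Φ (Tp X e u J0 s s')| = (2 ^ (m + 2) * (1 / 2) ^ (m + 2)) * (1 * |Φ (Tp X e u J0 s s')|) := by rw [← h4]; ring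
    _ ≤ (2 ^ (m + 2) * |∏ j, cst J0 ∅ j|) * (F.card * |Φ (Tp X e u J0 s s')|) := by
        apply mul_le_mul
        · exact mul_le_mul_of_nonneg_left h2 (by positivity)
        · exact mul_le_mul_of_nonneg_right h3 (abs_nonneg _)
        · positivity
        · positivity
    _ = _ := by ring

open Classical in
/-- the sum over the good words, `0 ∉ J0` -/
lemma sum_two {m : ℕ} {n : Fin 3 → ℕ} {Φ : ML m} (hSy : Sy Φ) (X : ℝ) (e u : W) (J0 Cc : Finset (Fin (m + 2)))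
    (hCI : Cc ⊆ J0ᶜ) (s s' : Fin (m + 2) → ℕ) (h0 : 0 ∈ Cc) (B q : ℝ) (hB : 0 ≤ B) (hq : (Fintype.card (PP m n) : ℝ) ≤ q)
    (hb : ∀ π : Equiv.Perm (Fin (m + 2)), π 0 ∈ J0 → |Φ (Tp X e u J0 s s' ∘ π)| ≤ B) :
    |∑ j ∈ Cc, Φ (Tp X e u J0 s s' ∘ Equiv.swap 0 j)| ≤ 2 ^ (m + 2) *
      (|∑ τ ∈ univ.filter (fun τ : Fin (m + 2) → PP m n => Th n J0 τ),
      (∏ i, cf J0ᶜ Cc i (τ i)) * Φ (fun i => vD X e u s s' (τ i))| + q ^ (m + 2) * B) := by
  have h00 : (0 : Fin (m + 2)) ∉ J0 := by simpa using hCI h0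
  obtain ⟨g, hg⟩ : ∃ g : (Fin (m + 2) → PP m n) → ℝ, g = fun τ => (∏ i, cf J0ᶜ Cc i (τ i)) * Φ (fun i => vD X e u s s' (τ i)) :=
    ⟨_, rfl⟩
  obtain ⟨T, hT⟩ : ∃ T : Finset (Fin (m + 2) → PP m n), T = univ.filter (fun τ => Th n J0 τ) := ⟨_, rfl⟩
  have hgT : ∑ τ ∈ univ.filter (fun τ : Fin (m + 2) → PP m n => Th n J0 τ),
      (∏ i, cf J0ᶜ Cc i (τ i)) * Φ (fun i => vD X e u s s' (τ i)) = ∑ τ ∈ T, g τ := by rw [hT, hg]
  rw [hgT]
  have hval : ∀ τ ∈ T, ∃ j, τ 0 = spx J0 j := by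
    intro τ hτ
    rw [hT, mem_filter] at hτ
    obtain ⟨π, rfl⟩ := hτ.2
    exact ⟨π 0, rfl⟩
  have h1 : ∑ τ ∈ T, g τ = ∑ τ ∈ T.filter (fun τ => τ 0 = Sum.inl 0), g τ +
      ∑ j : Fin (m + 2), ∑ τ ∈ T.filter (fun τ => τ 0 = Sum.inr (Sum.inl j)), g τ := by
    rw [← sum_fiberwise T (fun τ => τ 0) g, Fintype.sum_sum_type, Fintype.sum_sum_type, Fin.sum_univ_three]
    have e1 : ∀ κ : PP m n, (∀ j, spx J0 j ≠ κ) → ∑ τ ∈ T.filter (fun τ => τ 0 = κ), g τ = 0 := by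
      intro κ hκ
      rw [filter_eq_empty_iff.2, sum_empty]
      intro τ hτ h
      obtain ⟨j, hj⟩ := hval τ hτ
      exact hκ j (hj.symm.trans h)
    have e2 : ∑ τ ∈ T.filter (fun τ => τ 0 = Sum.inl 1), g τ = 0 := by
      apply e1
      intro j
      unfold spx
      split_ifs <;> simp
    have e3 : ∑ τ ∈ T.filter (fun τ => τ 0 = Sum.inl 2), g τ = 0 := by
      apply e1
      intro j
      unfold spx
      split_ifs <;> simp
    have e4 : ∑ t : (g : Fin 3) × Fin (n g), ∑ τ ∈ T.filter (fun τ => τ 0 = Sum.inr (Sum.inr t)), g τ = 0 := by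
      refine sum_eq_zero fun t _ => ?_
      apply e1
      intro j
      unfold spx
      split_ifs <;> simp
    rw [e2, e3, e4]
    ring
  have h2 : ∑ j : Fin (m + 2), ∑ τ ∈ T.filter (fun τ => τ 0 = Sum.inr (Sum.inl j)), g τ =
      ∑ j ∈ Cc, (M1 n J0 0 : ℝ) * ((∏ j, cst J0 Cc j) * Φ (Tp X e u J0 s s' ∘ Equiv.swap 0 j)) := by
    rw [← sum_subset (subset_univ Cc)]
    · refine sum_congr rfl fun j hj => ?_
      have hj0 : j ∉ J0 := by simpa using hCI hj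
      have h3 : ∀ τ ∈ T.filter (fun τ => τ 0 = Sum.inr (Sum.inl j)),
          g τ = (∏ j, cst J0 Cc j) * Φ (Tp X e u J0 s s' ∘ Equiv.swap 0 j) := by
        intro τ hτ
        rw [hT, mem_filter, mem_filter] at hτ
        obtain ⟨⟨-, π, rfl⟩, h4⟩ := hτ
        have h5 : π 0 = j := (spx_eq_inr.1 h4).2
        rw [hg]
        simp only []
        rw [coef_good J0 Cc hCI π (Or.inr (by rw [h5]; exact hj)), vD_spx, sy_perm hSy, h5]
      rw [sum_congr rfl h3, sum_const, nsmul_eq_mul]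
      congr 1
      rw [← M1_eq n J0 j h00 hj0]
      unfold M1
      rw [hT, filter_filter]
    · intro j _ hj
      refine sum_eq_zero fun τ hτ => ?_
      rw [hT, mem_filter, mem_filter] at hτ
      obtain ⟨⟨-, π, rfl⟩, h4⟩ := hτ
      have h5 := spx_eq_inr.1 h4
      rw [hg]
      simp only []
      rw [coef_bad J0 Cc hCI π h5.1 (by rw [h5.2]; exact hj), zero_mul]
  have h3 : |∑ τ ∈ T.filter (fun τ => τ 0 = Sum.inl 0), g τ| ≤ q ^ (m + 2) * B := by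
    refine (abs_sum_le_sum_abs _ _).trans ?_
    have h4 : ∀ τ ∈ T.filter (fun τ => τ 0 = Sum.inl 0), |g τ| ≤ B := by
      intro τ hτ
      rw [hT, mem_filter, mem_filter] at hτ
      obtain ⟨⟨-, π, rfl⟩, h5⟩ := hτ
      have h6 : π 0 ∈ J0 := spx_eq_inl.1 h5
      rw [hg]
      simp only []
      rw [vD_spx, abs_mul]
      have h7 : |∏ i, cf J0ᶜ Cc i ((spx J0 ∘ π : Fin (m + 2) → PP m n) i)| ≤ 1 := by
        rw [abs_prod]
        exact prod_le_one (fun _ _ => abs_nonneg _) fun i _ => cf_le _ _ i _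
      calc _ ≤ 1 * B := mul_le_mul h7 (hb π h6) (abs_nonneg _) zero_le_one
        _ = B := one_mul B
    refine (sum_le_card_nsmul _ _ _ h4).trans ?_
    rw [nsmul_eq_mul]
    apply mul_le_mul_of_nonneg_right _ hB
    calc ((T.filter (fun τ => τ 0 = Sum.inl 0)).card : ℝ) ≤ ((univ : Finset (Fin (m + 2) → PP m n)).card : ℝ) := by
          exact_mod_cast card_le_univ _
      _ = (Fintype.card (PP m n) : ℝ) ^ (m + 2) := by
          rw [card_univ, Fintype.card_fun, Fintype.card_fin]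
          push_cast
          rfl
      _ ≤ q ^ (m + 2) := pow_le_pow_left₀ (Nat.cast_nonneg _) hq _
  obtain ⟨Z, hZ⟩ : ∃ Z : ℝ, Z = ∑ j ∈ Cc, Φ (Tp X e u J0 s s' ∘ Equiv.swap 0 j) := ⟨_, rfl⟩
  have h4 : (M1 n J0 0 : ℝ) * ((∏ j, cst J0 Cc j) * Z) = ∑ τ ∈ T, g τ - ∑ τ ∈ T.filter (fun τ => τ 0 = Sum.inl 0), g τ := by
    rw [h1, h2, hZ, mul_sum, mul_sum]
    ring
  rw [← hZ]
  have h5 : (1 : ℝ) ≤ M1 n J0 0 := by exact_mod_cast M1_pos n J0 h00
  have h6 := cst_ge J0 Cc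
  have h7 : (1 : ℝ) = 2 ^ (m + 2) * (1 / 2) ^ (m + 2) := by
    rw [← mul_pow]
    norm_num
  calc |Z| = (2 ^ (m + 2) * (1 / 2) ^ (m + 2)) * (1 * |Z|) := by rw [← h7]; ring
    _ ≤ (2 ^ (m + 2) * |∏ j, cst J0 Cc j|) * (M1 n J0 0 * |Z|) := by
        apply mul_le_mul
        · exact mul_le_mul_of_nonneg_left h6 (by positivity)
        · exact mul_le_mul_of_nonneg_right h5 (abs_nonneg _)
        · positivity
        · positivity
    _ = 2 ^ (m + 2) * |(M1 n J0 0 : ℝ) * ((∏ j, cst J0 Cc j) * Z)| := by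
        rw [abs_mul, abs_mul, Nat.abs_cast]
        ring
    _ ≤ _ := by
        rw [h4]
        apply mul_le_mul_of_nonneg_left _ (by positivity)
        refine (abs_sub _ _).trans ?_
        linarith

lemma len_prod (Ω : Finset ℕ) (hΩ : ∀ p ∈ Ω, p.Prime) : (∏ p ∈ Ω, p).primeFactorsList.length = Ω.card := by
  classical
  induction Ω using Finset.induction_on with
  | empty => simp
  | insert a s ha ih =>
    have h1 : ∀ p ∈ s, p.Prime := fun p hp => hΩ p (mem_insert_of_mem hp)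
    have h2 := hΩ a (mem_insert_self a s)
    rw [prod_insert ha, card_insert_of_notMem ha,
      (Nat.perm_primeFactorsList_mul h2.ne_zero (prod_ne_zero_iff.2 fun p hp => (h1 p hp).ne_zero)).length_eq,
      List.length_append, ih h1, Nat.primeFactorsList_prime h2]
    simp
    omega

theorem iso (hBND : S_BND) (hCFG : S_CFG) : S_ISO := by
  classical
  intro m Ω hΩ h2 C hC
  obtain ⟨B', hB'⟩ := hCFG m Ω hΩ h2 C hC
  refine ⟨B', fun η hη => ?_⟩
  obtain ⟨D, hD⟩ := hB' η hη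
  -- the constants
  obtain ⟨q, hq⟩ : ∃ q : ℝ, q = 3 + (m + 2) + 3 * D := ⟨_, rfl⟩
  have hq0 : 0 ≤ q := by rw [hq]; positivity
  obtain ⟨K1, hK1⟩ : ∃ K1 : ℝ, K1 = (2 ^ (m + 2) * (3 * q ^ (m + 2) * ((Ω.card : ℝ) + 3) ^ (m + 2) +
        2 * (2 ^ (m + 2) * (q * ((Ω.card : ℝ) + 3) + 1) ^ (m + 2)))) := ⟨_, rfl⟩
  obtain ⟨K2, hK2⟩ : ∃ K2 : ℝ, K2 = (2 ^ (m + 2) * (2 * q ^ (m + 2) * ((Ω.card : ℝ) + 3) ^ (m + 2))) := ⟨_, rfl⟩
  obtain ⟨K3, hK3⟩ : ∃ K3 : ℝ, K3 = q ^ (m + 2) * (2 * ((Ω.card : ℝ) + 3)) ^ (m + 2) := ⟨_, rfl⟩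
  have hK10 : 0 ≤ K1 := by rw [hK1]; positivity
  have hK20 : 0 ≤ K2 := by rw [hK2]; positivity
  have hK30 : 0 ≤ K3 := by rw [hK3]; positivity
  refine ⟨2 ^ (m + 2) * (K2 + K3), by positivity, fun ε hε => ?_⟩
  obtain ⟨ε1, hε1⟩ : ∃ ε1 : ℝ, ε1 = min 1 (ε / (2 ^ (m + 2) * K1 + 1)) := ⟨_, rfl⟩
  have hε10 : 0 < ε1 := by
    rw [hε1]
    exact lt_min one_pos (by positivity)
  have hε11 : ε1 ≤ 1 := by rw [hε1]; exact min_le_left _ _
  have hε1b : 2 ^ (m + 2) * (ε1 * K1) ≤ ε := by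
    have h1 : ε1 ≤ ε / (2 ^ (m + 2) * K1 + 1) := by rw [hε1]; exact min_le_right _ _
    rw [le_div_iff₀ (by positivity)] at h1
    nlinarith
  obtain ⟨G, X0, hG⟩ := hD ε1 hε10
  refine ⟨G, X0, fun X hX R hR Φ hSy hRl e u N b hN0 hb0 hN J0 hb s s' hpair => ?_⟩
  have hPQ : PR R X (C * X) ⊆ Pr Ω R C X := subset_union_right
  have hQ0 : 0 ∉ PR R X (C * X) := by
    intro h
    unfold PR at h
    rw [mem_filter] at h
    exact h.2.1.ne_zero rfl
  -- the main inequality for a set `Cc`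
  have hmain : ∀ Cc : Finset (Fin (m + 2)), Cc ⊆ J0ᶜ →
      (∀ i ∈ Cc, ∀ j ∈ J0ᶜ, j ∉ Cc → Nat.Coprime (s i * s' i) (s j * s' j)) →
      ∃ n : Fin 3 → ℕ, (Fintype.card (PP m n) : ℝ) ≤ q ∧
      |∑ τ ∈ univ.filter (fun τ : Fin (m + 2) → PP m n => Th n J0 τ),
      (∏ i, cf J0ᶜ Cc i (τ i)) * Φ (fun i => vD X e u s s' (τ i))| ≤ ε1 * N * K1 + b * K2 := by
    intro Cc hCI hcop
    obtain ⟨ωa, ωc, n, S, hω, hn, hne, hrel, htr⟩ := hG X hX R hR J0ᶜ Cc hCI s s' (fun i hi => hpair i (by simpa using hi)) hcop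
    have hω0 : ωa * ωc ≠ 0 := by
      rw [hω]
      exact prod_ne_zero_iff.2 fun p hp => (hΩ p hp).ne_zero
    have ha0 := left_ne_zero_of_mul hω0
    have hc0 := right_ne_zero_of_mul hω0
    have hlen := len_prod Ω hΩ
    rw [← hω, (Nat.perm_primeFactorsList_mul ha0 hc0).length_eq, List.length_append] at hlen
    have hdiv : ∀ p : ℕ, p.Prime → p ∣ ωa * ωc → p ∈ Pr Ω R C X := by
      intro p hp hpd
      rw [hω] at hpd
      obtain ⟨r, hr, hpr⟩ := (hp.prime.dvd_finset_prod_iff _).1 hpd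
      rw [(Nat.prime_dvd_prime_iff_eq hp (hΩ r hr)).1 hpr]
      exact mem_union_left _ hr
    have hDa : Da Ω (Pr Ω R C X) J0ᶜ s s' ωa ωc := by
      refine ⟨mem_union_left _ h2, ha0, hc0, fun p hp hpd => hdiv p hp (hpd.mul_right _),
        fun p hp hpd => hdiv p hp (hpd.mul_left _), by omega, by omega, ?_, ?_, ?_⟩
      · intro i hi p hp hpd
        exact (hpair i (by simpa using hi)).pr p hp hpd
      · intro i hi
        exact ⟨(hpair i (by simpa using hi)).pos.ne', (hpair i (by simpa using hi)).pos'.ne'⟩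
      · intro i hi
        exact ⟨(hpair i (by simpa using hi)).len, (hpair i (by simpa using hi)).len'⟩
    have hcard : (Fintype.card (PP m n) : ℝ) ≤ q := by
      have h3 : Fintype.card (PP m n) = 3 + ((m + 2) + (n 0 + n 1 + n 2)) := by
        rw [Fintype.card_sum, Fintype.card_sum, Fintype.card_sigma, Fin.sum_univ_three]
        simp
      rw [h3, hq]
      have h4 : ((n 0 + n 1 + n 2 : ℕ) : ℝ) ≤ 3 * D := by
        have := hn 0
        have := hn 1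
        have := hn 2
        have h5 : n 0 + n 1 + n 2 ≤ 3 * D := by omega
        exact_mod_cast h5
      push_cast at h4 ⊢
      linarith
    refine ⟨n, hcard, ?_⟩
    have hDs : Ds J0ᶜ (PR R X (C * X)) S ε1 :=
      ⟨hne, fun E hE x hx => (hrel E hE x hx).1, fun E hE T hT f hf hf2 => htr E hE T hT f hf hf2⟩
    have h6 := core hBND hDa hCI hPQ hQ0 hRl N b hN0 hb0 hN (fun J p hJ hp => hb J p hJ hp) hε10.le hε11 hDs
      (fun E hE x hx => (hrel E hE x hx).2) q hcard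
    rw [← hK1, ← hK2] at h6
    exact h6
  refine ⟨fun h0 => ?_, fun h0 b' hb'0 hb' Cc h0C hdis hcop => ?_⟩
  · obtain ⟨n, hcard, h3⟩ := hmain ∅ (empty_subset _) (fun i hi => absurd hi (notMem_empty i))
    refine (sum_one (n := n) hSy X e u J0 s s' h0).trans ?_
    have h4 : 2 ^ (m + 2) * (ε1 * N * K1 + b * K2) ≤ 2 ^ (m + 2) * (K2 + K3) * b + ε * N := by
      have h5 : 2 ^ (m + 2) * (ε1 * N * K1) ≤ ε * N := by
        calc (2 : ℝ) ^ (m + 2) * (ε1 * N * K1) = (2 ^ (m + 2) * (ε1 * K1)) * N := by ring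
          _ ≤ ε * N := mul_le_mul_of_nonneg_right hε1b hN0
      have h6 : 0 ≤ 2 ^ (m + 2) * K3 * b := by positivity
      nlinarith
    exact (mul_le_mul_of_nonneg_left h3 (by positivity)).trans h4
  · have hCI : Cc ⊆ J0ᶜ := by
      intro i hi
      rw [mem_compl]
      exact Finset.disjoint_left.1 hdis hi
    obtain ⟨n, hcard, h3⟩ := hmain Cc hCI (fun i hi j hj hjC => hcop i hi j hjC (by simpa using hj))
    have hΩ0 : (0 : ℝ) ≤ Ω.card := Nat.cast_nonneg _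
    have h4 := sum_two (n := n) hSy X e u J0 Cc hCI s s' h0C (b' * (2 * ((Ω.card : ℝ) + 3)) ^ (m + 2)) q (by positivity) hcard ?_
    · refine h4.trans ?_
      have h5 : 2 ^ (m + 2) * (ε1 * N * K1) ≤ ε * N := by
        calc (2 : ℝ) ^ (m + 2) * (ε1 * N * K1) = (2 ^ (m + 2) * (ε1 * K1)) * N := by ring
          _ ≤ ε * N := mul_le_mul_of_nonneg_right hε1b hN0
      have h6 : q ^ (m + 2) * (b' * (2 * ((Ω.card : ℝ) + 3)) ^ (m + 2)) = b' * K3 := by
        rw [hK3]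
        ring
      rw [h6]
      have h7 : 0 ≤ 2 ^ (m + 2) * K3 * b := by positivity
      have h8 : 0 ≤ 2 ^ (m + 2) * K2 * b' := by positivity
      have h9 : 2 ^ (m + 2) * (|∑ τ ∈ univ.filter (fun τ : Fin (m + 2) → PP m n => Th n J0 τ),
          (∏ i, cf J0ᶜ Cc i (τ i)) * Φ (fun i => vD X e u s s' (τ i))| + b' * K3) ≤
          2 ^ (m + 2) * ((ε1 * N * K1 + b * K2) + b' * K3) :=
        mul_le_mul_of_nonneg_left (by linarith) (by positivity)
      refine h9.trans ?_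
      nlinarith
    · intro π hπ
      have hPr2 : 2 ∈ Pr Ω R C X := mem_union_left _ h2
      refine bT hBND Φ hPr2 (univ.filter (fun i => π i ∈ J0)) b' hb'0 (fun p hp => hb' _ p ?_ ?_ hp) _ (by linarith) _ ?_ ?_
      · rw [← card_map π.toEmbedding]
        congr 1
        ext i
        simp only [mem_map, mem_filter, mem_univ, true_and, Equiv.coe_toEmbedding]
        constructor
        · rintro ⟨k, hk, rfl⟩
          exact hk
        · intro hi
          exact ⟨π.symm i, by simpa using hi, by simp⟩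
      · exact mem_filter.2 ⟨mem_univ _, hπ⟩
      · intro i hi
        have := (mem_filter.1 hi).2
        simp [Tp, this]
      · intro i hi
        have hi' : π i ∉ J0 := fun h => hi (mem_filter.2 ⟨mem_univ _, h⟩)
        rw [Function.comp_apply]
        unfold Tp
        rw [if_neg hi']
        have hp := hpair (π i) hi'
        have e1 : Cb (dd X e u '' (Pr Ω R C X : Set ℕ)) 3 (dd X e u (s (π i))) := by
          refine cb_mono (cb_dd X e u _ (s (π i)) hp.pos.ne' fun p hpp hpd => hp.pr p hpp (hpd.mul_right _)) ?_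
          exact_mod_cast hp.len
        have e2 : Cb (dd X e u '' (Pr Ω R C X : Set ℕ)) 3 (dd X e u (s' (π i))) := by
          refine cb_mono (cb_dd X e u _ (s' (π i)) hp.pos'.ne' fun p hpp hpd => hp.pr p hpp (hpd.mul_left _)) ?_
          exact_mod_cast hp.len'
        have e3 := cb_add e1 (cb_smul (-1) e2)
        have e4 : dd X e u (s (π i)) + (-1 : ℝ) • dd X e u (s' (π i)) = dd X e u (s (π i)) - dd X e u (s' (π i)) := by module
        rw [e4] at e3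
        refine cb_mono e3 ?_
        rw [abs_neg, abs_one]
        linarith

end

end Pool.Agent.J4.H60.GQ
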