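import Pool.Agent.J4.H60.GQ.C3
import Pool.Agent.J4.H60.GQ.ISO

/-! Project GQ (helper22), piece ISO3 (helper60): the sums over the good words -/

set_option autoImplicit false
set_option linter.all false

namespace Pool.Agent.J4.H60.GQ

open Finset Pool.Agent.J4.H22.GQ

noncomputable section

lemma val_eq {K m : ℕ} {n : Fin 3 → ℕ} {Θ : MK K} (hS : Sy2 Θ) {I : Finset (Fin (m + 2))} {τ τ' : Fin K → PP m n}
    (h : Gd I τ) (h' : Gd I τ') (v : PP m n → W) : Θ (fun i => v (τ' i)) = Θ (fun i => v (τ i)) := by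
  obtain ⟨σ, rfl⟩ := gd_perm h h'
  exact hS σ (fun i => v (τ i))

lemma gd_perm1 {j m : ℕ} {n : Fin 3 → ℕ} {I : Finset (Fin (m + 2))} {τ τ' : Fin (j + 1) → PP m n} (h : Gd I τ) (h' : Gd I τ')
    (h0 : τ 0 = τ' 0) : ∃ σ : Equiv.Perm (Fin (j + 1)), σ 0 = 0 ∧ τ' = τ ∘ σ := by
  obtain ⟨σ, hσ⟩ := gd_perm h h'
  have h1 : τ (σ 0) = τ 0 := by
    rw [h0, hσ]
    rfl
  refine ⟨σ.trans (Equiv.swap 0 (σ 0)), by simp, ?_⟩
  funext i
  rw [hσ]
  simp only [Function.comp_apply, Equiv.trans_apply]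
  by_cases h2 : σ i = 0
  · rw [h2, Equiv.swap_apply_left, h1]
  · by_cases h3 : σ i = σ 0
    · rw [h3, Equiv.swap_apply_right, h1]
    · rw [Equiv.swap_apply_of_ne_of_ne h2 h3]

lemma val_eq0 {j m : ℕ} {n : Fin 3 → ℕ} {Φ : MW (j + 1)} (hSy : Sy3 Φ) {I : Finset (Fin (m + 2))} {τ τ' : Fin (j + 1) → PP m n}
    (h : Gd I τ) (h' : Gd I τ') (h0 : τ 0 = τ' 0) (v : PP m n → W) : Φ (fun i => v (τ' i)) = Φ (fun i => v (τ i)) := by
  obtain ⟨σ, h1, rfl⟩ := gd_perm1 h h' h0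
  exact hSy σ (fun i => v (τ i)) h1

/-- change of the slots -/
def Tr {m : ℕ} {n : Fin 3 → ℕ} (n' : Fin 3 → ℕ) : PP m n → PP m n' :=
  Sum.elim (fun κ => Sum.inl κ) (Sum.elim (fun j => Sum.inr (Sum.inl j)) (fun _ => Sum.inl 0))

lemma gd_val {K m : ℕ} {n : Fin 3 → ℕ} {I : Finset (Fin (m + 2))} {τ : Fin K → PP m n} (h : Gd I τ) (i : Fin K) :
    τ i = Sum.inl 0 ∨ ∃ j ∈ I, τ i = Sum.inr (Sum.inl j) := by
  obtain ⟨g, h1, h2, h3, h4⟩ := gd_struct h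
  by_cases hi : i ∈ Ju τ
  · exact Or.inl (mem_Ju.1 hi)
  · exact Or.inr ⟨g i, (h1 i hi).2, (h1 i hi).1⟩

lemma tr_ju {K m : ℕ} {n : Fin 3 → ℕ} (n' : Fin 3 → ℕ) {I : Finset (Fin (m + 2))} {τ : Fin K → PP m n} (h : Gd I τ) :
    Ju (fun i => Tr n' (τ i)) = Ju τ := by
  ext i
  rw [mem_Ju, mem_Ju]
  rcases gd_val h i with h1 | ⟨j, -, h1⟩
  · rw [h1]
    simp [Tr]
  · rw [h1]
    simp [Tr]

lemma tr_gd {K m : ℕ} {n : Fin 3 → ℕ} (n' : Fin 3 → ℕ) {I : Finset (Fin (m + 2))} {τ : Fin K → PP m n} (h : Gd I τ) :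
    Gd I (fun i => Tr n' (τ i)) := by
  refine ⟨fun j hj => ?_, ?_⟩
  · obtain ⟨i, hi⟩ := h.1 j hj
    exact ⟨i, by show Tr n' (τ i) = _; rw [hi]; rfl⟩
  · rw [tr_ju n' h]
    exact h.2

lemma tr_tr {K m : ℕ} {n : Fin 3 → ℕ} (n' : Fin 3 → ℕ) {I : Finset (Fin (m + 2))} {τ : Fin K → PP m n} (h : Gd I τ) (i : Fin K) :
    Tr n (Tr n' (τ i)) = τ i := by
  rcases gd_val h i with h1 | ⟨j, -, h1⟩
  · rw [h1]
    rfl
  · rw [h1]
    rfl

lemma tr_vD {K m : ℕ} {n : Fin 3 → ℕ} (n' : Fin 3 → ℕ) {I : Finset (Fin (m + 2))} {τ : Fin K → PP m n} (h : Gd I τ)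
    (X : ℝ) (e u : W) (s s' : Fin (m + 2) → ℕ) (i : Fin K) :
    vD X e u s s' (Tr n' (τ i)) = vD X e u s s' (τ i) := by
  rcases gd_val h i with h1 | ⟨j, -, h1⟩
  · rw [h1]
    rfl
  · rw [h1]
    rfl


lemma tr_cg {K m : ℕ} {n : Fin 3 → ℕ} (n' : Fin 3 → ℕ) {I : Finset (Fin (m + 2))} {τ : Fin K → PP m n} (h : Gd I τ)
    (la lb : ℝ) (Cc : Finset (Fin (m + 2))) (β : Bool) (i : Fin K) :
    cg la lb I Cc β (Tr n' (τ i)) = cg la lb I Cc β (τ i) := by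
  rcases gd_val h i with h1 | ⟨j, -, h1⟩
  · rw [h1]
    rfl
  · rw [h1]
    rfl

lemma gs_indep {K m : ℕ} {n : Fin 3 → ℕ} (n' : Fin 3 → ℕ) (Θ : MK K) (ty : Fin K → Bool) (la lb : ℝ) (X : ℝ) (e u : W)
    (I Cc : Finset (Fin (m + 2))) (s s' : Fin (m + 2) → ℕ) :
    Gs n Θ ty la lb X e u I Cc s s' = Gs n' Θ ty la lb X e u I Cc s s' := by
  classical
  unfold Gs
  refine sum_nbij' (fun τ i => Tr n' (τ i)) (fun τ i => Tr n (τ i)) ?_ ?_ ?_ ?_ ?_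
  · intro τ hτ
    exact mem_filter.2 ⟨mem_univ _, tr_gd n' (mem_filter.1 hτ).2⟩
  · intro τ hτ
    exact mem_filter.2 ⟨mem_univ _, tr_gd n (mem_filter.1 hτ).2⟩
  · intro τ hτ
    funext i
    exact tr_tr n' (mem_filter.1 hτ).2 i
  · intro τ hτ
    funext i
    exact tr_tr n (mem_filter.1 hτ).2 i
  · intro τ hτ
    have h := (mem_filter.1 hτ).2
    simp only [tr_cg n' h, tr_vD n' h]

/-- the sign of a letter -/
def sgn {m : ℕ} {n : Fin 3 → ℕ} (Cc : Finset (Fin (m + 2))) : PP m n → ℝ :=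
  Sum.elim (fun _ => 1) (Sum.elim (fun j => if j ∈ Cc then -1 else 1) (fun _ => 1))

lemma sgn_prod {K m : ℕ} {n : Fin 3 → ℕ} {I : Finset (Fin (m + 2))} {τ : Fin K → PP m n} (h : Gd I τ)
    (Cc : Finset (Fin (m + 2))) (hCI : Cc ⊆ I) : ∏ i, sgn Cc (τ i) = (-1) ^ Cc.card := by
  classical
  obtain ⟨g, h1, h2, h3, h4⟩ := gd_struct h
  have h5 : ∏ i, sgn Cc (τ i) = ∏ i ∈ (Ju τ)ᶜ, (fun l => if l ∈ Cc then (-1 : ℝ) else 1) (g i) := by
    symm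
    rw [← prod_subset (subset_univ (Ju τ)ᶜ)]
    · refine prod_congr rfl fun i hi => ?_
      rw [(h1 i (by simpa using hi)).1]
      rfl
    · intro i _ hi
      have : i ∈ Ju τ := by simpa using hi
      rw [mem_Ju.1 this]
      rfl
  rw [h5, ← prod_image (f := fun l => if l ∈ Cc then (-1 : ℝ) else 1) h2, h3, prod_ite_mem, inter_eq_right.2 hCI, prod_const]

lemma fa_eq {K m : ℕ} {n : Fin 3 → ℕ} {I : Finset (Fin (m + 2))} {τ : Fin K → PP m n} (h : Gd I τ)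
    (Cc : Finset (Fin (m + 2))) (la lb : ℝ) (i : Fin K) :
    cg la lb I Cc false (τ i) = (if i ∈ Ju τ then la else 1) * sgn Cc (τ i) := by
  by_cases hi : i ∈ Ju τ
  · rw [if_pos hi, mem_Ju.1 hi]
    simp [cg, sgn]
  · rw [if_neg hi]
    rcases gd_val h i with h1 | ⟨j, hj, h1⟩
    · exact absurd (mem_Ju.2 h1) hi
    · rw [h1]
      simp [cg, sgn, hj]

lemma coef_a {K m : ℕ} {n : Fin 3 → ℕ} {I : Finset (Fin (m + 2))} {τ : Fin K → PP m n} (h : Gd I τ)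
    (Cc : Finset (Fin (m + 2))) (hCI : Cc ⊆ I) (la lb : ℝ) :
    ∏ i, cg la lb I Cc false (τ i) = la ^ (K - I.card) * (-1) ^ Cc.card := by
  obtain ⟨g, h1, h2, h3, h4⟩ := gd_struct h
  simp only [fa_eq h]
  rw [prod_mul_distrib, sgn_prod h Cc hCI, prod_ite_mem, univ_inter, prod_const]
  congr 2
  omega

/-- the type `b` only at `0` -/
def tyz {j : ℕ} : Fin (j + 1) → Bool := fun i => decide (i = 0)

lemma coef_u {j m : ℕ} {n : Fin 3 → ℕ} {I : Finset (Fin (m + 2))} {τ : Fin (j + 1) → PP m n} (h : Gd I τ)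
    (Cc : Finset (Fin (m + 2))) (hCI : Cc ⊆ I) (la lb : ℝ) (h0 : τ 0 = Sum.inl 0) :
    ∏ i, cg la lb I Cc (tyz i) (τ i) = lb * la ^ (j - I.card) * (-1) ^ Cc.card := by
  classical
  obtain ⟨g, h1, h2, h3, h4⟩ := gd_struct h
  have h5 : ∀ i ∈ univ.erase (0 : Fin (j + 1)), cg la lb I Cc (tyz i) (τ i) = (if i ∈ Ju τ then la else 1) * sgn Cc (τ i) := by
    intro i hi
    have hi0 : i ≠ 0 := (mem_erase.1 hi).1
    have h6 : (tyz i : Bool) = false := by simp [tyz, hi0]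
    rw [h6, fa_eq h]
  have h6 : cg la lb I Cc (tyz (0 : Fin (j + 1))) (τ 0) = lb := by
    rw [h0]
    simp [cg, tyz]
  have h7 := sgn_prod h Cc hCI
  rw [← mul_prod_erase univ _ (mem_univ (0 : Fin (j + 1)))] at h7
  have h8 : sgn Cc (τ 0) = 1 := by
    rw [h0]
    rfl
  rw [h8, one_mul] at h7
  rw [← mul_prod_erase univ _ (mem_univ (0 : Fin (j + 1))), prod_congr rfl h5, prod_mul_distrib, h7, prod_ite_mem, prod_const, h6]
  have h9 : (univ.erase (0 : Fin (j + 1))) ∩ Ju τ = (Ju τ).erase 0 := by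
    ext i
    simp
  rw [h9, card_erase_of_mem (mem_Ju.2 h0), mul_assoc]
  congr 3
  omega

lemma coef_c {j m : ℕ} {n : Fin 3 → ℕ} {I : Finset (Fin (m + 2))} {τ : Fin (j + 1) → PP m n} (h : Gd I τ)
    (Cc : Finset (Fin (m + 2))) (hCI : Cc ⊆ I) (la lb : ℝ) (h0 : ∃ l ∈ Cc, τ 0 = Sum.inr (Sum.inl l)) :
    ∏ i, cg la lb I Cc (tyz i) (τ i) = la ^ (j + 1 - I.card) * (-1) ^ Cc.card := by
  rw [← coef_a h Cc hCI la lb]
  refine prod_congr rfl fun i _ => ?_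
  by_cases hi : i = 0
  · obtain ⟨l, hl, h1⟩ := h0
    rw [hi, h1]
    simp [cg, hl]
  · have h6 : (tyz i : Bool) = false := by simp [tyz, hi]
    rw [h6]

lemma coef_z {j m : ℕ} {n : Fin 3 → ℕ} {I : Finset (Fin (m + 2))} {τ : Fin (j + 1) → PP m n} (h : Gd I τ)
    (Cc : Finset (Fin (m + 2))) (la lb : ℝ) (h0 : τ 0 ≠ Sum.inl 0) (h1 : ¬ ∃ l ∈ Cc, τ 0 = Sum.inr (Sum.inl l)) :
    ∏ i, cg la lb I Cc (tyz i) (τ i) = 0 := by
  apply prod_eq_zero (mem_univ 0)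
  rcases gd_val h 0 with h2 | ⟨l, hl, h2⟩
  · exact absurd h2 h0
  · have h3 : l ∉ Cc := fun h => h1 ⟨l, h, h2⟩
    rw [h2]
    simp [cg, tyz, h3]

/-- no slots -/
abbrev n00 : Fin 3 → ℕ := fun _ => 0

open Classical in
/-- words with `u` at `0` -/
def PF {j m : ℕ} (Φ : MW (j + 1)) (X : ℝ) (e u : W) (I : Finset (Fin (m + 2))) (s s' : Fin (m + 2) → ℕ) : ℝ :=
  ∑ τ ∈ univ.filter (fun τ : Fin (j + 1) → PP m n00 => Gd I τ ∧ τ 0 = Sum.inl 0), Φ (fun i => vD X e u s s' (τ i))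

open Classical in
/-- words with a special number in `Cc` at `0` -/
def SF {j m : ℕ} (Φ : MW (j + 1)) (X : ℝ) (e u : W) (I Cc : Finset (Fin (m + 2))) (s s' : Fin (m + 2) → ℕ) : ℝ :=
  ∑ τ ∈ univ.filter (fun τ : Fin (j + 1) → PP m n00 => Gd I τ ∧ ∃ l ∈ Cc, τ 0 = Sum.inr (Sum.inl l)),
    Φ (fun i => vD X e u s s' (τ i))

open Classical in
/-- all words -/
def QF {K m : ℕ} (Θ : MK K) (X : ℝ) (e u : W) (I : Finset (Fin (m + 2))) (s s' : Fin (m + 2) → ℕ) : ℝ :=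
  ∑ τ ∈ univ.filter (fun τ : Fin K → PP m n00 => Gd I τ), Θ (fun i => vD X e u s s' (τ i))

lemma gs_a {K m : ℕ} (n : Fin 3 → ℕ) (Θ : MK K) (la lb : ℝ) (X : ℝ) (e u : W) (I Cc : Finset (Fin (m + 2))) (hCI : Cc ⊆ I)
    (s s' : Fin (m + 2) → ℕ) : Gs n Θ (fun _ => false) la lb X e u I Cc s s' =
      (-1) ^ Cc.card * (la ^ (K - I.card) * QF Θ X e u I s s') := by
  classical
  rw [gs_indep n00]
  unfold Gs QF
  rw [mul_sum, mul_sum]
  refine sum_congr rfl fun τ hτ => ?_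
  rw [coef_a (mem_filter.1 hτ).2 Cc hCI]
  ring

lemma gs_b {j m : ℕ} (n : Fin 3 → ℕ) (Φ : MW (j + 1)) (la lb : ℝ) (X : ℝ) (e u : W) (I Cc : Finset (Fin (m + 2))) (hCI : Cc ⊆ I)
    (s s' : Fin (m + 2) → ℕ) : Gs n Φ tyz la lb X e u I Cc s s' =
      (-1) ^ Cc.card * (lb * (la ^ (j - I.card) * PF Φ X e u I s s') + la ^ (j + 1 - I.card) * SF Φ X e u I Cc s s') := by
  classical
  rw [gs_indep n00]
  unfold Gs PF SF
  rw [← filter_filter, ← filter_filter, sum_filter (fun τ : Fin (j + 1) → PP m n00 => τ 0 = Sum.inl 0),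
    sum_filter (fun τ : Fin (j + 1) → PP m n00 => ∃ l ∈ Cc, τ 0 = Sum.inr (Sum.inl l)),
    mul_sum, mul_sum, mul_sum, ← sum_add_distrib, mul_sum]
  refine sum_congr rfl fun τ hτ => ?_
  have h := (mem_filter.1 hτ).2
  by_cases h0 : τ 0 = Sum.inl 0
  · have h1 : ¬ ∃ l ∈ Cc, τ 0 = Sum.inr (Sum.inl l) := by
      rintro ⟨l, -, hl⟩
      rw [h0] at hl
      simp at hl
    rw [if_pos h0, if_neg h1, coef_u h Cc hCI la lb h0]
    ring
  · by_cases h1 : ∃ l ∈ Cc, τ 0 = Sum.inr (Sum.inl l)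
    · rw [if_neg h0, if_pos h1, coef_c h Cc hCI la lb h1]
      ring
    · rw [if_neg h0, if_neg h1, coef_z h Cc la lb h0 h1]
      ring

lemma qf_zero {K m : ℕ} (Θ : MK K) (X : ℝ) (e u : W) (I : Finset (Fin (m + 2))) (s s' : Fin (m + 2) → ℕ) (h : K < I.card) :
    QF Θ X e u I s s' = 0 := by
  classical
  unfold QF
  rw [filter_eq_empty_iff.2, sum_empty]
  intro τ _ hτ
  obtain ⟨-, -, -, -, h4⟩ := gd_struct hτ
  omega

lemma pf_zero {j m : ℕ} (Φ : MW (j + 1)) (X : ℝ) (e u : W) (I : Finset (Fin (m + 2))) (s s' : Fin (m + 2) → ℕ) (h : j < I.card) :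
    PF Φ X e u I s s' = 0 := by
  classical
  unfold PF
  rw [filter_eq_empty_iff.2, sum_empty]
  rintro τ - ⟨hτ, h0⟩
  obtain ⟨-, -, -, -, h4⟩ := gd_struct hτ
  have h5 : 0 < (Ju τ).card := card_pos.2 ⟨0, mem_Ju.2 h0⟩
  omega

lemma sf_zero {j m : ℕ} (Φ : MW (j + 1)) (X : ℝ) (e u : W) (I Cc : Finset (Fin (m + 2))) (hCI : Cc ⊆ I) (s s' : Fin (m + 2) → ℕ)
    (h : j < I.card - 1 ∨ I.card = 0) : SF Φ X e u I Cc s s' = 0 := by
  classical
  unfold SF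
  rw [filter_eq_empty_iff.2, sum_empty]
  rintro τ - ⟨hτ, l, hl, h0⟩
  obtain ⟨-, -, -, -, h4⟩ := gd_struct hτ
  have h5 : 0 < I.card := card_pos.2 ⟨l, hCI hl⟩
  omega

lemma reidx (A k : ℕ) (x : ℝ) (V : ℕ → ℝ) (h : ∀ j < k, V j = 0) :
    ∑ j ∈ range A, x ^ (j - k) * V j = ∑ i ∈ range A, x ^ i * (if i + k < A then V (i + k) else 0) := by
  rcases le_total A k with hA | hA
  · rw [sum_eq_zero, sum_eq_zero]
    · intro i _
      rw [if_neg (by omega), mul_zero]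
    · intro j hj
      rw [h j (by have := mem_range.1 hj; omega), mul_zero]
  · have h1 : ∑ j ∈ range A, x ^ (j - k) * V j = ∑ j ∈ Ico k A, x ^ (j - k) * V j := by
      symm
      apply sum_subset
      · intro j hj
        rw [mem_Ico] at hj
        exact mem_range.2 hj.2
      · intro j hj hj'
        rw [mem_range] at hj
        rw [mem_Ico] at hj'
        rw [h j (by omega), mul_zero]
    have h2 : ∑ i ∈ range A, x ^ i * (if i + k < A then V (i + k) else 0) = ∑ i ∈ range (A - k), x ^ i * V (i + k) := by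
      symm
      rw [← sum_subset (range_subset_range.2 (Nat.sub_le A k))]
      · refine sum_congr rfl fun i hi => ?_
        rw [mem_range] at hi
        rw [if_pos (by omega)]
      · intro i hi hi'
        rw [mem_range] at hi hi'
        rw [if_neg (by omega), mul_zero]
    rw [h1, h2, sum_Ico_eq_sum_range]
    refine sum_congr rfl fun i _ => ?_
    rw [Nat.add_sub_cancel_left, add_comm k i]

end

end Pool.Agent.J4.H60.GQ
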