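import Pool.Agent.J4.H60.GQ.D1

/-! Project GQ (helper22), piece ISO3 (helper60): the main inequality for sums of forms -/

set_option autoImplicit false
set_option linter.all false

namespace Pool.Agent.J4.H60.GQ

open Finset Pool.Agent.J4.H22.GQ

noncomputable section

/-- **the main inequality** for sums of forms -/
lemma mainG {ι : Type} (F : Finset ι) {m : ℕ} {n : Fin 3 → ℕ} {Ω P Q : Finset ℕ} {I Cc : Finset (Fin (m + 2))}
    {s s' : Fin (m + 2) → ℕ}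
    {ωa ωc : ℕ} (hD : Da Ω P I s s' ωa ωc) (hCI : Cc ⊆ I) (hQP : Q ⊆ P) (hQ0 : 0 ∉ Q)
    (K : ι → ℕ) (hK : ∀ t ∈ F, K t ≤ m + 2) (Θ : ∀ t, MK (K t)) (ty : ∀ t, Fin (K t) → Bool) (wt : ι → ℝ → ℝ) (w0 : ι → ℝ)
    (hRl : ∀ a b c : ℕ, 0 < a → 0 < b → a + b = c →
      ∑ t ∈ F, wt t ((a : ℝ) / c) * Θ t (fun i => if ty t i then vc b - vc c else vc a - vc c) = 0) {X : ℝ} {e u : W}
    (la lb Λ : ℝ) (hΛ : 1 ≤ Λ) (hla : |la| ≤ Λ) (hlb : |lb| ≤ Λ) (hw : ∀ t ∈ F, |w0 t| ≤ Λ)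
    (N b : ℝ) (hN0 : 0 ≤ N) (hb0 : 0 ≤ b)
    (hN : ∀ t ∈ F, ∀ (J : Finset (Fin (K t))) (p : Fin (K t) → ℕ), (∀ i, p i ∈ P) → |Θ t (ta X e u J p)| ≤ N)
    (hb : ∀ t ∈ F, ∀ (J : Finset (Fin (K t))) (p : Fin (K t) → ℕ), I.card + J.card < K t → (∀ i, p i ∈ P) →
      |Θ t (ta X e u J p)| ≤ b)
    {S : Finset (Fin (m + 2)) → Finset (Ct n)} {ε : ℝ} (hε0 : 0 ≤ ε) (hε1 : ε ≤ 1) (hS : Ds I Q S ε)
    (hrel : ∀ E, E ⊆ I → ∀ x ∈ S E, ∃ a b c : ℕ,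
      a = ωa * (∏ i ∈ I \ Cc, ch E s s' i) * ∏ l, x 0 l ∧ b = ∏ l, x 1 l ∧
      c = ωc * (∏ i ∈ Cc, ch E s s' i) * ∏ l, x 2 l ∧ a + b = c ∧ cS X a = cS X c ∧ cS X b = cS X c ∧
      |Real.log a - Real.log c - la| ≤ ε ∧ |Real.log b - Real.log c - lb| ≤ ε ∧
      ∀ t ∈ F, |wt t ((a : ℝ) / c) - w0 t| ≤ ε) (q : ℝ)
    (hq : (Fintype.card (PP m n) : ℝ) ≤ q) (M C0 : ℝ) (hM : M = (F.card : ℝ))
    (hC0 : C0 = 2 ^ (m + 2) * (q * (Λ * ((Ω.card : ℝ) + 3)) + 1) ^ (m + 2)) :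
    |∑ t ∈ F, w0 t * Gs n (Θ t) (ty t) la lb X e u I Cc s s'| ≤
      ε * N * (2 ^ (m + 2) * (2 * (C0 * (M * (Λ + 1)))) + 3 * C0 * (M * Λ)) + b * (2 * C0 * (M * Λ)) := by
  classical
  have hΩ : (0 : ℝ) ≤ Ω.card := Nat.cast_nonneg _
  have hΛ0 : (0 : ℝ) ≤ Λ := by linarith
  have hM0 : 0 ≤ M := by rw [hM]; positivity
  have hq0 : 0 ≤ q := le_trans (Nat.cast_nonneg _) hq
  obtain ⟨H, hH⟩ : ∃ H : ℝ, H = q * (Λ * ((Ω.card : ℝ) + 3)) + 1 := ⟨_, rfl⟩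
  have hH1 : 1 ≤ H := by
    rw [hH]
    have : 0 ≤ q * (Λ * ((Ω.card : ℝ) + 3)) := by positivity
    linarith
  have hC00 : 0 ≤ C0 := by
    rw [hC0, ← hH]
    positivity
  obtain ⟨z, hz⟩ : ∃ z : ℝ, z = ((S ∅).card : ℝ) := ⟨_, rfl⟩
  have hz0 : 0 < z := by
    rw [hz]
    exact_mod_cast hS.ne.card_pos
  obtain ⟨aΘ, haΘ⟩ : ∃ aΘ : ι → Finset (Fin (m + 2)) → Ct n → ℝ, aΘ = fun t E x =>
      Θ t (fun i => ∑ κ : PP m n, cg la lb I Cc (ty t i) κ • vec X e u ωa ωc I s s' E x κ) := ⟨_, rfl⟩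
  have hcΘ : ∀ t ∈ F, _ := fun t ht => core2 (Cc := Cc) (hK t ht) hD hQP (Θ t) (ty t) (X := X)
    (e := e) (u := u) la lb Λ hΛ hla hlb N b hN0 hb0 (hN t ht) (hb t ht) hε0 hε1 hS q hq
  -- one solution
  have hone : ∀ E, E ⊆ I → ∀ x ∈ S E, |∑ t ∈ F, w0 t * aΘ t E x| ≤ ε * N * (C0 * (M * (Λ + 1))) := by
    intro E hE x hx
    obtain ⟨a, b', c, ha, hb', hc, habc, h1, h2, h3, h4, h5⟩ := hrel E hE x hx
    have hxQ := hS.mem E hE x hx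
    have hx0 : ∀ g l, x g l ≠ 0 := fun g l h0 => hQ0 (h0 ▸ hxQ g l)
    have hch : ∀ i ∈ I, ch E s s' i ≠ 0 := by
      intro i hi
      unfold ch
      split_ifs
      · exact (hD.s0 i hi).2
      · exact (hD.s0 i hi).1
    have ha0 : 0 < a := by
      rw [ha]
      exact Nat.pos_of_ne_zero (mul_ne_zero (mul_ne_zero hD.a0 (prod_ne_zero_iff.2 fun j hj => hch j (mem_sdiff.1 hj).1))
        (prod_ne_zero_iff.2 fun l _ => hx0 0 l))
    have hb0' : 0 < b' := by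
      rw [hb']
      exact Nat.pos_of_ne_zero (prod_ne_zero_iff.2 fun l _ => hx0 1 l)
    have hR := hRl a b' c ha0 hb0' habc
    have hHq : (Fintype.card (PP m n) : ℝ) * (Λ * ((Ω.card : ℝ) + 3)) + 1 ≤ H := by
      rw [hH]
      have := mul_le_mul_of_nonneg_right hq (show (0 : ℝ) ≤ Λ * ((Ω.card : ℝ) + 3) by positivity)
      linarith
    have hHq0 : 0 ≤ (Fintype.card (PP m n) : ℝ) * (Λ * ((Ω.card : ℝ) + 3)) + 1 := by positivity
    have hpow : ∀ K, K ≤ m + 2 → ((Fintype.card (PP m n) : ℝ) * (Λ * ((Ω.card : ℝ) + 3)) + 1) ^ K ≤ H ^ (m + 2) := by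
      intro K hK
      exact (pow_le_pow_left₀ hHq0 hHq K).trans (pow_le_pow_right₀ hH1 hK)
    have h2K : ∀ K, K ≤ m + 2 → (2 : ℝ) ^ K * ((Fintype.card (PP m n) : ℝ) * (Λ * ((Ω.card : ℝ) + 3)) + 1) ^ K ≤ C0 := by
      intro K hK
      rw [hC0, ← hH]
      exact mul_le_mul (pow_le_pow_right₀ (by norm_num) hK) (hpow K hK) (by positivity) (by positivity)
    have hHC : H ^ (m + 2) ≤ C0 := by
      rw [hC0, ← hH]
      have h6 : (1 : ℝ) ≤ 2 ^ (m + 2) := one_le_pow₀ (by norm_num)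
      have h7 : 0 ≤ H ^ (m + 2) := by positivity
      nlinarith
    have hΘ : ∀ t ∈ F, _ := fun t ht => rel2 hD hCI (Θ t) (ty t) (X := X) (e := e) (u := u) N hN0 (hN t ht)
      E x (fun g l => hQP (hxQ g l)) hx0 ε hε0 hε1 la lb Λ hΛ hla hlb a b' c ha hb' hc h1 h2 h3 h4
    obtain ⟨eΘ, heΘ⟩ : ∃ eΘ : ι → ℝ, eΘ = fun t => Θ t (fun i => if ty t i then vc b' - vc c else vc a - vc c) := ⟨_, rfl⟩
    have hΘ1 : ∀ t ∈ F, |aΘ t E x - eΘ t| ≤ ε * N * C0 := by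
      intro t ht
      have h6 := (hΘ t ht).1
      rw [haΘ, heΘ]
      refine h6.trans ?_
      calc _ ≤ ε * C0 * N := mul_le_mul_of_nonneg_right (mul_le_mul_of_nonneg_left (h2K _ (hK t ht)) hε0) hN0
        _ = _ := by ring
    have hΘ2 : ∀ t ∈ F, |eΘ t| ≤ N * C0 := by
      intro t ht
      have h6 := (hΘ t ht).2
      rw [heΘ]
      refine h6.trans ?_
      rw [mul_comm]
      exact mul_le_mul_of_nonneg_left ((hpow _ (hK t ht)).trans hHC) hN0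
    have hR2 : ∑ t ∈ F, wt t ((a : ℝ) / c) * eΘ t = 0 := by
      rw [← hR, heΘ]
    have h6 : ∑ t ∈ F, w0 t * aΘ t E x = ∑ t ∈ F, (w0 t * (aΘ t E x - eΘ t) -
        (wt t ((a : ℝ) / c) - w0 t) * eΘ t) := by
      have h7 : ∑ t ∈ F, (w0 t * (aΘ t E x - eΘ t) - (wt t ((a : ℝ) / c) - w0 t) * eΘ t) =
          ∑ t ∈ F, w0 t * aΘ t E x - ∑ t ∈ F, wt t ((a : ℝ) / c) * eΘ t := by
        rw [← sum_sub_distrib]
        refine sum_congr rfl fun r _ => ?_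
        ring
      rw [h7, hR2, sub_zero]
    rw [h6]
    refine (abs_sum_le_sum_abs _ _).trans ?_
    refine (sum_le_card_nsmul _ _ (Λ * (ε * N * C0) + ε * (N * C0)) fun t ht => ?_).trans (le_of_eq ?_)
    · refine (abs_sub _ _).trans ?_
      rw [abs_mul, abs_mul]
      exact add_le_add (mul_le_mul (hw t ht) (hΘ1 t ht) (abs_nonneg _) hΛ0)
        (mul_le_mul (h5 t ht) (hΘ2 t ht) (abs_nonneg _) hε0)
    · rw [nsmul_eq_mul, hM]
      ring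
  -- all solutions
  obtain ⟨T, hT⟩ : ∃ T : ι → ℝ, T = fun t => ∑ E ∈ I.powerset, (-1 : ℝ) ^ E.card * ∑ x ∈ S E, aΘ t E x := ⟨_, rfl⟩
  have hall : |∑ t ∈ F, w0 t * T t| ≤ 2 ^ (m + 2) * (2 * z * (ε * N * (C0 * (M * (Λ + 1))))) := by
    have h1 : ∑ t ∈ F, w0 t * T t = ∑ E ∈ I.powerset, (-1 : ℝ) ^ E.card * ∑ x ∈ S E, ∑ t ∈ F, w0 t * aΘ t E x := by
      rw [hT]
      simp only [mul_sum]
      rw [sum_comm]
      refine sum_congr rfl fun E _ => ?_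
      rw [sum_comm]
      refine sum_congr rfl fun x _ => ?_
      refine sum_congr rfl fun r _ => ?_
      ring
    rw [h1]
    refine (abs_sum_le_sum_abs _ _).trans ?_
    have h2 : ∀ E ∈ I.powerset, |(-1 : ℝ) ^ E.card * ∑ x ∈ S E, ∑ t ∈ F, w0 t * aΘ t E x| ≤
        2 * z * (ε * N * (C0 * (M * (Λ + 1)))) := by
      intro E hE
      rw [mem_powerset] at hE
      rw [abs_mul, abs_pow, abs_neg, abs_one, one_pow, one_mul]
      refine (abs_sum_le_sum_abs _ _).trans ?_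
      refine (sum_le_card_nsmul _ _ _ fun x hx => hone E hE x hx).trans ?_
      rw [nsmul_eq_mul, hz]
      exact mul_le_mul_of_nonneg_right (card_le2 hS hε1 E hE) (by positivity)
    refine (sum_le_card_nsmul _ _ _ h2).trans ?_
    rw [nsmul_eq_mul]
    exact mul_le_mul_of_nonneg_right (powcard _) (by positivity)
  obtain ⟨G, hG⟩ : ∃ G : ι → ℝ, G = fun t => Gs n (Θ t) (ty t) la lb X e u I Cc s s' := ⟨_, rfl⟩
  have hc2 : ∀ t ∈ F, |T t - z * G t| ≤ z * (ε * N * (3 * C0) + b * (2 * C0)) := by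
    intro t ht
    have h1 := hcΘ t ht
    rw [← hC0, ← hz] at h1
    rw [hT, hG, haΘ]
    exact h1
  have hgoal : ∑ t ∈ F, w0 t * Gs n (Θ t) (ty t) la lb X e u I Cc s s' = ∑ t ∈ F, w0 t * G t := by
    rw [hG]
  rw [hgoal]
  have h1 : z * (∑ t ∈ F, w0 t * G t) = (∑ t ∈ F, w0 t * T t) - ∑ t ∈ F, w0 t * (T t - z * G t) := by
    have h2 : ∑ t ∈ F, w0 t * (T t - z * G t) = ∑ t ∈ F, w0 t * T t - z * ∑ t ∈ F, w0 t * G t := by
      rw [mul_sum, ← sum_sub_distrib]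
      refine sum_congr rfl fun r _ => ?_
      ring
    rw [h2]
    ring
  have h2 : |∑ t ∈ F, w0 t * (T t - z * G t)| ≤ M * (Λ * (z * (ε * N * (3 * C0) + b * (2 * C0)))) := by
    refine (abs_sum_le_sum_abs _ _).trans ?_
    refine (sum_le_card_nsmul _ _ (Λ * (z * (ε * N * (3 * C0) + b * (2 * C0)))) fun t ht => ?_).trans ?_
    · rw [abs_mul]
      exact mul_le_mul (hw t ht) (hc2 t ht) (abs_nonneg _) hΛ0
    · rw [nsmul_eq_mul, hM]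
  have hfin : z * |∑ t ∈ F, w0 t * G t| ≤ z * (ε * N * (2 ^ (m + 2) * (2 * (C0 * (M * (Λ + 1)))) + 3 * C0 * (M * Λ)) +
      b * (2 * C0 * (M * Λ))) := by
    have h3 : z * |∑ t ∈ F, w0 t * G t| = |z * (∑ t ∈ F, w0 t * G t)| := by
      rw [abs_mul, abs_of_pos hz0]
    rw [h3, h1]
    refine (abs_sub _ _).trans ((add_le_add hall h2).trans (le_of_eq ?_))
    ring
  exact le_of_mul_le_mul_left hfin hz0

/-- the indices of the forms -/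
abbrev IX : Type := ℕ ⊕ (ℕ × ℕ)

/-- all forms -/
def FX (A : ℕ) : Finset IX := (range A).disjSum (Od A ×ˢ range A)

def KX : IX → ℕ := Sum.elim (fun j => j + 1) (fun p => p.2)

def ΘX (Φ : ∀ j : ℕ, MW (j + 1)) (Ψ : ∀ r j : ℕ, MW j) : ∀ t : IX, MK (KX t)
  | Sum.inl j => Φ j
  | Sum.inr p => Ψ p.1 p.2

def tX : ∀ t : IX, Fin (KX t) → Bool
  | Sum.inl _ => tyz
  | Sum.inr _ => fun _ => false

def wX (L : ℕ → ℝ → ℝ) : IX → ℝ → ℝ := Sum.elim (fun _ _ => 1) (fun p => L p.1)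

lemma rl_X {A : ℕ} {L : ℕ → ℝ → ℝ} {Φ : ∀ j : ℕ, MW (j + 1)} {Ψ : ∀ r j : ℕ, MW j} (h : Rl3 A L Φ Ψ) (a b c : ℕ)
    (ha : 0 < a) (hb : 0 < b) (habc : a + b = c) :
    ∑ t ∈ FX A, wX L t ((a : ℝ) / c) * ΘX Φ Ψ t (fun i => if tX t i then vc b - vc c else vc a - vc c) = 0 := by
  rw [← h a b c ha hb habc]
  unfold FX
  rw [sum_disjSum, sum_product]
  congr 1
  refine sum_congr rfl fun j _ => ?_
  show (1 : ℝ) * Φ j (fun i => if tyz i then vc b - vc c else vc a - vc c) = _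
  rw [one_mul]
  congr 1
  funext i
  refine Fin.cases ?_ (fun j => ?_) i
  · simp [tyz]
  · have : (Fin.succ j : Fin _) ≠ 0 := Fin.succ_ne_zero j
    simp [tyz, this]

lemma sum_X {A m : ℕ} (n : Fin 3 → ℕ) (L : ℕ → ℝ → ℝ) (Φ : ∀ j : ℕ, MW (j + 1)) (Ψ : ∀ r j : ℕ, MW j) (ξ la lb : ℝ)
    (X : ℝ) (e u : W) (I Cc : Finset (Fin (m + 2))) (hCI : Cc ⊆ I) (s s' : Fin (m + 2) → ℕ) :
    ∑ t ∈ FX A, wX L t ξ * Gs n (ΘX Φ Ψ t) (tX t) la lb X e u I Cc s s' =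
      (-1) ^ Cc.card * (∑ j ∈ range A, la ^ (j + 1 - I.card) * SF (Φ j) X e u I Cc s s' +
        ∑ j ∈ range A, lb * (la ^ (j - I.card) * PF (Φ j) X e u I s s') +
        ∑ r ∈ Od A, ∑ j ∈ range A, L r ξ * (la ^ (j - I.card) * QF (Ψ r j) X e u I s s')) := by
  unfold FX
  rw [sum_disjSum, sum_product, mul_add, mul_add, mul_sum, mul_sum, mul_sum]
  congr 1
  · rw [← sum_add_distrib]
    refine sum_congr rfl fun j _ => ?_
    show (1 : ℝ) * Gs n (Φ j) tyz la lb X e u I Cc s s' = _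
    rw [gs_b n (Φ j) la lb X e u I Cc hCI s s']
    ring
  · refine sum_congr rfl fun r _ => ?_
    rw [mul_sum]
    refine sum_congr rfl fun j _ => ?_
    show L r ξ * Gs n (Ψ r j) (fun _ => false) la lb X e u I Cc s s' = _
    rw [gs_a n (Ψ r j) la lb X e u I Cc hCI s s']
    ring

end

end Pool.Agent.J4.H60.GQ
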