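import Pool.Agent.J4.H60.GQ.D2

/-! Project GQ (helper22), piece ISO3 (helper60): transport of the special numbers -/

set_option autoImplicit false
set_option linter.all false

namespace Pool.Agent.J4.H60.GQ

open Finset Pool.Agent.J4.H22.GQ

noncomputable section

/-- extension by `1` -/
def xt {K : ℕ} (m : ℕ) (s : Fin K → ℕ) : Fin (m + 2) → ℕ := fun l => if h : l.1 < K then s ⟨l.1, h⟩ else 1

def em {K : ℕ} (m : ℕ) (hK : K ≤ m + 2) : Fin K → Fin (m + 2) := Fin.castLE hK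

lemma em_inj {K m : ℕ} (hK : K ≤ m + 2) : Function.Injective (em m hK) := Fin.castLE_injective hK

lemma xt_em {K m : ℕ} (hK : K ≤ m + 2) (s : Fin K → ℕ) (i : Fin K) : xt m s (em m hK i) = s i := by
  unfold xt em
  simp

/-- the basic word -/
def wd {K m : ℕ} (n : Fin 3 → ℕ) (hK : K ≤ m + 2) (J0 : Finset (Fin K)) : Fin K → PP m n :=
  fun i => if i ∈ J0 then Sum.inl 0 else Sum.inr (Sum.inl (em m hK i))

lemma ju_wd {K m : ℕ} (n : Fin 3 → ℕ) (hK : K ≤ m + 2) (J0 : Finset (Fin K)) : Ju (wd n hK J0 : Fin K → PP m n) = J0 := by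
  ext i
  rw [mem_Ju]
  unfold wd
  by_cases hi : i ∈ J0
  · simp [hi]
  · simp [hi]

lemma gd_wd {K m : ℕ} (n : Fin 3 → ℕ) (hK : K ≤ m + 2) (J0 : Finset (Fin K)) :
    Gd (J0ᶜ.image (em m hK)) (wd n hK J0 : Fin K → PP m n) := by
  refine ⟨fun j hj => ?_, ?_⟩
  · rw [mem_image] at hj
    obtain ⟨i, hi, rfl⟩ := hj
    refine ⟨i, ?_⟩
    unfold wd
    rw [if_neg (by simpa using hi)]
  · rw [ju_wd, card_image_of_injective _ (em_inj hK), card_compl, Fintype.card_fin]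
    have := card_le_univ J0
    omega

lemma gd_comp {K m : ℕ} {n : Fin 3 → ℕ} {I : Finset (Fin (m + 2))} {τ : Fin K → PP m n} (h : Gd I τ) (σ : Equiv.Perm (Fin K)) :
    Gd I (τ ∘ σ) := by
  classical
  refine ⟨fun j hj => ?_, ?_⟩
  · obtain ⟨i, hi⟩ := h.1 j hj
    exact ⟨σ.symm i, by simpa using hi⟩
  · have h1 : Ju (τ ∘ σ) = (Ju τ).image σ.symm := by
      ext i
      rw [mem_Ju, mem_image]
      constructor
      · intro h
        exact ⟨σ i, mem_Ju.2 h, by simp⟩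
      · rintro ⟨l, hl, rfl⟩
        simpa using mem_Ju.1 hl
    rw [h1, card_image_of_injective _ σ.symm.injective]
    exact h.2

lemma vD_wd {K m : ℕ} (n : Fin 3 → ℕ) (hK : K ≤ m + 2) (J0 : Finset (Fin K)) (X : ℝ) (e u : W) (s s' : Fin K → ℕ) (i : Fin K) :
    vD X e u (xt m s) (xt m s') ((wd n hK J0 : Fin K → PP m n) i) = tp X e u J0 s s' i := by
  unfold wd tp
  by_cases hi : i ∈ J0
  · rw [if_pos hi, if_pos hi]
    rfl
  · rw [if_neg hi, if_neg hi]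
    show dd X e u (xt m s (em m hK i)) - dd X e u (xt m s' (em m hK i)) = _
    rw [xt_em, xt_em]

lemma pf_val {j m : ℕ} (hK : j + 1 ≤ m + 2) {Φ : MW (j + 1)} (hSy : Sy3 Φ) (X : ℝ) (e u : W) (J0 : Finset (Fin (j + 1)))
    (s s' : Fin (j + 1) → ℕ) (h0 : 0 ∈ J0) :
    |Φ (tp X e u J0 s s')| ≤ |PF Φ X e u (J0ᶜ.image (em m hK)) (xt m s) (xt m s')| := by
  classical
  have hw := gd_wd n00 hK J0
  have hw0 : (wd n00 hK J0 : Fin (j + 1) → PP m n00) 0 = Sum.inl 0 := by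
    unfold wd
    rw [if_pos h0]
  have h1 : ∀ τ ∈ univ.filter (fun τ : Fin (j + 1) → PP m n00 => Gd (J0ᶜ.image (em m hK)) τ ∧ τ 0 = Sum.inl 0),
      Φ (fun i => vD X e u (xt m s) (xt m s') (τ i)) = Φ (tp X e u J0 s s') := by
    intro τ hτ
    rw [val_eq0 hSy hw (mem_filter.1 hτ).2.1 (by rw [hw0, (mem_filter.1 hτ).2.2])]
    simp only [vD_wd]
  unfold PF
  rw [sum_congr rfl h1, sum_const, nsmul_eq_mul, abs_mul, Nat.abs_cast]
  have h2 : 1 ≤ (univ.filter (fun τ : Fin (j + 1) → PP m n00 => Gd (J0ᶜ.image (em m hK)) τ ∧ τ 0 = Sum.inl 0)).card :=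
    card_pos.2 ⟨_, mem_filter.2 ⟨mem_univ _, hw, hw0⟩⟩
  have h3 : (1 : ℝ) ≤ (univ.filter (fun τ : Fin (j + 1) → PP m n00 => Gd (J0ᶜ.image (em m hK)) τ ∧ τ 0 = Sum.inl 0)).card := by
    exact_mod_cast h2
  nlinarith [abs_nonneg (Φ (tp X e u J0 s s'))]

lemma qf_val {K m : ℕ} (hK : K ≤ m + 2) {Θ : MK K} (hSy : Sy2 Θ) (X : ℝ) (e u : W) (J0 : Finset (Fin K))
    (s s' : Fin K → ℕ) :
    |Θ (tp X e u J0 s s')| ≤ |QF Θ X e u (J0ᶜ.image (em m hK)) (xt m s) (xt m s')| := by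
  classical
  have hw := gd_wd n00 hK J0
  have h1 : ∀ τ ∈ univ.filter (fun τ : Fin K → PP m n00 => Gd (J0ᶜ.image (em m hK)) τ),
      Θ (fun i => vD X e u (xt m s) (xt m s') (τ i)) = Θ (tp X e u J0 s s') := by
    intro τ hτ
    rw [val_eq hSy hw (mem_filter.1 hτ).2]
    simp only [vD_wd]
  unfold QF
  rw [sum_congr rfl h1, sum_const, nsmul_eq_mul, abs_mul, Nat.abs_cast]
  have h2 : 1 ≤ (univ.filter (fun τ : Fin K → PP m n00 => Gd (J0ᶜ.image (em m hK)) τ)).card :=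
    card_pos.2 ⟨_, mem_filter.2 ⟨mem_univ _, hw⟩⟩
  have h3 : (1 : ℝ) ≤ (univ.filter (fun τ : Fin K → PP m n00 => Gd (J0ᶜ.image (em m hK)) τ)).card := by
    exact_mod_cast h2
  nlinarith [abs_nonneg (Θ (tp X e u J0 s s'))]

open Classical in
/-- the number of the good words with the special number `a` at the place `0` -/
def cnt {m : ℕ} (j : ℕ) (I : Finset (Fin (m + 2))) (a : Fin (m + 2)) : ℕ :=
  (univ.filter (fun τ : Fin (j + 1) → PP m n00 => Gd I τ ∧ τ 0 = Sum.inr (Sum.inl a))).card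

lemma cnt_eq {m : ℕ} (j : ℕ) (I : Finset (Fin (m + 2))) (a b : Fin (m + 2)) (ha : a ∈ I) (hb : b ∈ I) : cnt j I a = cnt j I b := by
  classical
  obtain ⟨ψ, hψ⟩ : ∃ ψ : Equiv.Perm (PP m n00), ψ = Equiv.swap (Sum.inr (Sum.inl a) : PP m n00) (Sum.inr (Sum.inl b)) := ⟨_, rfl⟩
  have hinv : ∀ κ, ψ (ψ κ) = κ := by
    intro κ
    rw [hψ]
    exact Equiv.swap_apply_self _ _ _
  have hu : ψ (Sum.inl 0) = Sum.inl 0 := by
    rw [hψ]
    apply Equiv.swap_apply_of_ne_of_ne <;> simp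
  have hsp : ∀ l : Fin (m + 2), ψ (Sum.inr (Sum.inl l)) = Sum.inr (Sum.inl (Equiv.swap a b l)) := by
    intro l
    rw [hψ]
    by_cases h1 : l = a
    · rw [h1, Equiv.swap_apply_left, Equiv.swap_apply_left]
    · by_cases h2 : l = b
      · rw [h2, Equiv.swap_apply_right, Equiv.swap_apply_right]
      · rw [Equiv.swap_apply_of_ne_of_ne h1 h2]
        apply Equiv.swap_apply_of_ne_of_ne
        · simpa using h1
        · simpa using h2
  have hswI : ∀ l ∈ I, Equiv.swap a b l ∈ I := by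
    intro l hl
    by_cases h1 : l = a
    · rw [h1, Equiv.swap_apply_left]
      exact hb
    · by_cases h2 : l = b
      · rw [h2, Equiv.swap_apply_right]
        exact ha
      · rw [Equiv.swap_apply_of_ne_of_ne h1 h2]
        exact hl
  have hGd : ∀ τ : Fin (j + 1) → PP m n00, Gd I τ → Gd I (fun i => ψ (τ i)) := by
    intro τ hτ
    refine ⟨fun l hl => ?_, ?_⟩
    · obtain ⟨i, hi⟩ := hτ.1 _ (hswI l hl)
      refine ⟨i, ?_⟩
      show ψ (τ i) = _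
      rw [hi, hsp, Equiv.swap_apply_self]
    · have h1 : Ju (fun i => ψ (τ i)) = Ju τ := by
        ext i
        rw [mem_Ju, mem_Ju]
        constructor
        · intro h
          rw [← hinv (τ i), h, hu]
        · intro h
          rw [h, hu]
      rw [h1]
      exact hτ.2
  unfold cnt
  refine card_nbij' (fun τ i => ψ (τ i)) (fun τ i => ψ (τ i)) ?_ ?_ ?_ ?_
  · intro τ hτ
    simp only [coe_filter, mem_univ, true_and, Set.mem_setOf_eq] at hτ ⊢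
    refine ⟨hGd τ hτ.1, ?_⟩
    rw [hτ.2, hsp, Equiv.swap_apply_left]
  · intro τ hτ
    simp only [coe_filter, mem_univ, true_and, Set.mem_setOf_eq] at hτ ⊢
    refine ⟨hGd τ hτ.1, ?_⟩
    rw [hτ.2, hsp, Equiv.swap_apply_right]
  · intro τ _
    funext i
    exact hinv _
  · intro τ _
    funext i
    exact hinv _

lemma sf_val {j m : ℕ} (hK : j + 1 ≤ m + 2) {Φ : MW (j + 1)} (hSy : Sy3 Φ) (X : ℝ) (e u : W) (J0 Cc : Finset (Fin (j + 1)))
    (s s' : Fin (j + 1) → ℕ) (h0 : 0 ∈ Cc) (hd : Disjoint Cc J0) :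
    |∑ l ∈ Cc, Φ (tp X e u J0 s s' ∘ Equiv.swap 0 l)| ≤
      |SF Φ X e u (J0ᶜ.image (em m hK)) (Cc.image (em m hK)) (xt m s) (xt m s')| := by
  classical
  obtain ⟨I, hI⟩ : ∃ I, I = J0ᶜ.image (em m hK) := ⟨_, rfl⟩
  have hw : Gd I (wd n00 hK J0 : Fin (j + 1) → PP m n00) := by
    rw [hI]
    exact gd_wd n00 hK J0
  have hCJ : ∀ l ∈ Cc, l ∉ J0 := fun l hl => Finset.disjoint_left.1 hd hl
  have hCI : ∀ l ∈ Cc, em m hK l ∈ I := by
    intro l hl
    rw [hI]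
    exact mem_image_of_mem _ (by simpa using hCJ l hl)
  have hwl : ∀ l ∈ Cc, (wd n00 hK J0 ∘ Equiv.swap 0 l : Fin (j + 1) → PP m n00) 0 = Sum.inr (Sum.inl (em m hK l)) := by
    intro l hl
    rw [Function.comp_apply, Equiv.swap_apply_left]
    unfold wd
    rw [if_neg (hCJ l hl)]
  rw [← hI]
  have h1 : SF Φ X e u I (Cc.image (em m hK)) (xt m s) (xt m s') =
      (cnt j I (em m hK 0) : ℝ) * ∑ l ∈ Cc, Φ (tp X e u J0 s s' ∘ Equiv.swap 0 l) := by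
    unfold SF
    rw [← filter_filter, sum_filter (fun τ : Fin (j + 1) → PP m n00 => ∃ l ∈ Cc.image (em m hK), τ 0 = Sum.inr (Sum.inl l))]
    have h2 : ∀ τ ∈ univ.filter (fun τ : Fin (j + 1) → PP m n00 => Gd I τ),
        (if ∃ l ∈ Cc.image (em m hK), τ 0 = Sum.inr (Sum.inl l) then Φ (fun i => vD X e u (xt m s) (xt m s') (τ i)) else 0) =
        ∑ l ∈ Cc, if τ 0 = Sum.inr (Sum.inl (em m hK l)) then Φ (tp X e u J0 s s' ∘ Equiv.swap 0 l) else 0 := by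
      intro τ hτ
      by_cases h3 : ∃ l ∈ Cc.image (em m hK), τ 0 = Sum.inr (Sum.inl l)
      · rw [if_pos h3]
        obtain ⟨l', hl', h4⟩ := h3
        obtain ⟨l, hl, rfl⟩ := mem_image.1 hl'
        rw [sum_eq_single_of_mem l hl]
        · rw [if_pos h4, val_eq0 hSy (gd_comp hw (Equiv.swap 0 l)) (mem_filter.1 hτ).2 (by rw [hwl l hl, h4])]
          congr 1
          funext i
          rw [Function.comp_apply, Function.comp_apply, vD_wd]
        · intro b hb hbl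
          rw [if_neg]
          rw [h4]
          intro h5
          apply hbl
          have h6 : em m hK l = em m hK b := by simpa using h5
          exact (em_inj hK h6).symm
      · rw [if_neg h3, sum_eq_zero]
        intro l hl
        rw [if_neg]
        intro h4
        exact h3 ⟨_, mem_image_of_mem _ hl, h4⟩
    rw [sum_congr rfl h2, sum_comm, mul_sum]
    refine sum_congr rfl fun l hl => ?_
    rw [← sum_filter, sum_const, nsmul_eq_mul, filter_filter]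
    congr 1
    rw [cnt_eq j I (em m hK 0) (em m hK l) (hCI 0 h0) (hCI l hl)]
    rfl
  rw [h1, abs_mul, Nat.abs_cast]
  have h2 : 1 ≤ cnt j I (em m hK 0) := by
    unfold cnt
    refine card_pos.2 ⟨wd n00 hK J0 ∘ Equiv.swap 0 0, mem_filter.2 ⟨mem_univ _, gd_comp hw _, hwl 0 h0⟩⟩
  have h3 : (1 : ℝ) ≤ cnt j I (em m hK 0) := by exact_mod_cast h2
  nlinarith [abs_nonneg (∑ l ∈ Cc, Φ (tp X e u J0 s s' ∘ Equiv.swap 0 l))]

/-- uniform choice -/
lemma unif {ι : Type} (F : Finset ι) (P : ι → ℕ → ℝ → Prop)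
    (hmono : ∀ i G G' X X', G ≤ G' → X ≤ X' → 3 ≤ X' → P i G X → P i G' X')
    (h : ∀ i ∈ F, ∃ G X, P i G X) : ∃ G : ℕ, ∃ X : ℝ, 3 ≤ X ∧ ∀ i ∈ F, P i G X := by
  classical
  induction F using Finset.induction_on with
  | empty => exact ⟨0, 3, le_rfl, fun i hi => absurd hi (notMem_empty i)⟩
  | insert a s ha ih =>
    obtain ⟨G1, X1, h1, h2⟩ := ih (fun i hi => h i (mem_insert_of_mem hi))
    obtain ⟨G2, X2, h3⟩ := h a (mem_insert_self a s)
    refine ⟨max G1 G2, max X1 X2, h1.trans (le_max_left _ _), fun i hi => ?_⟩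
    rcases mem_insert.1 hi with rfl | hi
    · exact hmono _ _ _ _ _ (le_max_right _ _) (le_max_right _ _) (h1.trans (le_max_left _ _)) h3
    · exact hmono _ _ _ _ _ (le_max_left _ _) (le_max_left _ _) (h1.trans (le_max_left _ _)) (h2 i hi)

lemma log_ge {X : ℝ} (hX : 3 ≤ X) : 1 ≤ Real.log X := by
  rw [Real.le_log_iff_exp_le (by linarith)]
  have := Real.exp_one_lt_d9
  linarith

lemma pair_mono {S : Finset ℕ} {X : ℝ} {G G' s s' : ℕ} (hX : 3 ≤ X) (hG : G ≤ G') (h : Pair S X G' s s') : Pair S X G s s' := by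
  refine ⟨h.pos, h.pos', h.pr, h.len, h.len', h.cs, h.cl.trans ?_⟩
  have h1 := log_ge hX
  apply div_le_div_of_nonneg_left (Nat.cast_nonneg _) (by positivity)
  exact pow_le_pow_right₀ h1 hG

/-- the conclusion of CFG2 -/
def PC (m : ℕ) (Ω : Finset ℕ) (C B' : ℕ) (η ξ : ℝ) (D : ℕ) (ε : ℝ) (G : ℕ) (X0 : ℝ) : Prop :=
  ∀ X : ℝ, X0 ≤ X → ∀ R : Finset ℕ, Good η B' C X R →
  ∀ I Cc : Finset (Fin (m + 2)), Cc ⊆ I → ∀ s s' : Fin (m + 2) → ℕ, (∀ i ∈ I, Pair (Pr Ω R C X) X G (s i) (s' i)) →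
  (∀ i ∈ Cc, ∀ j ∈ I, j ∉ Cc → Nat.Coprime (s i * s' i) (s j * s' j)) →
  ∃ (ωa ωc : ℕ) (n : Fin 3 → ℕ) (S : Finset (Fin (m + 2)) → Finset (Ct n)),
    ωa * ωc = ∏ p ∈ Ω, p ∧ (∀ g, n g ≤ D) ∧ (S ∅).Nonempty ∧
    (∀ E, E ⊆ I → ∀ x ∈ S E, (∀ g i, x g i ∈ PR R X (C * X)) ∧ ∃ a b c : ℕ,
      a = ωa * (∏ i ∈ I \ Cc, ch E s s' i) * ∏ l, x 0 l ∧ b = ∏ l, x 1 l ∧
      c = ωc * (∏ i ∈ Cc, ch E s s' i) * ∏ l, x 2 l ∧ a + b = c ∧ cS X a = cS X c ∧ cS X b = cS X c ∧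
      |Real.log a - Real.log c - Real.log ξ| ≤ ε ∧ |Real.log b - Real.log c - Real.log (1 - ξ)| ≤ ε) ∧
    ∀ E, E ⊆ I → ∀ T : Finset ((g : Fin 3) × Fin (n g)), T.card ≤ m + 2 → ∀ f : Ct n → ℝ,
      (∀ x : Ct n, (∀ g i, x g i ∈ PR R X (C * X)) → |f x| ≤ 1) →
      (∀ x y : Ct n, (∀ s ∈ T, x s.1 s.2 = y s.1 s.2) → f x = f y) →
      |∑ x ∈ S E, f x - ∑ x ∈ S ∅, f x| ≤ ε * (S ∅).card

lemma pc_mono {m : ℕ} {Ω : Finset ℕ} {C B' : ℕ} {η ξ : ℝ} {D : ℕ} {ε : ℝ} {G G' : ℕ} {X0 X0' : ℝ} (hG : G ≤ G') (hX : X0 ≤ X0')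
    (h3 : 3 ≤ X0') (h : PC m Ω C B' η ξ D ε G X0) : PC m Ω C B' η ξ D ε G' X0' := by
  intro X hX' R hR I Cc hCI s s' hp hc
  exact h X (hX.trans hX') R hR I Cc hCI s s' (fun i hi => pair_mono (h3.trans hX') hG (hp i hi)) hc

lemma cont_L {A : ℕ} {L : ℕ → ℝ → ℝ} (hL : LC3 A L) {ξ : ℝ} (h0 : 0 < ξ) (h1 : ξ < 1) {ε : ℝ} (hε : 0 < ε) :
    ∃ δ : ℝ, 0 < δ ∧ δ ≤ ε ∧ ∀ t : ℝ, 0 < t → |Real.log t - Real.log ξ| ≤ δ → ∀ r ∈ Od A, |L r t - L r ξ| ≤ ε := by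
  have h2 : ∀ᶠ v in nhds (Real.log ξ), ∀ r ∈ Od A, |L r (Real.exp v) - L r ξ| ≤ ε := by
    rw [Filter.eventually_all_finset]
    intro r hr
    have h3 : ContinuousAt (L r) ξ := (hL r hr).continuousAt (Ioo_mem_nhds h0 h1)
    have h4 : ContinuousAt (fun v => L r (Real.exp v)) (Real.log ξ) := by
      apply ContinuousAt.comp (f := Real.exp) (g := L r)
      · rw [Real.exp_log h0]
        exact h3
      · exact Real.continuous_exp.continuousAt
    have h5 := Metric.tendsto_nhds.1 h4 ε hε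
    filter_upwards [h5] with v hv
    rw [Real.exp_log h0, Real.dist_eq] at hv
    exact hv.le
  obtain ⟨δ, hδ, h3⟩ := Metric.eventually_nhds_iff.1 h2
  refine ⟨min (δ / 2) ε, lt_min (by linarith) hε, min_le_right _ _, fun t ht htδ r hr => ?_⟩
  have h4 := h3 (y := Real.log t) (by
    rw [Real.dist_eq]
    have := htδ.trans (min_le_left _ _)
    linarith) r hr
  rw [Real.exp_log ht] at h4
  exact h4

end

end Pool.Agent.J4.H60.GQ
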