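import Pool.Agent.J4.H60.GQ.D3

/-! Project GQ (helper22), piece ISO3 (helper60) -/

set_option autoImplicit false
set_option linter.all false

namespace Pool.Agent.J4.H60.GQ

open Finset Pool.Agent.J4.H22.GQ

noncomputable section

lemma mainX {A : ℕ} {Ω : Finset ℕ} (hΩ : ∀ p ∈ Ω, p.Prime) (h2 : 2 ∈ Ω) {C B' : ℕ} {η ξ : ℝ} {D : ℕ} {δ ε : ℝ} {G : ℕ} {X0 : ℝ}
    (hPC : PC A Ω C B' η ξ D δ G X0) {L : ℕ → ℝ → ℝ} (hδ0 : 0 < δ) (hδ1 : δ ≤ ε) (hε1 : ε ≤ 1)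
    (hcont : ∀ t : ℝ, 0 < t → |Real.log t - Real.log ξ| ≤ δ → ∀ r ∈ Od A, |L r t - L r ξ| ≤ ε)
    (q Λ M C0 : ℝ) (hq : 3 + ((A : ℝ) + 2) + 3 * (D : ℝ) ≤ q) (hΛ : 1 ≤ Λ) (hla : |Real.log ξ| ≤ Λ) (hlb : |Real.log (1 - ξ)| ≤ Λ)
    (hLr : ∀ r ∈ Od A, |L r ξ| ≤ Λ) (hM : M = ((FX A).card : ℝ))
    (hC0 : C0 = 2 ^ (A + 2) * (q * (Λ * ((Ω.card : ℝ) + 3)) + 1) ^ (A + 2))
    {X : ℝ} (hX : X0 ≤ X) {R : Finset ℕ} (hR : Good η B' C X R) {Φ : ∀ j : ℕ, MW (j + 1)} {Ψ : ∀ r j : ℕ, MW j}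
    (hRl : Rl3 A L Φ Ψ) (e u : W) (N b : ℝ) (hN0 : 0 ≤ N) (hb0 : 0 ≤ b)
    (hNΦ : ∀ j < A, ∀ (J : Finset (Fin (j + 1))) (p : Fin (j + 1) → ℕ), (∀ i, p i ∈ Pr Ω R C X) → |Φ j (ta X e u J p)| ≤ N)
    (hNΨ : ∀ r ∈ Od A, ∀ j < A, ∀ (J : Finset (Fin j)) (p : Fin j → ℕ), (∀ i, p i ∈ Pr Ω R C X) → |Ψ r j (ta X e u J p)| ≤ N)
    (k : ℕ)
    (hbΦ : ∀ j < A, ∀ (J : Finset (Fin (j + 1))) (p : Fin (j + 1) → ℕ), k + J.card < j + 1 → (∀ i, p i ∈ Pr Ω R C X) →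
      |Φ j (ta X e u J p)| ≤ b)
    (hbΨ : ∀ r ∈ Od A, ∀ j < A, ∀ (J : Finset (Fin j)) (p : Fin j → ℕ), k + J.card < j → (∀ i, p i ∈ Pr Ω R C X) →
      |Ψ r j (ta X e u J p)| ≤ b)
    (I Cc : Finset (Fin (A + 2))) (hI : I.card = k) (hCI : Cc ⊆ I) (s s' : Fin (A + 2) → ℕ)
    (hpair : ∀ i ∈ I, Pair (Pr Ω R C X) X G (s i) (s' i))
    (hcop : ∀ i ∈ Cc, ∀ j ∈ I, j ∉ Cc → Nat.Coprime (s i * s' i) (s j * s' j)) :
    |∑ j ∈ range A, Real.log ξ ^ (j + 1 - k) * SF (Φ j) X e u I Cc s s' +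
        ∑ j ∈ range A, Real.log (1 - ξ) * (Real.log ξ ^ (j - k) * PF (Φ j) X e u I s s') +
        ∑ r ∈ Od A, ∑ j ∈ range A, L r ξ * (Real.log ξ ^ (j - k) * QF (Ψ r j) X e u I s s')| ≤
      ε * N * (2 ^ (A + 2) * (2 * (C0 * (M * (Λ + 1)))) + 3 * C0 * (M * Λ)) + b * (2 * C0 * (M * Λ)) := by
  classical
  have hPQ : PR R X (C * X) ⊆ Pr Ω R C X := subset_union_right
  have hQ0 : 0 ∉ PR R X (C * X) := by
    intro h
    unfold PR at h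
    rw [mem_filter] at h
    exact h.2.1.ne_zero rfl
  obtain ⟨ωa, ωc, n, S, hω, hn, hne, hrel, htr⟩ := hPC X hX R hR I Cc hCI s s' hpair hcop
  have hω0 : ωa * ωc ≠ 0 := by
    rw [hω]
    exact prod_ne_zero_iff.2 fun p hp => (hΩ p hp).ne_zero
  have ha0 := left_ne_zero_of_mul hω0
  have hc0 := right_ne_zero_of_mul hω0
  have hlen := len_prod Ω hΩ
  rw [← hω, (Nat.perm_primeFactorsList_mul ha0 hc0).length_eq, List.length_append] at hlen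
  have hdiv : ∀ p : ℕ, p.Prime → p ∣ ωa * ωc → p ∈ Pr Ω R C X := by
    intro p hp hpd
    rw [hω] at hpd
    obtain ⟨r, hr, hpr⟩ := (hp.prime.dvd_finset_prod_iff _).1 hpd
    rw [(Nat.prime_dvd_prime_iff_eq hp (hΩ r hr)).1 hpr]
    exact mem_union_left _ hr
  have hDa : Da Ω (Pr Ω R C X) I s s' ωa ωc := by
    refine ⟨mem_union_left _ h2, ha0, hc0, fun p hp hpd => hdiv p hp (hpd.mul_right _),
      fun p hp hpd => hdiv p hp (hpd.mul_left _), by omega, by omega, ?_, ?_, ?_⟩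
    · intro i hi p hp hpd
      exact (hpair i hi).pr p hp hpd
    · intro i hi
      exact ⟨(hpair i hi).pos.ne', (hpair i hi).pos'.ne'⟩
    · intro i hi
      exact ⟨(hpair i hi).len, (hpair i hi).len'⟩
  have hcard : (Fintype.card (PP A n) : ℝ) ≤ q := by
    have h3 : Fintype.card (PP A n) = 3 + ((A + 2) + (n 0 + n 1 + n 2)) := by
      rw [Fintype.card_sum, Fintype.card_sum, Fintype.card_sigma, Fin.sum_univ_three]
      simp
    rw [h3]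
    have h4 : ((n 0 + n 1 + n 2 : ℕ) : ℝ) ≤ 3 * D := by
      have := hn 0
      have := hn 1
      have := hn 2
      have h5 : n 0 + n 1 + n 2 ≤ 3 * D := by omega
      exact_mod_cast h5
    push_cast at h4 ⊢
    linarith
  have hDs : Ds I (PR R X (C * X)) S ε :=
    ⟨hne, fun E hE x hx => (hrel E hE x hx).1, fun E hE T hT f hf hf2 =>
      (htr E hE T hT f hf hf2).trans (mul_le_mul_of_nonneg_right hδ1 (Nat.cast_nonneg _))⟩
  have hε0 : 0 ≤ ε := hδ0.le.trans hδ1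
  have hmemX : ∀ t ∈ FX A, (∃ j < A, t = Sum.inl j) ∨ ∃ r ∈ Od A, ∃ j < A, t = Sum.inr (r, j) := by
    intro t ht
    unfold FX at ht
    rcases t with j | ⟨r, j⟩
    · rw [inl_mem_disjSum, mem_range] at ht
      exact Or.inl ⟨j, ht, rfl⟩
    · rw [inr_mem_disjSum, mem_product, mem_range] at ht
      exact Or.inr ⟨r, ht.1, j, ht.2, rfl⟩
  have h6 := mainG (FX A) hDa hCI hPQ hQ0 KX (fun t ht => by
      rcases hmemX t ht with ⟨j, hj, rfl⟩ | ⟨r, hr, j, hj, rfl⟩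
      · show j + 1 ≤ A + 2
        omega
      · show j ≤ A + 2
        omega) (ΘX Φ Ψ) tX (wX L) (fun t => wX L t ξ) (fun a b c ha hb habc => rl_X hRl a b c ha hb habc)
    (X := X) (e := e) (u := u) (Real.log ξ) (Real.log (1 - ξ)) Λ hΛ hla hlb (fun t ht => by
      rcases hmemX t ht with ⟨j, hj, rfl⟩ | ⟨r, hr, j, hj, rfl⟩
      · show |(1 : ℝ)| ≤ Λ
        rw [abs_one]
        exact hΛ
      · show |L r ξ| ≤ Λ
        exact hLr r hr) N b hN0 hb0 (fun t ht J p hp => by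
      rcases hmemX t ht with ⟨j, hj, rfl⟩ | ⟨r, hr, j, hj, rfl⟩
      · exact hNΦ j hj J p hp
      · exact hNΨ r hr j hj J p hp) (fun t ht J p hJ hp => by
      rw [hI] at hJ
      rcases hmemX t ht with ⟨j, hj, rfl⟩ | ⟨r, hr, j, hj, rfl⟩
      · exact hbΦ j hj J p hJ hp
      · exact hbΨ r hr j hj J p hJ hp) hε0 hε1 hDs (fun E hE x hx => by
      obtain ⟨a, b', c, ha, hb', hc, habc, h3, h4, h5, h6⟩ := (hrel E hE x hx).2
      refine ⟨a, b', c, ha, hb', hc, habc, h3, h4, h5.trans hδ1, h6.trans hδ1, fun t ht => ?_⟩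
      rcases hmemX t ht with ⟨j, hj, rfl⟩ | ⟨r, hr, j, hj, rfl⟩
      · show |(1 : ℝ) - 1| ≤ ε
        simpa using hε0
      · show |L r ((a : ℝ) / c) - L r ξ| ≤ ε
        have hxQ := (hrel E hE x hx).1
        have hx0 : ∀ g l, x g l ≠ 0 := fun g l h0 => hQ0 (h0 ▸ hxQ g l)
        have hch : ∀ i ∈ I, ch E s s' i ≠ 0 := by
          intro i hi
          unfold ch
          split_ifs
          · exact (hDa.s0 i hi).2
          · exact (hDa.s0 i hi).1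
        have ha1 : a ≠ 0 := by
          rw [ha]
          exact mul_ne_zero (mul_ne_zero ha0 (prod_ne_zero_iff.2 fun j hj => hch j (mem_sdiff.1 hj).1))
            (prod_ne_zero_iff.2 fun l _ => hx0 0 l)
        have hc1 : c ≠ 0 := by omega
        have ha2 : (0 : ℝ) < a := by exact_mod_cast Nat.pos_of_ne_zero ha1
        have hc2 : (0 : ℝ) < c := by exact_mod_cast Nat.pos_of_ne_zero hc1
        apply hcont _ (div_pos ha2 hc2) _ r hr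
        rw [Real.log_div ha2.ne' hc2.ne']
        exact h5) q hcard M C0 hM hC0
  rw [sum_X n L Φ Ψ ξ (Real.log ξ) (Real.log (1 - ξ)) X e u I Cc hCI s s', abs_mul, abs_pow, abs_neg, abs_one, one_pow,
    one_mul, hI] at h6
  exact h6

theorem iso3 (hBND : S_BND) (hCFG : S_CFG2) : S_ISO3 := by
  classical
  intro A Ω hΩ h2 C hC
  obtain ⟨B', hB'⟩ := hCFG A Ω hΩ h2 C hC
  refine ⟨B', fun η hη L hL hInd => ?_⟩
  obtain ⟨Ξ, Ki, hΞ, hKi, hI⟩ := hInd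
  have hD0 : ∀ ξ : ℝ, ∃ D : ℕ, 0 < ξ → ξ < 1 → ∀ ε : ℝ, 0 < ε → ∃ G : ℕ, ∃ X0 : ℝ, PC A Ω C B' η ξ D ε G X0 := by
    intro ξ
    by_cases h : 0 < ξ ∧ ξ < 1
    · obtain ⟨D, hD⟩ := hB' η hη ξ h.1 h.2
      exact ⟨D, fun _ _ => hD⟩
    · exact ⟨0, fun h0 h1 => absurd ⟨h0, h1⟩ h⟩
  choose D hD using hD0
  -- the constants
  obtain ⟨q, hq⟩ : ∃ q : ℝ, q = 3 + ((A : ℝ) + 2) + 3 * (((∑ ξ ∈ Ξ, D ξ : ℕ)) : ℝ) := ⟨_, rfl⟩
  have hq0 : 0 ≤ q := by rw [hq]; positivity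
  have hqD : ∀ ξ ∈ Ξ, 3 + ((A : ℝ) + 2) + 3 * (D ξ : ℝ) ≤ q := by
    intro ξ hξ
    have h1 : D ξ ≤ ∑ ξ ∈ Ξ, D ξ := single_le_sum (f := fun ξ => D ξ) (fun _ _ => Nat.zero_le _) hξ
    have h3 : (D ξ : ℝ) ≤ ((∑ ξ ∈ Ξ, D ξ : ℕ) : ℝ) := by exact_mod_cast h1
    rw [hq]
    linarith
  obtain ⟨f, hf⟩ : ∃ f : ℝ → ℝ, f = fun ξ => |Real.log ξ| + |Real.log (1 - ξ)| + ∑ r ∈ Od A, |L r ξ| := ⟨_, rfl⟩
  have hf0 : ∀ ξ, 0 ≤ f ξ := by
    intro ξ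
    rw [hf]
    exact add_nonneg (add_nonneg (abs_nonneg _) (abs_nonneg _)) (sum_nonneg fun _ _ => abs_nonneg _)
  obtain ⟨Λ, hΛ⟩ : ∃ Λ : ℝ, Λ = 1 + ∑ ξ ∈ Ξ, f ξ := ⟨_, rfl⟩
  have hΛ1 : 1 ≤ Λ := by
    rw [hΛ]
    have := sum_nonneg (fun ξ (_ : ξ ∈ Ξ) => hf0 ξ)
    linarith
  have hfΛ : ∀ ξ ∈ Ξ, f ξ ≤ Λ := by
    intro ξ hξ
    have := single_le_sum (f := f) (fun ξ _ => hf0 ξ) hξ
    rw [hΛ]
    linarith
  have hla : ∀ ξ ∈ Ξ, |Real.log ξ| ≤ Λ := by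
    intro ξ hξ
    refine le_trans ?_ (hfΛ ξ hξ)
    rw [hf]
    have := sum_nonneg (fun r (_ : r ∈ Od A) => abs_nonneg (L r ξ))
    have := abs_nonneg (Real.log (1 - ξ))
    simp only []
    linarith
  have hlb : ∀ ξ ∈ Ξ, |Real.log (1 - ξ)| ≤ Λ := by
    intro ξ hξ
    refine le_trans ?_ (hfΛ ξ hξ)
    rw [hf]
    have := sum_nonneg (fun r (_ : r ∈ Od A) => abs_nonneg (L r ξ))
    have := abs_nonneg (Real.log ξ)
    simp only []
    linarith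
  have hLr : ∀ ξ ∈ Ξ, ∀ r ∈ Od A, |L r ξ| ≤ Λ := by
    intro ξ hξ r hr
    refine le_trans ?_ (hfΛ ξ hξ)
    rw [hf]
    have h1 := single_le_sum (f := fun r => |L r ξ|) (fun r _ => abs_nonneg (L r ξ)) hr
    have := abs_nonneg (Real.log ξ)
    have := abs_nonneg (Real.log (1 - ξ))
    simp only [] at h1 ⊢
    linarith
  obtain ⟨M, hM⟩ : ∃ M : ℝ, M = ((FX A).card : ℝ) := ⟨_, rfl⟩
  have hM0 : 0 ≤ M := by rw [hM]; positivity
  obtain ⟨C0, hC0⟩ : ∃ C0 : ℝ, C0 = 2 ^ (A + 2) * (q * (Λ * ((Ω.card : ℝ) + 3)) + 1) ^ (A + 2) := ⟨_, rfl⟩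
  have hC00 : 0 ≤ C0 := by
    rw [hC0]
    positivity
  obtain ⟨C4, hC4⟩ : ∃ C4 : ℝ, C4 = 2 ^ (A + 2) * (2 * (C0 * (M * (Λ + 1)))) + 3 * C0 * (M * Λ) := ⟨_, rfl⟩
  obtain ⟨C5, hC5⟩ : ∃ C5 : ℝ, C5 = 2 * C0 * (M * Λ) := ⟨_, rfl⟩
  have hC40 : 0 ≤ C4 := by rw [hC4]; positivity
  have hC50 : 0 ≤ C5 := by rw [hC5]; positivity
  refine ⟨Ki * C5, by positivity, fun ε hε => ?_⟩
  obtain ⟨ε1, hε1⟩ : ∃ ε1 : ℝ, ε1 = min 1 (ε / (Ki * C4 + 1)) := ⟨_, rfl⟩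
  have hε10 : 0 < ε1 := by
    rw [hε1]
    exact lt_min one_pos (by positivity)
  have hε11 : ε1 ≤ 1 := by rw [hε1]; exact min_le_left _ _
  have hε1b : Ki * (ε1 * C4) ≤ ε := by
    have h1 : ε1 ≤ ε / (Ki * C4 + 1) := by rw [hε1]; exact min_le_right _ _
    rw [le_div_iff₀ (by positivity)] at h1
    nlinarith
  obtain ⟨G, X0, hX03, hG⟩ := unif Ξ (fun ξ G X0 => ∃ δ : ℝ, 0 < δ ∧ δ ≤ ε1 ∧
      (∀ t : ℝ, 0 < t → |Real.log t - Real.log ξ| ≤ δ → ∀ r ∈ Od A, |L r t - L r ξ| ≤ ε1) ∧ PC A Ω C B' η ξ (D ξ) δ G X0)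
    (fun ξ G G' X X' hGG hXX h3 ⟨δ, h4, h5, h6, h7⟩ => ⟨δ, h4, h5, h6, pc_mono hGG hXX h3 h7⟩)
    (fun ξ hξ => by
      obtain ⟨δ, h4, h5, h6⟩ := cont_L hL (hΞ ξ hξ).1 (hΞ ξ hξ).2 hε10
      obtain ⟨G, X0, h7⟩ := hD ξ (hΞ ξ hξ).1 (hΞ ξ hξ).2 δ h4
      exact ⟨G, X0, δ, h4, h5, h6, h7⟩)
  refine ⟨G, X0, fun X hX R hR Φ Ψ hSy hSy2 hRl e u N b hN0 hb0 hNΦ hNΨ k hbΦ hbΨ => ?_⟩
  obtain ⟨Z, hZ⟩ : ∃ Z : ℝ, Z = Ki * (ε1 * N * C4 + b * C5) := ⟨_, rfl⟩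
  have hZ0 : 0 ≤ Z := by rw [hZ]; positivity
  have hZ1 : Z ≤ Ki * C5 * b + ε * N := by
    rw [hZ]
    have h1 : Ki * (ε1 * C4) * N ≤ ε * N := mul_le_mul_of_nonneg_right hε1b hN0
    nlinarith
  -- the master inequality
  have hmas : ∀ (I Cc : Finset (Fin (A + 2))), I.card = k → Cc ⊆ I → ∀ s s' : Fin (A + 2) → ℕ,
      (∀ i ∈ I, Pair (Pr Ω R C X) X G (s i) (s' i)) →
      (∀ i ∈ Cc, ∀ j ∈ I, j ∉ Cc → Nat.Coprime (s i * s' i) (s j * s' j)) →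
      (∀ j < A, |PF (Φ j) X e u I s s'| ≤ Z) ∧ (∀ j < A, |SF (Φ j) X e u I Cc s s'| ≤ Z) ∧
      ∀ r ∈ Od A, ∀ j < A, |QF (Ψ r j) X e u I s s'| ≤ Z := by
    intro I Cc hIk hCI s s' hpair hcop
    have h1 : ∀ ξ ∈ Ξ, |∑ i ∈ range A, Real.log ξ ^ i * (if i + (k - 1) < A then SF (Φ (i + (k - 1))) X e u I Cc s s' else 0) +
        ∑ i ∈ range A, Real.log (1 - ξ) * Real.log ξ ^ i * (if i + k < A then PF (Φ (i + k)) X e u I s s' else 0) +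
        ∑ r ∈ Od A, ∑ i ∈ range A, L r ξ * Real.log ξ ^ i * (if i + k < A then QF (Ψ r (i + k)) X e u I s s' else 0)| ≤
        ε1 * N * C4 + b * C5 := by
      intro ξ hξ
      obtain ⟨δ, h4, h5, h6, h7⟩ := hG ξ hξ
      have h8 := mainX hΩ h2 h7 h4 h5 hε11 h6 q Λ M C0 (hqD ξ hξ) hΛ1 (hla ξ hξ) (hlb ξ hξ) (hLr ξ hξ) hM hC0 hX hR hRl e u N b
        hN0 hb0 hNΦ hNΨ k hbΦ hbΨ I Cc hIk hCI s s' hpair hcop
      have e1 : ∑ j ∈ range A, Real.log ξ ^ (j + 1 - k) * SF (Φ j) X e u I Cc s s' =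
          ∑ i ∈ range A, Real.log ξ ^ i * (if i + (k - 1) < A then SF (Φ (i + (k - 1))) X e u I Cc s s' else 0) := by
        rw [← reidx A (k - 1) (Real.log ξ) (fun j => SF (Φ j) X e u I Cc s s')
          (fun j hj => sf_zero (Φ j) X e u I Cc hCI s s' (Or.inl (by rw [hIk]; exact hj)))]
        refine sum_congr rfl fun j _ => ?_
        by_cases hk : k = 0
        · rw [sf_zero (Φ j) X e u I Cc hCI s s' (Or.inr (by rw [hIk]; exact hk)), mul_zero, mul_zero]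
        · congr 2
          omega
      have e2 : ∑ j ∈ range A, Real.log (1 - ξ) * (Real.log ξ ^ (j - k) * PF (Φ j) X e u I s s') =
          ∑ i ∈ range A, Real.log (1 - ξ) * Real.log ξ ^ i * (if i + k < A then PF (Φ (i + k)) X e u I s s' else 0) := by
        rw [← mul_sum, reidx A k (Real.log ξ) (fun j => PF (Φ j) X e u I s s')
          (fun j hj => pf_zero (Φ j) X e u I s s' (by rw [hIk]; exact hj)), mul_sum]
        refine sum_congr rfl fun j _ => ?_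
        ring
      have e3 : ∑ r ∈ Od A, ∑ j ∈ range A, L r ξ * (Real.log ξ ^ (j - k) * QF (Ψ r j) X e u I s s') =
          ∑ r ∈ Od A, ∑ i ∈ range A, L r ξ * Real.log ξ ^ i * (if i + k < A then QF (Ψ r (i + k)) X e u I s s' else 0) := by
        refine sum_congr rfl fun r _ => ?_
        rw [← mul_sum, reidx A k (Real.log ξ) (fun j => QF (Ψ r j) X e u I s s')
          (fun j hj => qf_zero (Ψ r j) X e u I s s' (by rw [hIk]; exact hj)), mul_sum]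
        refine sum_congr rfl fun j _ => ?_
        ring
      rw [← e1, ← e2, ← e3, hC4, hC5]
      exact h8
    obtain ⟨h3, h4⟩ := hI _ _ _ _ h1
    rw [← hZ] at h3 h4
    refine ⟨fun j hj => ?_, fun j hj => ?_, fun r hr j hj => ?_⟩
    · by_cases hjk : j < k
      · rw [pf_zero (Φ j) X e u I s s' (by rw [hIk]; exact hjk), abs_zero]
        exact hZ0
      · have h5 := (h3 (j - k) (mem_range.2 (by omega))).2
        have h6 : j - k + k = j := by omega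
        rw [h6, if_pos hj] at h5
        exact h5
    · by_cases hjk : j < k - 1
      · rw [sf_zero (Φ j) X e u I Cc hCI s s' (Or.inl (by rw [hIk]; exact hjk)), abs_zero]
        exact hZ0
      · have h5 := (h3 (j - (k - 1)) (mem_range.2 (by omega))).1
        have h6 : j - (k - 1) + (k - 1) = j := by omega
        rw [h6, if_pos hj] at h5
        exact h5
    · by_cases hjk : j < k
      · rw [qf_zero (Ψ r j) X e u I s s' (by rw [hIk]; exact hjk), abs_zero]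
        exact hZ0
      · have h5 := h4 r hr (j - k) (mem_range.2 (by omega))
        have h6 : j - k + k = j := by omega
        rw [h6, if_pos hj] at h5
        exact h5
  -- the transport
  have htp : ∀ (K : ℕ) (hK : K ≤ A + 2) (J0 : Finset (Fin K)), k + J0.card = K → (J0ᶜ.image (em A hK)).card = k := by
    intro K hK J0 h1
    rw [card_image_of_injective _ (em_inj hK), card_compl, Fintype.card_fin]
    omega
  have htpair : ∀ (K : ℕ) (hK : K ≤ A + 2) (J0 : Finset (Fin K)) (s s' : Fin K → ℕ),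
      (∀ i, i ∉ J0 → Pair (Pr Ω R C X) X G (s i) (s' i)) →
      ∀ i ∈ J0ᶜ.image (em A hK), Pair (Pr Ω R C X) X G (xt A s i) (xt A s' i) := by
    intro K hK J0 s s' h1 i hi
    obtain ⟨i', hi', rfl⟩ := mem_image.1 hi
    rw [xt_em, xt_em]
    exact h1 i' (by simpa using hi')
  refine ⟨fun j hj J0 hJ h0 s s' hp => ?_, fun r hr j hj J0 hJ s s' hp => ?_,
    fun b' hb' _ _ j hj J0 hJ h0 s s' hp Cc h0C hd hcop => ?_⟩
  · have hK : j + 1 ≤ A + 2 := by omega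
    have h1 := (hmas (J0ᶜ.image (em A hK)) ∅ (htp _ hK J0 hJ) (empty_subset _) (xt A s) (xt A s') (htpair _ hK J0 s s' hp)
      (fun i hi => absurd hi (notMem_empty i))).1 j hj
    exact ((pf_val hK (hSy j hj) X e u J0 s s' h0).trans h1).trans hZ1
  · have hK : j ≤ A + 2 := by omega
    have h1 := (hmas (J0ᶜ.image (em A hK)) ∅ (htp _ hK J0 hJ) (empty_subset _) (xt A s) (xt A s') (htpair _ hK J0 s s' hp)
      (fun i hi => absurd hi (notMem_empty i))).2.2 r hr j hj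
    exact ((qf_val hK (hSy2 r hr j hj) X e u J0 s s').trans h1).trans hZ1
  · have hK : j + 1 ≤ A + 2 := by omega
    have hCI : Cc.image (em A hK) ⊆ J0ᶜ.image (em A hK) := by
      apply image_subset_image
      intro i hi
      rw [mem_compl]
      exact Finset.disjoint_left.1 hd hi
    have h1 := (hmas (J0ᶜ.image (em A hK)) (Cc.image (em A hK)) (htp _ hK J0 hJ) hCI (xt A s) (xt A s')
      (htpair _ hK J0 s s' hp) (fun i hi l hl hlC => by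
        obtain ⟨i', hi', rfl⟩ := mem_image.1 hi
        obtain ⟨l', hl', rfl⟩ := mem_image.1 hl
        rw [xt_em, xt_em, xt_em, xt_em]
        exact hcop i' hi' l' (fun h => hlC (mem_image_of_mem _ h)) (by simpa using hl'))).2.1 j hj
    refine ((sf_val hK (hSy j hj) X e u J0 Cc s s' h0C hd).trans h1).trans (hZ1.trans ?_)
    have h3 : 0 ≤ Ki * C5 * b' := by positivity
    nlinarith

end

end Pool.Agent.J4.H60.GQ
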